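import Pool.Agent.Q293.TO.Grp

/-! Arithmetic estimates. -/

namespace Pool.Agent.Q293.TO
open Pool.Agent.Q293.RT
open Set

theorem phsq : ph ^ 2 = ph + 1 := Real.goldenRatio_sq
theorem pssq : ps ^ 2 = ps + 1 := Real.goldenConj_sq
theorem ph_lo : (1.618 : ℝ) < ph := by
  have s5p : (2.236 : ℝ) < √5 := by
    rw [show (2.236 : ℝ) = √(2.236 ^ 2) from (Real.sqrt_sq (by norm_num)).symm]
    exact Real.sqrt_lt_sqrt (by norm_num) (by norm_num)
  have hph : ph = (1 + √5) / 2 := rfl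
  rw [hph]; linarith
theorem ph_hi : ph < (1.6185 : ℝ) := by
  have s5q : √5 < (2.237 : ℝ) := by
    rw [show (2.237 : ℝ) = √(2.237 ^ 2) from (Real.sqrt_sq (by norm_num)).symm]
    exact Real.sqrt_lt_sqrt (by norm_num) (by norm_num)
  have hph : ph = (1 + √5) / 2 := rfl
  rw [hph]; linarith
theorem ps_eq : ps = 1 - ph := by
  have := Real.goldenRatio_add_goldenConj
  linarith

theorem diff_eq (a b : ℝ) : (a + b * ph) - (a + b * ps) = b * (2 * ph - 1) := by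
  rw [ps_eq]; ring

theorem ge_phi {a b : ℤ} (ha : Even a) (hb : Odd b) (hpos : 0 < (a : ℝ) + b * ph)
    (hc : |(a : ℝ) + b * ps| < 2.3) : ph ≤ (a : ℝ) + b * ph := by
  have h1 := ph_lo
  have h2 := ph_hi
  obtain ⟨hc4, hc5⟩ := abs_lt.1 hc
  have hd := diff_eq (a : ℝ) b
  by_contra hlt
  push Not at hlt
  have hb1 : (b : ℝ) < 2 := by
    by_contra hcon
    push Not at hcon
    nlinarith
  have hb2 : (-2 : ℝ) < b := by
    by_contra hcon
    push Not at hcon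
    nlinarith
  have hb1' : b < 2 := by exact_mod_cast hb1
  have hb2' : -2 < b := by exact_mod_cast hb2
  have hb3 : b = -1 ∨ b = 1 := by
    obtain ⟨k, hk⟩ := hb
    omega
  rcases hb3 with h | h
  · subst h
    have ha1 : (1:ℝ) < a := by push_cast at hpos; linarith
    have ha' : 1 < a := by exact_mod_cast ha1
    have ha2 : 2 ≤ a := by omega
    have ha3 : (2:ℝ) ≤ a := by exact_mod_cast ha2
    rw [ps_eq] at hc5
    push_cast at hc5
    linarith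
  · subst h
    have ha1 : (-2:ℝ) < a := by push_cast at hpos; linarith
    have ha' : -2 < a := by exact_mod_cast ha1
    obtain ⟨k, hk⟩ := ha
    have ha2 : 0 ≤ a := by omega
    have ha3 : (0:ℝ) ≤ a := by exact_mod_cast ha2
    push_cast at hlt
    linarith

/-- Causal vectors of which one is timelike have negative product. -/
theorem B_neg {y z : M} (hy : Fut y) (hz : Fut z) (hyy : B y y < 0) : B y z < 0 := by
  have hp : (0:ℝ) < ph := Real.goldenRatio_pos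
  obtain ⟨hy0, -⟩ := hy
  obtain ⟨hz0, hzz⟩ := hz
  unfold B at *
  have hcs : (∑ i, y.2 i * z.2 i) ^ 2 ≤ (∑ i, (y.2 i) ^ 2) * ∑ i, (z.2 i) ^ 2 :=
    Finset.sum_mul_sq_le_sq_mul_sq _ _ _
  have e1 : ∑ i, (y.2 i) ^ 2 = ∑ i, y.2 i * y.2 i := Finset.sum_congr rfl fun i _ => sq _
  have e2 : ∑ i, (z.2 i) ^ 2 = ∑ i, z.2 i * z.2 i := Finset.sum_congr rfl fun i _ => sq _
  rw [e1, e2] at hcs
  have hY0 : 0 ≤ ∑ i, y.2 i * y.2 i := Finset.sum_nonneg fun i _ => mul_self_nonneg _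
  have hZ0 : 0 ≤ ∑ i, z.2 i * z.2 i := Finset.sum_nonneg fun i _ => mul_self_nonneg _
  set Y := ∑ i, y.2 i * y.2 i
  set Z := ∑ i, z.2 i * z.2 i
  set S := ∑ i, y.2 i * z.2 i
  have hY : Y < ph * y.1 * y.1 := by linarith
  have hZ : Z ≤ ph * z.1 * z.1 := by linarith
  have hlt : S ^ 2 < (ph * y.1 * z.1) ^ 2 := by
    have hpz : 0 < ph * z.1 * z.1 := by positivity
    calc S ^ 2 ≤ Y * Z := hcs
      _ ≤ Y * (ph * z.1 * z.1) := mul_le_mul_of_nonneg_left hZ hY0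
      _ < (ph * y.1 * y.1) * (ph * z.1 * z.1) := mul_lt_mul_of_pos_right hY hpz
      _ = (ph * y.1 * z.1) ^ 2 := by ring
  have hpos : 0 < ph * y.1 * z.1 := by positivity
  have := abs_lt_of_sq_lt_sq hlt hpos.le
  have := (abs_lt.1 this).2
  linarith

theorem conj_bound (q t t' x0 x1 x2 x0' x1' x2' c : ℝ)
    (f1 : -(q * t ^ 2) + (x0 ^ 2 + x1 ^ 2 + x2 ^ 2) = 2 - 2 * q)
    (f1' : -(q * t' ^ 2) + (x0' ^ 2 + x1' ^ 2 + x2' ^ 2) = 2 - 2 * q)
    (hC : 2 * c = q * (t * t') - (x0 * x0' + x1 * x1' + x2 * x2'))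
    (q1 : 0 ≤ -q * (t + t') ^ 2 + (x0 + x0') ^ 2 + (x1 + x1') ^ 2 + (x2 + x2') ^ 2)
    (q2 : 0 ≤ -q * (t - t') ^ 2 + (x0 - x0') ^ 2 + (x1 - x1') ^ 2 + (x2 - x2') ^ 2)
    (hq : -q < 0.62) : |c| < 2.3 := by
  have h1 : 2 * c ≤ 2 - 2 * q := by linarith
  have h2 : -(2 - 2 * q) ≤ 2 * c := by linarith
  rw [abs_lt]
  constructor <;> linarith

/-- The product of vertices of different classes. -/
theorem nb {w w' : M} (h0 : PC 0 w) (h1 : PC 1 w') (hw : Fut w) (hw' : Fut w') (hww : B w w < 0) :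
    B w w' ≤ -(2 * ph) := by
  have hneg := B_neg hw hw' hww
  obtain ⟨A, B', X, Y, ⟨c1, c2⟩, f1, p1, p2⟩ := h0
  obtain ⟨A', B'', X', Y', ⟨c1', c2'⟩, f1', p1', p2'⟩ := h1
  set a : ℤ := A * (2 * B'' + 1) + A' * (2 * B' + 1) + 2 * B' * B'' + B' + B'' -
    (2 * X 0 * X' 0 + X 0 + X' 0 + (2 * X 1 * X' 1 + X 1 + X' 1) + (2 * X 2 * X' 2 + X 2 + X' 2)) -
    1 - 2 * (Y 0 * Y' 0 + Y 1 * Y' 1 + Y 2 * Y' 2) with ha
  set b : ℤ := 2 * A * A' + A * (2 * B'' + 1) + A' * (2 * B' + 1) + (2 * B' + 1) * (2 * B'' + 1) -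
    ((2 * X 0 + 1) * Y' 0 + Y 0 * (2 * X' 0 + 1) + 2 * Y 0 * Y' 0 +
     ((2 * X 1 + 1) * Y' 1 + Y 1 * (2 * X' 1 + 1) + 2 * Y 1 * Y' 1) +
     ((2 * X 2 + 1) * Y' 2 + Y 2 * (2 * X' 2 + 1) + 2 * Y 2 * Y' 2)) with hb
  have hBa : B w w' = -(2 * ((a : ℝ) + b * ph)) := by
    unfold B
    rw [Fin.sum_univ_three, c1, c1', c2 0, c2 1, c2 2, c2' 0, c2' 1, c2' 2, ha, hb]
    push_cast
    have := phsq
    linear_combination (-(4 * (A : ℝ) * A') * 0
      - (2 * (A : ℝ) * (2 * B'' + 1) + 2 * A' * (2 * B' + 1))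
      - (2 * (B' : ℝ) + 1) * (2 * B'' + 1) * (ph + 1)
      + 4 * ((Y 0 : ℝ) * Y' 0 + Y 1 * Y' 1 + Y 2 * Y' 2)) * this
  have hEa : Even a := by
    obtain ⟨k, hk⟩ := p1
    obtain ⟨k', hk'⟩ := p1'
    refine ⟨k + k' + A * B'' + A' * B' + B' * B'' - (X 0 * X' 0 + X 1 * X' 1 + X 2 * X' 2) -
      (X 0 + X' 0 + X 1 + X' 1 + X 2 + X' 2) - 1 - (Y 0 * Y' 0 + Y 1 * Y' 1 + Y 2 * Y' 2), ?_⟩
    rw [ha]
    linarith
  have hOb : Odd b := by
    obtain ⟨k, hk⟩ := p2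
    obtain ⟨k', hk'⟩ := p2'
    refine ⟨k + k' + A * A' + A * B'' + A' * B' + 2 * B' * B'' + B' + B'' -
      (X 0 * Y' 0 + Y 0 * X' 0 + Y 0 * Y' 0 + (X 1 * Y' 1 + Y 1 * X' 1 + Y 1 * Y' 1) +
      (X 2 * Y' 2 + Y 2 * X' 2 + Y 2 * Y' 2)) - (Y 0 + Y 1 + Y 2) - (Y' 0 + Y' 1 + Y' 2), ?_⟩
    rw [hb]
    linarith
  have hpos : 0 < (a : ℝ) + b * ph := by rw [hBa] at hneg; linarith
  -- the conjugate
  have hconj : |(a : ℝ) + b * ps| < 2.3 := by
    have hps0 : 0 < -ps := by have := Real.goldenConj_neg; linarith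
    unfold cform at f1 f1'
    rw [Fin.sum_univ_three] at f1 f1'
    push_cast at f1 f1'
    set t : ℝ := 2 * A + (2 * B' + 1) * ps
    set t' : ℝ := 2 * A' + (2 * B'' + 1) * ps
    set x0 : ℝ := 2 * X 0 + 1 + 2 * Y 0 * ps
    set x1 : ℝ := 2 * X 1 + 1 + 2 * Y 1 * ps
    set x2 : ℝ := 2 * X 2 + 1 + 2 * Y 2 * ps
    set x0' : ℝ := 2 * X' 0 + 1 + 2 * Y' 0 * ps
    set x1' : ℝ := 2 * X' 1 + 1 + 2 * Y' 1 * ps
    set x2' : ℝ := 2 * X' 2 + 1 + 2 * Y' 2 * ps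
    have hC : 2 * ((a : ℝ) + b * ps) = ps * (t * t') - (x0 * x0' + x1 * x1' + x2 * x2') := by
      rw [ha, hb]
      push_cast
      have := pssq
      linear_combination (-(2 * (A : ℝ) * (2 * B'' + 1) + 2 * A' * (2 * B' + 1))
        - (2 * (B' : ℝ) + 1) * (2 * B'' + 1) * (ps + 1)
        + 4 * ((Y 0 : ℝ) * Y' 0 + Y 1 * Y' 1 + Y 2 * Y' 2)) * this
    have hph1 := ph_lo
    have hph2 := ph_hi
    have hpse := ps_eq
    have q1 : 0 ≤ -ps * (t + t') ^ 2 + (x0 + x0') ^ 2 + (x1 + x1') ^ 2 + (x2 + x2') ^ 2 := by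
      have := mul_nonneg hps0.le (sq_nonneg (t + t'))
      positivity
    have q2 : 0 ≤ -ps * (t - t') ^ 2 + (x0 - x0') ^ 2 + (x1 - x1') ^ 2 + (x2 - x2') ^ 2 := by
      have := mul_nonneg hps0.le (sq_nonneg (t - t'))
      positivity
    exact conj_bound ps t t' x0 x1 x2 x0' x1' x2' _ f1 f1' hC q1 q2 (by linarith)
  have := ge_phi hEa hOb hpos hconj
  rw [hBa]; linarith

/-- centres: the time coordinate is one or at least `ph`. -/
theorem f1v {v : M} (hP : PV v) (hF : Fut v) : v.1 = 1 ∨ ph ≤ v.1 := by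
  obtain ⟨a, b, x, y, ⟨c1, -⟩, f⟩ := hP
  have h1 := ph_lo
  have h2 := ph_hi
  have hpse := ps_eq
  have hv := hF.1
  rw [c1] at hv ⊢
  have hd := diff_eq (a : ℝ) b
  set c : ℝ := (a : ℝ) + b * ps with hc
  have hc1 : c ^ 2 ≤ 1 := by
    unfold cform at f
    have : (0:ℝ) ≤ ∑ i, ((x i : ℝ) + y i * ps) ^ 2 := Finset.sum_nonneg fun i _ => sq_nonneg _
    have hps0 : ps < 0 := Real.goldenConj_neg
    by_contra hcon
    push Not at hcon
    nlinarith
  have hc2 := abs_le.1 ((sq_le_one_iff_abs_le_one _).1 hc1)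
  by_contra hcon
  push Not at hcon
  obtain ⟨hne, hlt⟩ := hcon
  have hb1 : (b : ℝ) < 2 := by
    by_contra hcon
    push Not at hcon
    nlinarith
  have hb2 : (-1 : ℝ) < b := by
    by_contra hcon
    push Not at hcon
    nlinarith
  have hb1' : b < 2 := by exact_mod_cast hb1
  have hb2' : -1 < b := by exact_mod_cast hb2
  have hb3 : b = 0 ∨ b = 1 := by omega
  rcases hb3 with h | h
  · subst h
    push_cast at hv hne hc
    have ha1 : (0:ℝ) < a := by linarith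
    have ha2 : (a : ℝ) ≤ 1 := by linarith [hc2.2]
    have ha1' : 0 < a := by exact_mod_cast ha1
    have ha2' : a ≤ 1 := by exact_mod_cast ha2
    have : a = 1 := by omega
    subst this
    apply hne; push_cast; ring
  · subst h
    push_cast at hlt hc
    have ha1 : (a : ℝ) < 0 := by linarith
    have ha1' : a < 0 := by exact_mod_cast ha1
    have ha2 : a ≤ -1 := by omega
    have ha3 : (a : ℝ) ≤ -1 := by exact_mod_cast ha2
    linarith [hc2.1]

/-- vertices at the lowest level are vertices of the cube. -/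
theorem eqcase {c : ℤ} {w : M} (h : PC c w) (hB : B w w = 2 - 2 * ph) (ht : w.1 = ph) :
    ∀ i, w.2 i = 1 ∨ w.2 i = -1 := by
  obtain ⟨A, B', X, Y, ⟨c1, c2⟩, f, -, -⟩ := h
  have h1 := ph_lo
  have h2 := ph_hi
  have hpse := ps_eq
  unfold cform at f
  rw [Fin.sum_univ_three] at f
  push_cast at f
  rw [ht] at c1
  push_cast at c1
  -- B' = 0
  have hAB : 2 * (A : ℝ) = -2 * B' * ph := by linarith
  have hB0 : B' = 0 := by
    have e : 2 * (A : ℝ) + (2 * B' + 1) * ps = ps - 2 * B' * (2 * ph - 1) := by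
      rw [hAB, hpse]; ring
    have hsq : (ps - 2 * B' * (2 * ph - 1)) ^ 2 ≤ 6 := by
      rw [e] at f
      have q0 := sq_nonneg ((2 : ℝ) * X 0 + 1 + 2 * Y 0 * ps)
      have q1 := sq_nonneg ((2 : ℝ) * X 1 + 1 + 2 * Y 1 * ps)
      have q2 := sq_nonneg ((2 : ℝ) * X 2 + 1 + 2 * Y 2 * ps)
      have hps : ps < -0.618 := by rw [hpse]; linarith
      have hps' : -0.6185 < ps := by rw [hpse]; linarith
      nlinarith [sq_nonneg (ps - 2 * (B' : ℝ) * (2 * ph - 1))]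
    have habs := abs_lt_of_sq_lt_sq (lt_of_le_of_lt hsq (show (6:ℝ) < 3 ^ 2 by norm_num))
      (by norm_num)
    rw [abs_lt] at habs
    have hle : (B' : ℝ) < 1 := by
      by_contra hcon
      push Not at hcon
      have : (2 * ph - 1) ≤ B' * (2 * ph - 1) := by nlinarith
      linarith [habs.1]
    have hge : (-1 : ℝ) < B' := by
      by_contra hcon
      push Not at hcon
      have : B' * (2 * ph - 1) ≤ -(2 * ph - 1) := by nlinarith
      linarith [habs.2]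
    have hle' : B' < 1 := by exact_mod_cast hle
    have hge' : -1 < B' := by exact_mod_cast hge
    omega
  subst hB0
  have hA0 : (A : ℝ) = 0 := by push_cast at hAB; linarith
  rw [hA0] at f
  push_cast at f
  unfold B at hB
  rw [Fin.sum_univ_three, ht, c2 0, c2 1, c2 2] at hB
  push_cast at hB
  -- sum of squares and conjugate squares
  have key : ∀ i : Fin 3, ((2 * (X i : ℝ) + 1 + 2 * Y i * ph) ^ 2 +
      (2 * (X i : ℝ) + 1 + 2 * Y i * ps) ^ 2) =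
      2 * (((2 * X i + 1 + Y i) ^ 2 + 5 * (Y i) ^ 2 : ℤ) : ℝ) := by
    intro i
    push_cast
    rw [hpse]
    have := phsq
    linear_combination (8 * (Y i : ℝ) ^ 2) * this
  have hsum : ((2 * X 0 + 1 + Y 0) ^ 2 + 5 * (Y 0) ^ 2) + ((2 * X 1 + 1 + Y 1) ^ 2 + 5 * (Y 1) ^ 2) +
      ((2 * X 2 + 1 + Y 2) ^ 2 + 5 * (Y 2) ^ 2) = 3 := by
    have k0 := key 0
    have k1 := key 1
    have k2 := key 2
    have : (((((2 * X 0 + 1 + Y 0) ^ 2 + 5 * (Y 0) ^ 2) + ((2 * X 1 + 1 + Y 1) ^ 2 + 5 * (Y 1) ^ 2) +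
      ((2 * X 2 + 1 + Y 2) ^ 2 + 5 * (Y 2) ^ 2) : ℤ)) : ℝ) = 3 := by
      push_cast at k0 k1 k2 ⊢
      linear_combination (-1/2) * (k0 + k1 + k2) + (1/2) * hB + (1/2) * f +
        (1/2) * (ph + 1) * phsq + (1/2) * (ps + 1) * pssq
    exact_mod_cast this
  have hone : ∀ m y : ℤ, 1 ≤ (2 * m + 1 + y) ^ 2 + 5 * y ^ 2 ∧
      ((2 * m + 1 + y) ^ 2 + 5 * y ^ 2 = 1 → y = 0 ∧ (m = 0 ∨ m = -1)) := by
    intro m y
    by_cases hy : y = 0
    · subst hy
      have hm : (2 * m + 1 + 0) ^ 2 + 5 * (0:ℤ) ^ 2 = 4 * (m * (m + 1)) + 1 := by ring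
      rw [hm]
      have hm2 : 0 ≤ m * (m + 1) := by
        by_cases h : 0 ≤ m
        · positivity
        · have : m + 1 ≤ 0 := by omega
          have : m ≤ 0 := by omega
          nlinarith
      refine ⟨by omega, fun h => ⟨rfl, ?_⟩⟩
      have : m * (m + 1) = 0 := by omega
      rcases mul_eq_zero.1 this with h | h
      · left; exact h
      · right; omega
    · have hy2 : 1 ≤ y ^ 2 := by
        have : 0 < y ^ 2 := by positivity
        omega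
      have := sq_nonneg (2 * m + 1 + y)
      exact ⟨by omega, fun h => by omega⟩
  have fin : ∀ i, Y i = 0 ∧ (X i = 0 ∨ X i = -1) := by
    have g0 := hone (X 0) (Y 0)
    have g1 := hone (X 1) (Y 1)
    have g2 := hone (X 2) (Y 2)
    intro i
    fin_cases i
    · exact g0.2 (by omega)
    · exact g1.2 (by omega)
    · exact g2.2 (by omega)
  intro i
  rw [c2 i]
  obtain ⟨hy, hx | hx⟩ := fin i
  · left
    show ((2 * X i + 1 : ℤ) : ℝ) + ((2 * Y i : ℤ) : ℝ) * ph = 1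
    rw [hy, hx]; push_cast; ring
  · right
    show ((2 * X i + 1 : ℤ) : ℝ) + ((2 * Y i : ℤ) : ℝ) * ph = -1
    rw [hy, hx]; push_cast; ring

end Pool.Agent.Q293.TO
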