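import Pool.Agent.Q293.TO.Flg

/-! Special automorphisms. -/

namespace Pool.Agent.Q293.TO
open Pool.Agent.Q293.RT
open Set Topology

/-- the opposite vertex of the reflected tetrahedron -/
noncomputable def D3 : E := !₂[ph ^ 3, -1, -1]

noncomputable def X3 : M := (ph + 2, C3)
noncomputable def X4 : M := (3 * ph, C4)
noncomputable def Y3 : M := (ph + 2, D3)

theorem ph3 : ph ^ 3 = 2 * ph + 1 := by linear_combination (ph + 1) * phsq

theorem C30 : C3 0 = ph ^ 3 := by simp [C3]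
theorem C31 : C3 1 = 1 := by simp [C3]
theorem C32 : C3 2 = 1 := by simp [C3]
theorem C40 : C4 0 = ph ^ 3 := by simp [C4]
theorem C41 : C4 1 = ph ^ 3 := by simp [C4]
theorem C42 : C4 2 = 1 := by simp [C4]
theorem D30 : D3 0 = ph ^ 3 := by simp [D3]
theorem D31 : D3 1 = -1 := by simp [D3]
theorem D32 : D3 2 = -1 := by simp [D3]

/-- automorphism together with its effect on vertices -/
theorem augp {γ : M ≃ₗ[ℝ] M} (hγ : SymE γ) : ∃ G : L2 ≃o L2,
    (∀ w, JACT.Sig DD w → ∀ F : L2, F.1 = {w.2} → (G F).1 = {(γ w).2}) ∧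
    (γ w0 = w0 → G QF = QF) := by
  obtain ⟨G, g, h1, h2, h3⟩ := augm hγ
  refine ⟨G, fun w hw F hF => ?_, fun h => ?_⟩
  · rw [h1, hF, Set.image_singleton, h3 w hw]
  · apply Subtype.ext
    rw [h1]
    show g '' tile DD u0 = tile DD u0
    rw [h2 u0 u0_DD]
    have : γ u0 = u0 := by unfold u0; rw [map_smul, h]
    rw [this]

/-- the reflected centre -/
noncomputable def vx : M := (ph, !₂[ph, 0, 0])

/-- the reflection -/
theorem refl_s : ∃ γ : M ≃ₗ[ℝ] M, SymE γ ∧ γ w0 = w0 ∧ γ (W 1) = W 1 ∧ γ (W 2) = W 2 ∧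
    γ (W 0) = X3 ∧ γ X3 = W 0 ∧ γ (W 3) = Y3 ∧ γ Y3 = W 3 ∧ γ vs = vx ∧ γ vx = vs := by
  obtain ⟨γ, hγ, h⟩ := gs
  have k := phsq
  have k3 := ph3
  have hmk : ∀ y z : M, z.1 = ph * y.1 - y.2 0 → z.2 0 = ph * y.1 - ph * y.2 0 → z.2 1 = y.2 1 →
      z.2 2 = y.2 2 → γ y = z := by
    intro y z a b c d
    obtain ⟨k0, k1, k2, k3⟩ := h y
    exact JPAI.vec_ext (k0.trans a.symm) (k1.trans b.symm) (k2.trans c.symm) (k3.trans d.symm)
  refine ⟨γ, hγ, hmk _ _ ?_ ?_ rfl rfl, hmk _ _ ?_ ?_ rfl rfl, hmk _ _ ?_ ?_ rfl rfl,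
    hmk _ _ ?_ ?_ ?_ ?_, hmk _ _ ?_ ?_ ?_ ?_, hmk _ _ ?_ ?_ ?_ ?_, hmk _ _ ?_ ?_ ?_ ?_,
    hmk _ _ ?_ ?_ ?_ ?_, hmk _ _ ?_ ?_ ?_ ?_⟩
  · show ph = ph * ph - P0 0
    rw [P0_apply]; linear_combination (-1 : ℝ) * k
  · show P0 0 = ph * ph - ph * P0 0
    rw [P0_apply]; linear_combination (-1 : ℝ) * k
  · show ph = ph * ph - V 1 0
    rw [V10]; linear_combination (-1 : ℝ) * k
  · show V 1 0 = ph * ph - ph * V 1 0
    rw [V10]; linear_combination (-1 : ℝ) * k
  · show ph = ph * ph - V 2 0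
    rw [V20]; linear_combination (-1 : ℝ) * k
  · show V 2 0 = ph * ph - ph * V 2 0
    rw [V20]; linear_combination (-1 : ℝ) * k
  · show ph + 2 = ph * ph - V 0 0
    rw [V00]; linear_combination (-1 : ℝ) * k
  · show C3 0 = ph * ph - ph * V 0 0
    rw [V00, C30]; linear_combination (-1 : ℝ) * k + k3
  · show C3 1 = V 0 1
    rw [V01, C31]
  · show C3 2 = V 0 2
    rw [V02, C32]
  · show ph = ph * (ph + 2) - C3 0
    rw [C30]; linear_combination (-1 : ℝ) * k + k3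
  · show V 0 0 = ph * (ph + 2) - ph * C3 0
    rw [C30, V00]; linear_combination k + ph * k3
  · show V 0 1 = C3 1
    rw [V01, C31]
  · show V 0 2 = C3 2
    rw [V02, C32]
  · show ph + 2 = ph * ph - V 3 0
    rw [V30]; linear_combination (-1 : ℝ) * k
  · show D3 0 = ph * ph - ph * V 3 0
    rw [V30, D30]; linear_combination (-1 : ℝ) * k + k3
  · show D3 1 = V 3 1
    rw [V31, D31]
  · show D3 2 = V 3 2
    rw [V32, D32]
  · show ph = ph * (ph + 2) - D3 0
    rw [D30]; linear_combination (-1 : ℝ) * k + k3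
  · show V 3 0 = ph * (ph + 2) - ph * D3 0
    rw [D30, V30]; linear_combination k + ph * k3
  · show V 3 1 = D3 1
    rw [V31, D31]
  · show V 3 2 = D3 2
    rw [V32, D32]
  · show ph = ph * 1 - 0
    ring
  · simp [vs, vx]
  · simp [vs, vx]
  · simp [vs, vx]
  · simp [vs, vx]; linear_combination (-1 : ℝ) * k
  · simp [vs, vx]
  · simp [vs, vx]
  · simp [vs, vx]

/-- the rotation -/
theorem rot_pi : ∃ γ : M ≃ₗ[ℝ] M, SymE γ ∧ γ w0 = w0 ∧ γ (W 2) = W 2 ∧ γ (W 0) = W 1 ∧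
    γ (W 1) = X3 ∧ γ X3 = X4 ∧ γ (γ X4) = W 0 := by
  obtain ⟨s, hs, h⟩ := gs
  obtain ⟨r, hr, h'⟩ := gp (Equiv.swap 0 1) (fun _ => 1) (fun _ => one_ne_zero) (by decide)
  have e0 : Equiv.swap (0 : Fin 3) 1 0 = 1 := by decide
  have e1 : Equiv.swap (0 : Fin 3) 1 1 = 0 := by decide
  have e2 : Equiv.swap (0 : Fin 3) 1 2 = 2 := by decide
  have k := phsq
  have k3 := ph3
  have hmk : ∀ y z : M, z.1 = ph * y.1 - y.2 1 → z.2 0 = ph * y.1 - ph * y.2 1 → z.2 1 = y.2 0 →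
      z.2 2 = y.2 2 → (r.trans s) y = z := by
    intro y z a b c d
    obtain ⟨k0, k1, k2, k3⟩ := h (r y)
    have r0 : (r y).1 = y.1 := (h' y).1
    have r1 : (r y).2 0 = y.2 1 := by rw [(h' y).2, e0]; simp
    have r2 : (r y).2 1 = y.2 0 := by rw [(h' y).2, e1]; simp
    have r3 : (r y).2 2 = y.2 2 := by rw [(h' y).2, e2]; simp
    rw [r0, r1] at k0
    rw [r0, r1] at k1
    rw [r2] at k2
    rw [r3] at k3
    exact JPAI.vec_ext (k0.trans a.symm) (k1.trans b.symm) (k2.trans c.symm) (k3.trans d.symm)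
  have m4 : (r.trans s) X4 = (ph + 2, C5) := by
    apply hmk
    · show ph + 2 = ph * (3 * ph) - C4 1
      rw [C41]; linear_combination (-3 : ℝ) * k + k3
    · show C5 0 = ph * (3 * ph) - ph * C4 1
      rw [C41]
      have : C5 0 = 1 := by simp [C5]
      rw [this]
      linear_combination (-3 : ℝ) * k + ph * k3 + 2 * k
    · show C5 1 = C4 0
      rw [C40]; simp [C5]
    · show C5 2 = C4 2
      rw [C42]; simp [C5]
  have m5 : (r.trans s) (ph + 2, C5) = W 0 := by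
    have c0 : C5 0 = 1 := by simp [C5]
    have c1 : C5 1 = ph ^ 3 := by simp [C5]
    have c2 : C5 2 = 1 := by simp [C5]
    apply hmk
    · show ph = ph * (ph + 2) - C5 1
      rw [c1]; linear_combination (-1 : ℝ) * k + k3
    · show V 0 0 = ph * (ph + 2) - ph * C5 1
      rw [c1, V00]; linear_combination k + ph * k3
    · show V 0 1 = C5 0
      rw [V01, c0]
    · show V 0 2 = C5 2
      rw [V02, c2]
  refine ⟨r.trans s, hr.trans hs, hmk _ _ ?_ ?_ ?_ rfl, hmk _ _ ?_ ?_ ?_ rfl, hmk _ _ ?_ ?_ ?_ ?_,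
    hmk _ _ ?_ ?_ ?_ ?_, hmk _ _ ?_ ?_ ?_ ?_, ?_⟩
  · show ph = ph * ph - P0 1
    rw [P0_apply]; linear_combination (-1 : ℝ) * k
  · show P0 0 = ph * ph - ph * P0 1
    rw [P0_apply, P0_apply]; linear_combination (-1 : ℝ) * k
  · show P0 1 = P0 0
    rw [P0_apply, P0_apply]
  · show ph = ph * ph - V 2 1
    rw [V21]; linear_combination (-1 : ℝ) * k
  · show V 2 0 = ph * ph - ph * V 2 1
    rw [V20, V21]; linear_combination (-1 : ℝ) * k
  · show V 2 1 = V 2 0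
    rw [V20, V21]
  · show ph = ph * ph - V 0 1
    rw [V01]; linear_combination (-1 : ℝ) * k
  · show V 1 0 = ph * ph - ph * V 0 1
    rw [V10, V01]; linear_combination (-1 : ℝ) * k
  · show V 1 1 = V 0 0
    rw [V11, V00]
  · show V 1 2 = V 0 2
    rw [V12, V02]
  · show ph + 2 = ph * ph - V 1 1
    rw [V11]; linear_combination (-1 : ℝ) * k
  · show C3 0 = ph * ph - ph * V 1 1
    rw [V11, C30]; linear_combination (-1 : ℝ) * k + k3
  · show C3 1 = V 1 0
    rw [V10, C31]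
  · show C3 2 = V 1 2
    rw [V12, C32]
  · show 3 * ph = ph * (ph + 2) - C3 1
    rw [C31]; linear_combination (-1 : ℝ) * k
  · show C4 0 = ph * (ph + 2) - ph * C3 1
    rw [C31, C40]; linear_combination (-1 : ℝ) * k + k3
  · show C4 1 = C3 0
    rw [C41, C30]
  · show C4 2 = C3 2
    rw [C42, C32]
  · rw [m4, m5]

/-- the swap of `b` and `c` -/
theorem swap_bc : ∃ γ : M ≃ₗ[ℝ] M, SymE γ ∧ γ (W 1) = W 1 ∧ γ (W 2) = W 2 ∧
    γ (W 0) = W 3 ∧ γ (W 3) = W 0 ∧ γ X3 = Y3 ∧ γ Y3 = X3 := by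
  obtain ⟨r, hr, h'⟩ := gp (Equiv.swap 1 2) ![1, -1, -1]
    (fun i => by fin_cases i <;> decide) (by decide)
  have e0 : Equiv.swap (1 : Fin 3) 2 0 = 0 := by decide
  have e1 : Equiv.swap (1 : Fin 3) 2 1 = 2 := by decide
  have e2 : Equiv.swap (1 : Fin 3) 2 2 = 1 := by decide
  have hmk : ∀ y z : M, z.1 = y.1 → z.2 0 = y.2 0 → z.2 1 = - y.2 2 →
      z.2 2 = - y.2 1 → r y = z := by
    intro y z a b c d
    refine JPAI.vec_ext ((h' y).1.trans a.symm) ?_ ?_ ?_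
    · rw [(h' y).2, e0, b]; simp
    · rw [(h' y).2, e1, c]; simp
    · rw [(h' y).2, e2, d]; simp
  refine ⟨r, hr, hmk _ _ rfl rfl ?_ ?_, hmk _ _ rfl rfl ?_ ?_, hmk _ _ rfl ?_ ?_ ?_,
    hmk _ _ rfl ?_ ?_ ?_, hmk _ _ rfl ?_ ?_ ?_, hmk _ _ rfl ?_ ?_ ?_⟩
  · show V 1 1 = - V 1 2
    rw [V11, V12]
  · show V 1 2 = - V 1 1
    rw [V11, V12]; norm_num
  · show V 2 1 = - V 2 2
    rw [V21, V22]; norm_num
  · show V 2 2 = - V 2 1
    rw [V21, V22]
  · show V 3 0 = V 0 0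
    rw [V30, V00]
  · show V 3 1 = - V 0 2
    rw [V31, V02]
  · show V 3 2 = - V 0 1
    rw [V32, V01]
  · show V 0 0 = V 3 0
    rw [V30, V00]
  · show V 0 1 = - V 3 2
    rw [V01, V32]; norm_num
  · show V 0 2 = - V 3 1
    rw [V02, V31]; norm_num
  · show D3 0 = C3 0
    rw [D30, C30]
  · show D3 1 = - C3 2
    rw [D31, C32]
  · show D3 2 = - C3 1
    rw [D32, C31]
  · show C3 0 = D3 0
    rw [D30, C30]
  · show C3 1 = - D3 2
    rw [C31, D32]; norm_num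
  · show C3 2 = - D3 1
    rw [C32, D31]; norm_num

theorem sig_X3 : JACT.Sig DD X3 := by
  obtain ⟨γ, hγ, -, -, -, h, -⟩ := refl_s
  rw [← h]; exact sig_move hγ (sig_W 0)

theorem sig_Y3 : JACT.Sig DD Y3 := by
  obtain ⟨γ, hγ, -, -, -, -, -, h, -⟩ := refl_s
  rw [← h]; exact sig_move hγ (sig_W 3)

theorem sig_X4 : JACT.Sig DD X4 := by
  obtain ⟨γ, hγ, -, -, -, -, h, -⟩ := rot_pi
  rw [← h]; exact sig_move hγ sig_X3

theorem tfF_pt (i : Fin 4) : (tfF {i}).1 = {(W i).2} := tf_single i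

theorem bot_iff (g : L2 ≃o L2) (F : L2) : (g F).1 = ∅ ↔ F.1 = ∅ := by
  have hbT : (∅ : Set E) ∈ Faces (d := 3) T2 := Or.inl rfl
  have hbot : ∀ g : L2 ≃o L2, g ⟨∅, hbT⟩ = ⟨∅, hbT⟩ := by
    intro g
    apply le_antisymm
    · have h1 : (⟨∅, hbT⟩ : L2) ≤ g.symm ⟨∅, hbT⟩ :=
        show (∅ : Set E) ⊆ _ from Set.empty_subset _
      have := g.monotone h1
      rwa [g.apply_symm_apply] at this
    · show (∅ : Set E) ⊆ _
      exact Set.empty_subset _
  constructor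
  · intro h
    have h1 : g F = ⟨∅, hbT⟩ := Subtype.ext h
    rw [← hbot g] at h1
    rw [g.injective h1]
  · intro h
    have h1 : F = ⟨∅, hbT⟩ := Subtype.ext h
    rw [h1, hbot g]

theorem univ_iff (g : L2 ≃o L2) (F : L2) : (g F).1 = univ ↔ F.1 = univ := by
  have hbT : (univ : Set E) ∈ Faces (d := 3) T2 := Or.inr (Or.inl rfl)
  have hbot : ∀ g : L2 ≃o L2, g ⟨univ, hbT⟩ = ⟨univ, hbT⟩ := by
    intro g
    apply le_antisymm
    · show _ ⊆ (univ : Set E)
      exact Set.subset_univ _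
    · have h1 : g.symm ⟨univ, hbT⟩ ≤ (⟨univ, hbT⟩ : L2) :=
        show _ ⊆ (univ : Set E) from Set.subset_univ _
      have := g.monotone h1
      rwa [g.apply_symm_apply] at this
  constructor
  · intro h
    have h1 : g F = ⟨univ, hbT⟩ := Subtype.ext h
    rw [← hbot g] at h1
    rw [g.injective h1]
  · intro h
    have h1 : F = ⟨univ, hbT⟩ := Subtype.ext h
    rw [h1, hbot g]

/-- a point face below the tetrahedron's image -/
theorem pt_pull {g : L2 ≃o L2} {P : L2} (hg : g (tfF Finset.univ) = P) {F : L2} {x : E}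
    (hF : F.1 = {x}) (hle : F ≤ P) : ∃ i, F = g (tfF {i}) := by
  have h1 : g.symm F ≤ tfF Finset.univ := by
    rw [← hg] at hle
    have := g.symm.monotone hle
    rwa [g.symm_apply_apply] at this
  obtain ⟨Z, hZ⟩ := below_tet (F := g.symm F) (by
    rw [← tf_univ]; exact h1)
  have hne : (g.symm F).1 ≠ ∅ := by
    intro h
    have := (bot_iff g (g.symm F)).2 h
    rw [g.apply_symm_apply, hF] at this
    exact Set.singleton_ne_empty x this
  have hZne : Z.Nonempty := by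
    rw [Finset.nonempty_iff_ne_empty]
    rintro rfl
    apply hne
    rw [hZ]; exact tf_empty
  obtain ⟨i, hi⟩ := hZne
  refine ⟨i, ?_⟩
  have h2 : g (tfF {i}) ≤ F := by
    have h3 : tfF {i} ≤ g.symm F := by
      rw [hZ]; exact tfF_le.2 (by simpa using hi)
    have := g.monotone h3
    rwa [g.apply_symm_apply] at this
  have h4 : (g (tfF {i})).1 ⊆ {x} := by rw [← hF]; exact h2
  rcases Set.subset_singleton_iff_eq.1 h4 with h5 | h5
  · exfalso
    have := (bot_iff g _).1 h5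
    rw [tfF_pt] at this
    exact Set.singleton_ne_empty _ this
  · exact Subtype.ext (hF.trans h5.symm)

theorem no_tet_Q (g : L2 ≃o L2) : g (tfF Finset.univ) ≠ QF := by
  intro hg
  obtain ⟨s, hs, s0, s1, s2, s3, -⟩ := refl_s
  obtain ⟨π, hπ, p0, p1, p2, p3, p4, -⟩ := rot_pi
  obtain ⟨Gs, hGs, hGsQ⟩ := augp hs
  obtain ⟨Gp, hGp, hGpQ⟩ := augp hπ
  have hQ0 : ∀ i : Fin 4, i ≠ 3 → tfF {i} ≤ QF := by
    intro i hi
    exact tf_sub_Q.2 (by simpa using Ne.symm hi)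
  -- the point C3
  have hC3 : (Gs (tfF {0})).1 = {C3} := by
    rw [hGs (W 0) (sig_W 0) _ (tfF_pt 0), s3]; rfl
  have hC3Q : Gs (tfF {0}) ≤ QF := by
    rw [← hGsQ s0]; exact Gs.monotone (hQ0 0 (by decide))
  have hC4 : (Gp (Gs (tfF {0}))).1 = {C4} := by
    rw [hGp X3 sig_X3 _ hC3, p4]; rfl
  have hC4Q : Gp (Gs (tfF {0})) ≤ QF := by
    rw [← hGpQ p0]; exact Gp.monotone hC3Q
  obtain ⟨i0, h0⟩ := pt_pull hg (tfF_pt 0) (hQ0 0 (by decide))
  obtain ⟨i1, h1⟩ := pt_pull hg (tfF_pt 1) (hQ0 1 (by decide))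
  obtain ⟨i2, h2⟩ := pt_pull hg (tfF_pt 2) (hQ0 2 (by decide))
  obtain ⟨i3, h3⟩ := pt_pull hg hC3 hC3Q
  obtain ⟨i4, h4⟩ := pt_pull hg hC4 hC4Q
  -- the five points are different
  have ne : ∀ {F F' : L2} {x y : E} {i j : Fin 4}, F.1 = {x} → F'.1 = {y} → F = g (tfF {i}) →
      F' = g (tfF {j}) → x ≠ y → i ≠ j := by
    rintro F F' x y i j hF hF' a b hxy rfl
    apply hxy
    have : F = F' := a.trans b.symm
    rw [this, hF'] at hF
    exact (Set.singleton_injective hF).symm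
  have hp := ph_lo
  have hph3 : (1:ℝ) < ph ^ 3 := by rw [ph3]; linarith
  have v01 : (W 0).2 ≠ (W 1).2 := fun h => by
    have : V 0 0 = V 1 0 := congrArg (fun x : E => x 0) h
    rw [V00, V10] at this; norm_num at this
  have v02 : (W 0).2 ≠ (W 2).2 := fun h => by
    have : V 0 0 = V 2 0 := congrArg (fun x : E => x 0) h
    rw [V00, V20] at this; norm_num at this
  have v12 : (W 1).2 ≠ (W 2).2 := fun h => by
    have : V 1 1 = V 2 1 := congrArg (fun x : E => x 1) h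
    rw [V11, V21] at this; norm_num at this
  have v03 : (W 0).2 ≠ C3 := fun h => by
    have : V 0 0 = C3 0 := congrArg (fun x : E => x 0) h
    rw [V00, C30] at this; linarith
  have v13 : (W 1).2 ≠ C3 := fun h => by
    have : V 1 0 = C3 0 := congrArg (fun x : E => x 0) h
    rw [V10, C30] at this; linarith
  have v23 : (W 2).2 ≠ C3 := fun h => by
    have : V 2 0 = C3 0 := congrArg (fun x : E => x 0) h
    rw [V20, C30] at this; linarith
  have v04 : (W 0).2 ≠ C4 := fun h => by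
    have : V 0 0 = C4 0 := congrArg (fun x : E => x 0) h
    rw [V00, C40] at this; linarith
  have v14 : (W 1).2 ≠ C4 := fun h => by
    have : V 1 0 = C4 0 := congrArg (fun x : E => x 0) h
    rw [V10, C40] at this; linarith
  have v24 : (W 2).2 ≠ C4 := fun h => by
    have : V 2 0 = C4 0 := congrArg (fun x : E => x 0) h
    rw [V20, C40] at this; linarith
  have v34 : C3 ≠ C4 := fun h => by
    have : C3 1 = C4 1 := congrArg (fun x : E => x 1) h
    rw [C31, C41] at this; linarith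
  have n01 := ne (tfF_pt 0) (tfF_pt 1) h0 h1 v01
  have n02 := ne (tfF_pt 0) (tfF_pt 2) h0 h2 v02
  have n12 := ne (tfF_pt 1) (tfF_pt 2) h1 h2 v12
  have n03 := ne (tfF_pt 0) hC3 h0 h3 v03
  have n13 := ne (tfF_pt 1) hC3 h1 h3 v13
  have n23 := ne (tfF_pt 2) hC3 h2 h3 v23
  have n04 := ne (tfF_pt 0) hC4 h0 h4 v04
  have n14 := ne (tfF_pt 1) hC4 h1 h4 v14
  have n24 := ne (tfF_pt 2) hC4 h2 h4 v24
  have n34 := ne hC3 hC4 h3 h4 v34
  omega

/-- The tiling is combinatorially two-orbit. -/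
theorem two : CombTwoOrbit (d := 3) T2 := by
  have hflag : ∀ F : L2, ∃ Φ : Flag L2, F ∈ Φ := by
    intro F
    have hc : IsChain (· ≤ ·) ({F} : Set L2) := Set.subsingleton_singleton.isChain
    obtain ⟨m, hm, hcm⟩ := hc.exists_maxChain
    exact ⟨Flag.ofIsMaxChain m hm, hcm rfl⟩
  obtain ⟨Φ, hΦ⟩ := hflag (tfF Finset.univ)
  obtain ⟨Ψ, hΨ⟩ := hflag QF
  obtain ⟨G, hG⟩ := mov1 Φ hΦ
  obtain ⟨G', hG'⟩ := mov2 Ψ hΨ
  refine ⟨Φ, Ψ, ?_, ?_⟩
  · rintro ⟨g, hg⟩
    have h1 : g (tfF Finset.univ) ∈ Ψ := (hg _).1 hΦ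
    apply no_tet_Q g
    rcases Ψ.le_or_le h1 hΨ with h | h
    · have h2 : tfF Finset.univ ≤ g.symm QF := by
        have := g.symm.monotone h
        rwa [g.symm_apply_apply] at this
      have h3 : tet ⊆ (g.symm QF).1 := by rw [← tf_univ]; exact h2
      rcases above_tile tet_T2 h3 with h4 | h4
      · have : g.symm QF = tfF Finset.univ := Subtype.ext (h4.trans tf_univ.symm)
        rw [← this, g.apply_symm_apply]
      · exfalso
        exact tile_ne_univ Q_T2 ((univ_iff g.symm QF).1 h4)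
    · rcases above_tile Q_T2 (show tile DD u0 ⊆ (g (tfF Finset.univ)).1 from h) with h4 | h4
      · exact Subtype.ext h4
      · exfalso
        have := (univ_iff g _).1 h4
        apply tile_ne_univ tet_T2
        rw [← tf_univ]; exact this
  · intro Ξ
    rcases mov Ξ with ⟨H, hH⟩ | ⟨H, hH⟩
    · left
      refine ⟨G.trans H.symm, fun F => ?_⟩
      rw [hG F, OrderIso.trans_apply, hH (H.symm (G F)), OrderIso.apply_symm_apply]
    · right
      refine ⟨G'.trans H.symm, fun F => ?_⟩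
      rw [hG' F, OrderIso.trans_apply, hH (H.symm (G' F)), OrderIso.apply_symm_apply]

end Pool.Agent.Q293.TO
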