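import Pool.Agent.Q293.RT.Defs

/-!
# Combinatorially two-orbit LFC tilings of Euclidean 3-space (MP_95e952_co): definitions
-/

namespace Pool.Agent.Q293.TO

open Pool.Agent.Q293.RT

/-- Two flags are in the same orbit of the automorphism group of the face lattice. -/
def CombEquiv {d : ℕ} (T : Set (Set (Eu d))) (Φ Ψ : Flag (FaceLat T)) : Prop :=
  ∃ g : FaceLat T ≃o FaceLat T, ∀ F : FaceLat T, F ∈ Φ ↔ g F ∈ Ψ

/-- Two flags are in the same orbit of the group of isometries mapping the tiling onto itself. -/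
def MetricEquiv {d : ℕ} (T : Set (Set (Eu d))) (Φ Ψ : Flag (FaceLat T)) : Prop :=
  ∃ h : Eu d ≃ᵢ Eu d, (∀ P : Set (Eu d), P ∈ T ↔ h '' P ∈ T) ∧
    ∀ F : FaceLat T, F ∈ Φ ↔ ∃ G ∈ Ψ, (G : Set (Eu d)) = h '' (F : Set (Eu d))

/-- The automorphism group of the face lattice has exactly two orbits on flags. -/
def CombTwoOrbit {d : ℕ} (T : Set (Set (Eu d))) : Prop :=
  ∃ Φ Ψ : Flag (FaceLat T), ¬ CombEquiv T Φ Ψ ∧
    ∀ Ξ : Flag (FaceLat T), CombEquiv T Φ Ξ ∨ CombEquiv T Ψ Ξ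

/-- The group of isometries mapping the tiling onto itself has exactly two orbits on flags. -/
def MetricTwoOrbit {d : ℕ} (T : Set (Set (Eu d))) : Prop :=
  ∃ Φ Ψ : Flag (FaceLat T), ¬ MetricEquiv T Φ Ψ ∧
    ∀ Ξ : Flag (FaceLat T), MetricEquiv T Φ Ξ ∨ MetricEquiv T Ψ Ξ

end Pool.Agent.Q293.TO
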