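import Pool.Agent.Q293.TO.Fin
import Pool.Agent.Q293.RT.JBEL
import Pool.Agent.Q293.RT.JTLG
import Pool.Agent.Q293.RT.JLOC
import Pool.Agent.Q293.RT.JABV

/-! The envelope. -/

namespace Pool.Agent.Q293.TO
open Pool.Agent.Q293.RT
open Set Topology

theorem stepE (y : M) (h0 : 0 < y.1) (hB : B y y = 0) :
    ∃ γ : M ≃ₗ[ℝ] M, SymE γ ∧ (γ y).1 ≤ 0.9 * y.1 ∧ 0 < (γ y).1 ∧ B (γ y) (γ y) = 0 := by
  have hph1 := ph_lo
  have hph2 := ph_hi
  obtain ⟨i, hi⟩ := Finite.exists_max (fun i : Fin 3 => (y.2 i) ^ 2)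
  have hsum : ∑ j, y.2 j * y.2 j = ph * y.1 * y.1 := by
    unfold B at hB; linarith
  have hle : ph * y.1 * y.1 ≤ 3 * (y.2 i) ^ 2 := by
    rw [← hsum, Fin.sum_univ_three]
    have a0 := hi 0
    have a1 := hi 1
    have a2 := hi 2
    simp only at a0 a1 a2
    nlinarith
  have hyy : 0 < y.1 * y.1 := by positivity
  have hge : (0.72 * y.1) ^ 2 ≤ (y.2 i) ^ 2 := by nlinarith
  have habs : 0.72 * y.1 ≤ |y.2 i| := by
    have := sq_le_sq.1 hge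
    rwa [abs_of_pos (by positivity)] at this
  have hne : y.2 i ≠ 0 := by
    intro h
    rw [h, abs_zero] at habs
    nlinarith
  have hs : SignType.sign (y.2 i) ≠ 0 := by
    simpa using hne
  obtain ⟨γ₁, h1, h1'⟩ := gp (Equiv.swap 0 i)
    ![SignType.sign (y.2 i), SignType.sign (y.2 i), 1]
    (by
      intro j
      fin_cases j
      · exact hs
      · exact hs
      · exact one_ne_zero)
    (by
      show SignType.sign (y.2 i) * SignType.sign (y.2 i) * 1 = 1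
      rcases sign_cases hs with h | h <;> rw [h] <;> decide)
  obtain ⟨γ₂, h2, h2'⟩ := gs
  refine ⟨γ₁.trans γ₂, h1.trans h2, ?_⟩
  have hFut : Fut ((γ₁.trans γ₂) y) := (h1.trans h2).1.fut y ⟨h0, hB.le⟩
  have e0 : (γ₁ y).2 0 = |y.2 i| := by
    rw [(h1' y).2 0]
    simp only [Equiv.swap_apply_left]
    exact sign_mul_self _
  refine ⟨?_, hFut.1, ?_⟩
  · show (γ₂ (γ₁ y)).1 ≤ 0.9 * y.1
    rw [(h2' (γ₁ y)).1, (h1' y).1, e0]
    nlinarith
  · rw [(h1.trans h2).1.form]; exact hB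

theorem F2E : ∀ y : M, 0 < y.1 → B y y = 0 → ∀ ε : ℝ, 0 < ε →
    ∃ γ : M ≃ₗ[ℝ] M, SymE γ ∧ (γ y).1 < ε := by
  intro y h0 hB ε hε
  have key : ∀ n : ℕ, ∃ γ : M ≃ₗ[ℝ] M, SymE γ ∧ (γ y).1 ≤ 0.9 ^ n * y.1 ∧ 0 < (γ y).1 ∧
      B (γ y) (γ y) = 0 := by
    intro n
    induction n with
    | zero => exact ⟨LinearEquiv.refl ℝ M, SymE.refl, by simp, h0, hB⟩
    | succ n ih =>
      obtain ⟨γ, hγ, h1, h2, h3⟩ := ih
      obtain ⟨δ, hδ, k1, k2, k3⟩ := stepE (γ y) h2 h3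
      refine ⟨γ.trans δ, hγ.trans hδ, ?_, k2, k3⟩
      show (δ (γ y)).1 ≤ _
      calc (δ (γ y)).1 ≤ 0.9 * (γ y).1 := k1
        _ ≤ 0.9 * (0.9 ^ n * y.1) := by linarith
        _ = 0.9 ^ (n + 1) * y.1 := by ring
  obtain ⟨n, hn⟩ := exists_pow_lt_of_lt_one (div_pos hε h0) (show (0.9 : ℝ) < 1 by norm_num)
  obtain ⟨γ, hγ, h1, -, -⟩ := key n
  refine ⟨γ, hγ, h1.trans_lt ?_⟩
  rwa [lt_div_iff₀ h0] at hn

/-- the orbit of the base centre -/
def VE : Set M := {v | ∃ γ : M ≃ₗ[ℝ] M, SymE γ ∧ γ vs = v}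

/-- the removed vertex -/
noncomputable def w0 : M := (ph, P0)

/-- the centre of the cut -/
noncomputable def u0 : M := (ph / 2) • w0

/-- the orbit of `u0` -/
def UO : Set M := {v | ∃ γ : M ≃ₗ[ℝ] M, SymE γ ∧ γ u0 = v}

/-- the family of centres -/
def DD : Set M := VE ∪ UO

theorem VE_inv {γ : M ≃ₗ[ℝ] M} (h : SymE γ) : ∀ u, u ∈ VE ↔ γ u ∈ VE := by
  intro u
  constructor
  · rintro ⟨δ, hδ, rfl⟩
    exact ⟨δ.trans γ, hδ.trans h, rfl⟩
  · rintro ⟨δ, hδ, h2⟩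
    refine ⟨δ.trans γ.symm, hδ.trans h.symm, ?_⟩
    show γ.symm (δ vs) = u
    rw [h2, γ.symm_apply_apply]

theorem UO_inv {γ : M ≃ₗ[ℝ] M} (h : SymE γ) : ∀ u, u ∈ UO ↔ γ u ∈ UO := by
  intro u
  constructor
  · rintro ⟨δ, hδ, rfl⟩
    exact ⟨δ.trans γ, hδ.trans h, rfl⟩
  · rintro ⟨δ, hδ, h2⟩
    refine ⟨δ.trans γ.symm, hδ.trans h.symm, ?_⟩
    show γ.symm (δ u0) = u
    rw [h2, γ.symm_apply_apply]

theorem DD_inv {γ : M ≃ₗ[ℝ] M} (h : SymE γ) : ∀ u, u ∈ DD ↔ γ u ∈ DD := by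
  intro u
  exact or_congr (VE_inv h u) (UO_inv h u)

theorem vs_VE : vs ∈ VE := ⟨LinearEquiv.refl ℝ M, SymE.refl, rfl⟩
theorem vs_DD : vs ∈ DD := Or.inl vs_VE
theorem u0_UO : u0 ∈ UO := ⟨LinearEquiv.refl ℝ M, SymE.refl, rfl⟩
theorem u0_DD : u0 ∈ DD := Or.inr u0_UO

theorem P0_apply (i : Fin 3) : P0 i = 1 := by fin_cases i <;> simp [P0]

theorem B_symm (y z : M) : B y z = B z y := by
  unfold B
  have : ∑ i, y.2 i * z.2 i = ∑ i, z.2 i * y.2 i := Finset.sum_congr rfl fun i _ => mul_comm _ _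
  rw [this]; ring

theorem B_smul (c : ℝ) (y z : M) : B y (c • z) = c * B y z := by
  unfold B
  simp only [Prod.smul_fst, Prod.smul_snd, PiLp.smul_apply, smul_eq_mul, Fin.sum_univ_three]
  ring

theorem B_w0 (y : M) : B y w0 = -(ph ^ 2 * y.1) + (y.2 0 + y.2 1 + y.2 2) := by
  unfold B w0
  simp only [P0_apply, Fin.sum_univ_three]
  ring

theorem B_w0_w0 : B w0 w0 = 2 - 2 * ph := by
  rw [B_w0]
  simp only [w0, P0_apply]
  linear_combination (-(ph + 1)) * phsq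

theorem B_u0 (y : M) : B y u0 = (ph / 2) * B y w0 := B_smul _ _ _

theorem pc_w0 : PC 0 w0 := by
  refine ⟨0, 0, 0, 0, ⟨?_, ?_⟩, ?_, ?_, ?_⟩
  · simp [w0]
  · intro i; simp [w0, P0_apply]
  · unfold cform
    have := pssq
    rw [Fin.sum_univ_three]
    simp only [Pi.zero_apply, mul_zero, Int.cast_zero, zero_add, zero_mul, add_zero, Int.cast_one]
    linear_combination (-(ps + 1)) * this
  · simp
  · simp

theorem fut_w0 : Fut w0 := by
  have := ph_lo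
  refine ⟨by show 0 < ph; linarith, ?_⟩
  rw [B_w0_w0]; linarith

theorem fut_smul {c : ℝ} (hc : 0 < c) {y : M} (h : Fut y) : Fut (c • y) := by
  refine ⟨mul_pos hc h.1, ?_⟩
  rw [B_smul, B_symm, B_smul]
  have := h.2
  have := mul_nonneg hc.le (mul_nonneg hc.le (neg_nonneg.2 this))
  linarith

theorem fut_u0 : Fut u0 := by
  have := ph_lo
  exact fut_smul (by linarith) fut_w0

theorem fut_DD : ∀ u ∈ DD, Fut u := by
  rintro v (⟨γ, hγ, rfl⟩ | ⟨γ, hγ, rfl⟩)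
  · exact hγ.1.fut _ JABV.fut_vs
  · exact hγ.1.fut _ fut_u0

theorem pos_DD : ∀ u ∈ DD, 0 < u.1 := fun u hu => (fut_DD u hu).1

theorem pv_vs : PV vs := by
  refine ⟨1, 0, 0, 0, ⟨?_, ?_⟩, ?_⟩
  · simp [vs]
  · intro i; simp [vs]
  · simp [cform]

/-- Admissible families. -/
def Good' (D : Set M) : Prop :=
  (∀ x : E, ∃ v ∈ D, ‖x‖ / √ph < ell v x) ∧ (∀ u ∈ D, Fut u) ∧ ∀ R : ℝ, {u | u ∈ D ∧ u.1 ≤ R}.Finite

theorem abvE (x : E) : ∃ v ∈ VE, ‖x‖ / √ph < ell v x := by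
  have hp : (0:ℝ) < ph := Real.goldenRatio_pos
  have hsp : 0 < √ph := Real.sqrt_pos.2 hp
  have hsq : √ph * √ph = ph := Real.mul_self_sqrt hp.le
  by_cases hx : x = 0
  · refine ⟨vs, vs_VE, ?_⟩
    subst hx
    unfold ell vs
    simp
    positivity
  · have hxn : 0 < ‖x‖ := norm_pos_iff.2 hx
    set y : M := (‖x‖ / √ph, x) with hy
    have hy0 : 0 < y.1 := by rw [hy]; positivity
    have hB : B y y = 0 := by
      unfold B
      have : ∑ i, y.2 i * y.2 i = ‖x‖ ^ 2 := by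
        rw [← real_inner_self_eq_norm_sq, PiLp.inner_apply]
        apply Finset.sum_congr rfl
        intro i _
        simp [hy]
        ring
      rw [this]
      show -(ph * (‖x‖ / √ph) * (‖x‖ / √ph)) + ‖x‖ ^ 2 = 0
      have e : ph * (‖x‖ / √ph) * (‖x‖ / √ph) = ph * ‖x‖ ^ 2 / (√ph * √ph) := by
        field_simp
      rw [e, hsq, mul_div_assoc, mul_div_cancel₀]
      · ring
      · exact hp.ne'
    obtain ⟨γ, hγ, hlt⟩ := F2E y hy0 hB ph hp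
    refine ⟨γ.symm vs, ⟨γ.symm, hγ.symm, rfl⟩, ?_⟩
    have hfut : Fut (γ.symm vs) := hγ.symm.1.fut _ JABV.fut_vs
    have hv0 : 0 < (γ.symm vs).1 := hfut.1
    have hBy : B y (γ.symm vs) = -(ph * (γ y).1) := by
      rw [← JABV.B_vs, ← hγ.1.form, LinearEquiv.apply_symm_apply]
    have h1 : - ph ^ 2 < B y (γ.symm vs) := by
      rw [hBy]; nlinarith
    unfold B at h1
    unfold ell
    rw [lt_div_iff₀ (by positivity)]
    show ‖x‖ / √ph * (ph * (γ.symm vs).1) < ph ^ 2 + ∑ i, x i * (γ.symm vs).2 i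
    have h2 : y.1 = ‖x‖ / √ph := rfl
    have h3 : y.2 = x := rfl
    rw [h2, h3] at h1
    linarith

theorem good_DD : Good' DD := by
  refine ⟨fun x => ?_, fut_DD, fun R => ?_⟩
  · obtain ⟨v, hv, h⟩ := abvE x
    exact ⟨v, Or.inl hv, h⟩
  · have h1 := fin_gen (-ps) R
    have h2 := fin_gen (2 - 2 * ps) (2 * R)
    refine (h1.union (h2.image fun y => (ph / 2) • y)).subset ?_
    rintro v ⟨hv, hR⟩
    have hf := fut_DD v hv
    rcases hv with ⟨γ, hγ, rfl⟩ | ⟨γ, hγ, rfl⟩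
    · left
      exact ⟨hγ.1.pv _ pv_vs, hf, hR⟩
    · right
      have e : γ u0 = (ph / 2) • γ w0 := by unfold u0; rw [map_smul]
      rw [e] at hR ⊢
      refine ⟨γ w0, ⟨?_, hγ.1.fut _ fut_w0, ?_⟩, rfl⟩
      · obtain ⟨A, B', X, Y, k1, k2, -, -⟩ := hγ.1.pc _ _ pc_w0
        exact ⟨_, _, _, _, k1, k2⟩
      · have h3 : (ph / 2) * (γ w0).1 ≤ R := hR
        have h4 := (hγ.1.fut _ fut_w0).1
        have := ph_lo
        nlinarith

theorem max' {D : Set M} (hD : Good' D) (x : E) : ∃ u ∈ D, x ∈ tile D u := by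
  obtain ⟨hV, hF, hfin⟩ := hD
  have hp : (0:ℝ) < ph := Real.goldenRatio_pos
  obtain ⟨v₁, hv₁, h1⟩ := hV x
  set δ : ℝ := ell v₁ x - ‖x‖ / √ph with hδ
  have hδ0 : 0 < δ := by rw [hδ]; linarith
  have hbig : ∀ u ∈ D, ell v₁ x ≤ ell u x → u.1 ≤ ph / δ := by
    intro u hu h
    have h2 := JBEL.main u (hF u hu) x
    have hu0 : 0 < u.1 := (hF u hu).1
    have h3 : δ ≤ ph / u.1 := by rw [hδ]; linarith
    rw [le_div_iff₀ hu0] at h3
    rw [le_div_iff₀ hδ0]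
    linarith
  obtain ⟨u, hu, hmax⟩ := Set.exists_max_image {u | u ∈ D ∧ u.1 ≤ ph / δ} (fun u => ell u x)
    (hfin _) ⟨v₁, hv₁, hbig v₁ hv₁ le_rfl⟩
  refine ⟨u, hu.1, fun u' hu' => ?_⟩
  by_cases h : ell v₁ x ≤ ell u' x
  · exact hmax u' ⟨hu', hbig u' hu' h⟩
  · push Not at h
    have := hmax v₁ ⟨hv₁, hbig v₁ hv₁ le_rfl⟩
    linarith

theorem loc' {D : Set M} (hD : Good' D) (x : E) (r : ℝ) :
    {u | u ∈ D ∧ (tile D u ∩ Metric.closedBall x r).Nonempty}.Finite := by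
  obtain ⟨hV, hF, hfin⟩ := hD
  have hp : (0:ℝ) < ph := Real.goldenRatio_pos
  have hK : IsCompact (Metric.closedBall x r) := isCompact_closedBall x r
  refine hK.induction_on (p := fun K => {u | u ∈ D ∧ (tile D u ∩ K).Nonempty}.Finite) ?_ ?_ ?_ ?_
  · convert Set.finite_empty (α := M) using 1
    ext u
    simp
  · intro s t hst ht
    refine ht.subset ?_
    rintro u ⟨hu, y, hy, hys⟩
    exact ⟨hu, y, hy, hst hys⟩
  · intro s t hs ht
    refine (hs.union ht).subset ?_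
    rintro u ⟨hu, y, hy, hys⟩
    rcases hys with h | h
    · exact Or.inl ⟨hu, y, hy, h⟩
    · exact Or.inr ⟨hu, y, hy, h⟩
  · intro x₀ _
    obtain ⟨v₁, hv₁, h1⟩ := hV x₀
    set δ : ℝ := (ell v₁ x₀ - ‖x₀‖ / √ph) / 2 with hδ
    have hδ0 : 0 < δ := by rw [hδ]; linarith
    have hcont : Continuous fun y : E => ell v₁ y - ‖y‖ / √ph :=
      (JLOC.cont_ell v₁).sub (continuous_norm.div_const _)
    have hU : {y : E | δ < ell v₁ y - ‖y‖ / √ph} ∈ 𝓝 x₀ := by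
      apply (isOpen_lt continuous_const hcont).mem_nhds
      show δ < _
      rw [hδ]; linarith
    refine ⟨_, mem_nhdsWithin_of_mem_nhds hU, (hfin (ph / δ)).subset ?_⟩
    rintro u ⟨hu, y, hy, hys⟩
    refine ⟨hu, ?_⟩
    have h2 := JBEL.main u (hF u hu) y
    have hu0 : 0 < u.1 := (hF u hu).1
    have h3 : ell v₁ y ≤ ell u y := hy v₁ hv₁
    have h4 : δ < ell v₁ y - ‖y‖ / √ph := hys
    have h5 : δ ≤ ph / u.1 := by linarith
    rw [le_div_iff₀ hu0] at h5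
    rw [le_div_iff₀ hδ0]
    linarith

theorem tlg' {D : Set M} (hD : Good' D)
    (hpoly : ∀ u ∈ D, (∃ s : Finset E, tile D u = convexHull ℝ (s : Set E)) ∧
      (interior (tile D u)).Nonempty) :
    IsLFCTiling (d := 3) {P | ∃ u ∈ D, P = tile D u} := by
  have hF : ∀ u ∈ D, 0 < u.1 := fun u hu => (hD.2.1 u hu).1
  refine ⟨?_, ?_, ?_, ?_, ?_, ?_⟩
  · rintro P ⟨u, hu, rfl⟩
    exact (hpoly u hu).1
  · rintro P ⟨u, hu, rfl⟩
    exact (hpoly u hu).2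
  · apply Set.eq_univ_of_forall
    intro x
    obtain ⟨u, hu, hx⟩ := max' hD x
    exact ⟨_, ⟨u, hu, rfl⟩, hx⟩
  · rintro P ⟨u, hu, rfl⟩ Q ⟨u', hu', rfl⟩ hne
    rw [Set.disjoint_left]
    intro x hx hx'
    exact hne (by rw [JTLG.eq_of_interior hF hu hu' hx hx'])
  · rintro P ⟨u, hu, rfl⟩ Q ⟨u', hu', rfl⟩
    refine ⟨JTLG.face_inter hu hu', ?_⟩
    rw [Set.inter_comm]
    exact JTLG.face_inter hu' hu
  · intro x r
    refine ((loc' hD x r).image (tile D)).subset ?_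
    rintro P ⟨⟨u, hu, rfl⟩, hne⟩
    exact ⟨u, ⟨hu, hne⟩, rfl⟩

end Pool.Agent.Q293.TO
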