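import Pool.Agent.Q293.TO.Ico2
import Pool.Agent.Q293.RT.JFIT

/-! Faces of the tiles. -/

namespace Pool.Agent.Q293.TO
open Pool.Agent.Q293.RT
open Set Topology

theorem face_push {P F : Set E} (hF : IsFace (d := 3) P F) {x q : E} (hx : x ∈ F) (hq : q ∈ P)
    {t : ℝ} (ht : 0 < t) (h : x + t • (x - q) ∈ P) : q ∈ F := by
  have h1 : (1 + t) ≠ 0 := by positivity
  refine hF.2.2 hq h hx ⟨t / (1 + t), 1 / (1 + t), by positivity, by positivity, ?_, ?_⟩
  · field_simp
    ring
  · ext i
    show t / (1 + t) * q i + 1 / (1 + t) * (x i + t * (x i - q i)) = x i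
    field_simp
    ring

theorem isFace_tf (Z : Finset (Fin 4)) : IsFace (d := 3) tet (tf Z) := by
  refine ⟨?_, fun x hx => hx.1, ?_⟩
  · intro x hx y hy a b ha hb hab
    refine ⟨fun i => ?_, fun i hi => ?_⟩
    · rw [lam_comb i x y hab]
      exact add_nonneg (mul_nonneg ha (hx.1 i)) (mul_nonneg hb (hy.1 i))
    · rw [lam_comb i x y hab, hx.2 i hi, hy.2 i hi]; ring
  · rintro x hx y hy z hz ⟨a, b, ha, hb, hab, rfl⟩
    refine ⟨hx, fun i hi => ?_⟩
    have h1 := hz.2 i hi
    rw [lam_comb i x y hab] at h1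
    have h2 := mul_nonneg ha.le (hx i)
    have h3 := mul_nonneg hb.le (hy i)
    have h4 : a * lam i x = 0 := by linarith
    rcases mul_eq_zero.1 h4 with h | h
    · exact absurd h ha.ne'
    · exact h

/-- the faces of the tetrahedron -/
theorem face_tet {F : Set E} (hF : IsFace (d := 3) tet F) : ∃ Z, F = tf Z := by
  classical
  by_cases hne : F = ∅
  · exact ⟨∅, by rw [tf_empty, hne]⟩
  obtain ⟨x₀, hx₀⟩ := Set.nonempty_iff_ne_empty.2 hne
  let Z : Finset (Fin 4) := Finset.univ.filter fun i => ∃ x ∈ F, lam i x ≠ 0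
  have hZ : ∀ i, i ∉ Z → ∀ x ∈ F, lam i x = 0 := by
    intro i hi x hx
    by_contra h
    apply hi
    simp only [Z, Finset.mem_filter, Finset.mem_univ, true_and]
    exact ⟨x, hx, h⟩
  have hsub : F ⊆ tet := hF.2.1
  have key : ∀ s : Finset (Fin 4), s ⊆ Z → ∃ x ∈ F, ∀ i ∈ s, 0 < lam i x := by
    intro s
    induction s using Finset.induction_on with
    | empty => intro _; exact ⟨x₀, hx₀, by simp⟩
    | insert j s hj ih =>
      intro hs
      obtain ⟨x, hx, h⟩ := ih ((Finset.subset_insert j s).trans hs)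
      have hjZ : j ∈ Z := hs (Finset.mem_insert_self j s)
      simp only [Z, Finset.mem_filter, Finset.mem_univ, true_and] at hjZ
      obtain ⟨y, hy, hy'⟩ := hjZ
      refine ⟨(1/2 : ℝ) • x + (1/2 : ℝ) • y, hF.1 hx hy (by norm_num) (by norm_num) (by norm_num),
        ?_⟩
      intro i hi
      rw [lam_comb i x y (by norm_num)]
      have q1 := hsub hx i
      have q2 := hsub hy i
      rcases Finset.mem_insert.1 hi with rfl | hi
      · have : 0 < lam i y := lt_of_le_of_ne q2 (Ne.symm hy')
        linarith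
      · have := h i hi
        linarith
  obtain ⟨x, hx, hpos⟩ := key Z (Finset.Subset.refl _)
  refine ⟨Z, Subset.antisymm (fun y hy => ⟨hsub hy, fun i hi => hZ i hi y hy⟩) ?_⟩
  intro q hq
  have hev : ∀ᶠ t : ℝ in nhdsWithin 0 (Set.Ioi 0), ∀ i, 0 ≤ lam i (x + t • (x - q)) := by
    rw [Filter.eventually_all]
    intro i
    have hline : ∀ t : ℝ, lam i (x + t • (x - q)) = lam i x + t * (lam i x - lam i q) := by
      intro t
      unfold lam
      simp only [PiLp.add_apply, PiLp.smul_apply, PiLp.sub_apply, smul_eq_mul]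
      ring
    by_cases hi : i ∈ Z
    · have hcont : Continuous fun t : ℝ => lam i (x + t • (x - q)) := by
        simp only [hline]; fun_prop
      have : ∀ᶠ t : ℝ in nhds 0, 0 < lam i (x + t • (x - q)) := by
        apply hcont.continuousAt.eventually
        apply isOpen_Ioi.mem_nhds
        show 0 < lam i (x + (0:ℝ) • (x - q))
        rw [hline, zero_mul, add_zero]
        exact hpos i hi
      exact (this.filter_mono nhdsWithin_le_nhds).mono fun t ht => ht.le
    · apply Filter.Eventually.of_forall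
      intro t
      rw [hline, hZ i hi x hx, hq.2 i hi]
      simp
  obtain ⟨t, ht, htpos⟩ := (hev.and self_mem_nhdsWithin).exists
  exact face_push hF hx hq.1 htpos ht

/-- proper faces of the icosahedral tile lie in a neighbouring tetrahedron -/
theorem face_Q {F : Set E} (hF : IsFace (d := 3) (tile DD u0) F) (hne : F ≠ tile DD u0)
    (hn : F.Nonempty) : ∃ v ∈ Adj, F ⊆ tile DD v := by
  by_contra hcon
  push Not at hcon
  have hsub : F ⊆ tile DD u0 := hF.2.1
  have hpt : ∀ v ∈ Adj, ∃ x ∈ F, ell v x < ell u0 x := by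
    intro v hv
    obtain ⟨x, hx, hxv⟩ := Set.not_subset.1 (hcon v hv)
    refine ⟨x, hx, lt_of_le_of_ne (hsub hx v (Adj_DD hv)) fun h => hxv ?_⟩
    intro u' hu'
    rw [h]; exact hsub hx u' hu'
  have key : ∀ s : Set M, s.Finite → s ⊆ Adj → ∃ x ∈ F, ∀ v ∈ s, ell v x < ell u0 x := by
    intro s hs
    induction s, hs using Set.Finite.induction_on with
    | empty => intro _; obtain ⟨x, hx⟩ := hn; exact ⟨x, hx, by simp⟩
    | @insert j s hj _ ih =>
      intro hsA
      obtain ⟨x, hx, h⟩ := ih ((Set.subset_insert j s).trans hsA)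
      obtain ⟨y, hy, hy'⟩ := hpt j (hsA (Set.mem_insert j s))
      refine ⟨(1/2 : ℝ) • x + (1/2 : ℝ) • y, hF.1 hx hy (by norm_num) (by norm_num) (by norm_num),
        ?_⟩
      intro v hv
      have hvA : v ∈ Adj := hsA hv
      rw [JTLG.ell_comb v x y (by norm_num), JTLG.ell_comb u0 x y (by norm_num)]
      have q1 := hsub hx v (Adj_DD hvA)
      have q2 := hsub hy v (Adj_DD hvA)
      rcases hv with rfl | hv
      · linarith
      · have := h v hv
        linarith
  obtain ⟨x, hx, hpos⟩ := key Adj Adj_finite Subset.rfl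
  apply hne
  refine Subset.antisymm hsub fun q hq => ?_
  have hline : ∀ (v : M) (t : ℝ), ell v (x + t • (x - q)) = ell v x + t * (ell v x - ell v q) := by
    intro v t
    unfold ell
    simp only [Fin.sum_univ_three, PiLp.add_apply, PiLp.smul_apply, PiLp.sub_apply, smul_eq_mul]
    ring
  have hev : ∀ᶠ t : ℝ in nhdsWithin 0 (Set.Ioi 0), ∀ v ∈ Adj,
      ell v (x + t • (x - q)) ≤ ell u0 (x + t • (x - q)) := by
    rw [Filter.eventually_all_finite Adj_finite]
    intro v hv
    have hcont : Continuous fun t : ℝ => ell u0 (x + t • (x - q)) - ell v (x + t • (x - q)) := by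
      simp only [hline]; fun_prop
    have : ∀ᶠ t : ℝ in nhds 0, 0 < ell u0 (x + t • (x - q)) - ell v (x + t • (x - q)) := by
      apply hcont.continuousAt.eventually
      apply isOpen_Ioi.mem_nhds
      show 0 < ell u0 (x + (0:ℝ) • (x - q)) - ell v (x + (0:ℝ) • (x - q))
      rw [hline, hline, zero_mul, zero_mul, add_zero, add_zero]
      have := hpos v hv
      linarith
    exact (this.filter_mono nhdsWithin_le_nhds).mono fun t ht => by linarith
  obtain ⟨t, ht, htpos⟩ := (hev.and self_mem_nhdsWithin).exists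
  exact face_push hF hx hq htpos (mem_Q.2 ht)

/-! ### chains in the Boolean lattice -/

theorem chain_step {K : Set (Finset (Fin 4))} (h1 : ∀ Z ∈ K, ∀ Z' ∈ K, Z ⊆ Z' ∨ Z' ⊆ Z)
    (h2 : ∀ Z, (∀ Z' ∈ K, Z ⊆ Z' ∨ Z' ⊆ Z) → Z ∈ K) {Z : Finset (Fin 4)} (hZ : Z ∈ K)
    (hu : Z ≠ Finset.univ) : ∃ i, i ∉ Z ∧ insert i Z ∈ K := by
  classical
  have huK : (Finset.univ : Finset (Fin 4)) ∈ K := h2 _ fun Z' _ => Or.inr (Finset.subset_univ _)
  have hfin : {Z' | Z' ∈ K ∧ Z ⊂ Z'}.Finite := Set.toFinite _
  obtain ⟨Z', ⟨hZ', hZZ⟩, hmin⟩ := hfin.exists_minimal ⟨_, huK, Finset.ssubset_univ_iff.2 hu⟩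
  obtain ⟨i, hi, hi'⟩ := Finset.exists_of_ssubset hZZ
  refine ⟨i, hi', h2 _ fun W' hW => ?_⟩
  rcases h1 Z hZ W' hW with h | h
  · by_cases he : Z = W'
    · right; rw [← he]; exact Finset.subset_insert _ _
    · left
      have hss : Z ⊂ W' := Finset.ssubset_iff_subset_ne.2 ⟨h, he⟩
      have hle : Z' ⊆ W' := by
        rcases h1 Z' hZ' W' hW with h' | h'
        · exact h'
        · exact hmin ⟨hW, hss⟩ h'
      exact (Finset.insert_subset hi hZZ.subset).trans hle
  · right; exact h.trans (Finset.subset_insert _ _)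

/-- the standard maximal chain -/
def K0 : Set (Finset (Fin 4)) := {∅, {2}, {1, 2}, {0, 1, 2}, Finset.univ}

theorem chain4 (K : Set (Finset (Fin 4))) (h1 : ∀ Z ∈ K, ∀ Z' ∈ K, Z ⊆ Z' ∨ Z' ⊆ Z)
    (h2 : ∀ Z, (∀ Z' ∈ K, Z ⊆ Z' ∨ Z' ⊆ Z) → Z ∈ K) :
    ∃ σ : Equiv.Perm (Fin 4), ∀ Z, Z ∈ K ↔ Z.map σ.toEmbedding ∈ K0 := by
  classical
  have h0 : (∅ : Finset (Fin 4)) ∈ K := h2 _ fun Z' _ => Or.inl (Finset.empty_subset _)
  obtain ⟨a, ha, hA⟩ := chain_step h1 h2 h0 (by decide)
  obtain ⟨b, hb, hB⟩ := chain_step h1 h2 hA (by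
    intro h
    have := congrArg Finset.card h
    rw [Finset.card_insert_of_notMem ha] at this
    simp at this)
  have cB : (insert b (insert a (∅ : Finset (Fin 4)))).card = 2 := by
    rw [Finset.card_insert_of_notMem hb, Finset.card_insert_of_notMem ha]; rfl
  obtain ⟨c, hc, hC⟩ := chain_step h1 h2 hB (by
    intro h
    have := congrArg Finset.card h
    rw [cB] at this
    simp at this)
  have cC : (insert c (insert b (insert a (∅ : Finset (Fin 4))))).card = 3 := by
    rw [Finset.card_insert_of_notMem hc, cB]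
  obtain ⟨d, hd, hD⟩ := chain_step h1 h2 hC (by
    intro h
    have := congrArg Finset.card h
    rw [cC] at this
    simp at this)
  simp only [Finset.mem_insert, Finset.notMem_empty, or_false, not_or] at hb hc hd
  obtain ⟨hdc, hdb, hda⟩ := hd
  obtain ⟨hcb, hca⟩ := hc
  -- the permutation
  let f : Fin 4 → Fin 4 := ![c, b, a, d]
  have hinj : Function.Injective f := by
    intro i j hij
    fin_cases i <;> fin_cases j <;> simp [f] at hij ⊢ <;> first
      | exact absurd hij hcb
      | exact absurd hij hca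
      | exact absurd hij.symm hdc
      | exact absurd hij.symm hcb
      | exact absurd hij hb
      | exact absurd hij.symm hdb
      | exact absurd hij.symm hca
      | exact absurd hij.symm hb
      | exact absurd hij.symm hda
      | exact absurd hij hdc
      | exact absurd hij hdb
      | exact absurd hij hda
  let τ : Equiv.Perm (Fin 4) := Equiv.ofBijective f (Finite.injective_iff_bijective.1 hinj)
  have τ0 : τ 0 = c := rfl
  have τ1 : τ 1 = b := rfl
  have τ2 : τ 2 = a := rfl
  have τ3 : τ 3 = d := rfl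
  have e1 : ({2} : Finset (Fin 4)).map τ.toEmbedding = insert a ∅ := by
    simp [τ2]
  have e2 : ({1, 2} : Finset (Fin 4)).map τ.toEmbedding = insert b (insert a ∅) := by
    simp [τ2, τ1]
  have e3 : ({0, 1, 2} : Finset (Fin 4)).map τ.toEmbedding = insert c (insert b (insert a ∅)) := by
    simp [τ2, τ1, τ0]
  have hback : ∀ Z : Finset (Fin 4), Z = (Z.map τ.symm.toEmbedding).map τ.toEmbedding := by
    intro Z
    ext i
    simp
  refine ⟨τ.symm, fun Z => ⟨fun hZ => ?_, fun hZ => ?_⟩⟩
  · -- Z is one of the five by cardinality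
    have hcase : ∀ Y ∈ K, Z.card = Y.card → Z = Y := by
      intro Y hY hcard
      rcases h1 Z hZ Y hY with h | h
      · exact Finset.eq_of_subset_of_card_le h hcard.ge
      · exact (Finset.eq_of_subset_of_card_le h hcard.le).symm
    have hmapinj : ∀ Y : Finset (Fin 4), Z = Y.map τ.toEmbedding →
        Z.map τ.symm.toEmbedding = Y := by
      intro Y h
      rw [h]; ext i; simp
    have hle : Z.card ≤ 4 := by
      have := Finset.card_le_univ Z
      simpa using this
    have : Z.card = 0 ∨ Z.card = 1 ∨ Z.card = 2 ∨ Z.card = 3 ∨ Z.card = 4 := by omega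
    rcases this with h | h | h | h | h
    · left
      rw [Finset.card_eq_zero.1 h]; rfl
    · right; left
      apply hmapinj
      rw [e1]
      apply hcase _ hA
      rw [h, Finset.card_insert_of_notMem ha]; rfl
    · right; right; left
      apply hmapinj
      rw [e2]
      apply hcase _ hB
      rw [h, cB]
    · right; right; right; left
      apply hmapinj
      rw [e3]
      apply hcase _ hC
      rw [h, cC]
    · right; right; right; right
      apply hmapinj
      have : Z = Finset.univ := Finset.eq_univ_of_card Z (by simpa using h)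
      rw [this]
      simp
  · rw [hback Z]
    rcases hZ with h | h | h | h | h
    · rw [h]; simpa using h0
    · rw [h, e1]; exact hA
    · rw [h, e2]; exact hB
    · rw [h, e3]; exact hC
    · rw [h]
      apply h2
      intro Z' _
      right
      intro i _
      simp

end Pool.Agent.Q293.TO
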