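import Pool.Agent.Q293.TO.Ar

/-! Finiteness. -/

namespace Pool.Agent.Q293.TO
open Pool.Agent.Q293.RT
open Set

theorem int_bound {a b : ℤ} {K L : ℝ} (h1 : |(a : ℝ) + b * ph| ≤ K) (h2 : |(a : ℝ) + b * ps| ≤ L) :
    |b| ≤ ⌈K + L⌉ ∧ |a| ≤ ⌈K + L⌉ + ⌈L⌉ := by
  have hp1 := ph_lo
  have hp2 := ph_hi
  have hb : |(b : ℝ)| ≤ K + L := by
    have e := diff_eq (a : ℝ) b
    have : |(b : ℝ)| * (2 * ph - 1) ≤ K + L := by
      rw [← abs_of_pos (show 0 < 2 * ph - 1 by linarith), ← abs_mul, ← e]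
      calc _ ≤ |(a : ℝ) + b * ph| + |(a : ℝ) + b * ps| := abs_sub _ _
        _ ≤ K + L := by linarith
    nlinarith [abs_nonneg (b : ℝ)]
  have hb' : |b| ≤ ⌈K + L⌉ := by
    have : ((|b| : ℤ) : ℝ) ≤ (⌈K + L⌉ : ℝ) := by
      push_cast
      exact hb.trans (Int.le_ceil _)
    exact_mod_cast this
  refine ⟨hb', ?_⟩
  have hps1 : |ps| ≤ 1 := by
    rw [ps_eq, abs_le]; constructor <;> linarith
  have ha : |(a : ℝ)| ≤ (⌈K + L⌉ : ℝ) + (⌈L⌉ : ℝ) := by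
    have e : (a : ℝ) = ((a : ℝ) + b * ps) - b * ps := by ring
    have hbr : |(b : ℝ)| ≤ (⌈K + L⌉ : ℝ) := hb.trans (Int.le_ceil _)
    rw [e]
    calc _ ≤ |(a : ℝ) + b * ps| + |b * ps| := abs_sub _ _
      _ ≤ L + |(b : ℝ)| * |ps| := by rw [abs_mul]; linarith
      _ ≤ (⌈L⌉ : ℝ) + (⌈K + L⌉ : ℝ) * 1 := by
        have := mul_le_mul hbr hps1 (abs_nonneg _) (le_trans (abs_nonneg _) hbr)
        linarith [Int.le_ceil L]
      _ = _ := by ring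
  exact_mod_cast ha

theorem fin_gen (κ R : ℝ) : {v : M | (∃ (a₀ b₀ : ℤ) (a b : Fin 3 → ℤ), Coord v a₀ b₀ a b ∧
    cform a₀ b₀ a b = κ) ∧ Fut v ∧ v.1 ≤ R}.Finite := by
  have hp : (0:ℝ) < ph := Real.goldenRatio_pos
  have hp1 := ph_lo
  have hp2 := ph_hi
  have hpse := ps_eq
  set L : ℝ := 2 * |κ| + 1 with hL
  set K : ℝ := (ph + 1) * (|R| + 1) with hK
  set N : ℤ := ⌈K + L⌉ + ⌈L⌉ with hN
  have hL0 : 1 ≤ L := by rw [hL]; linarith [abs_nonneg κ]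
  have hceilL : 0 ≤ ⌈L⌉ := by
    have : (0:ℝ) ≤ (⌈L⌉ : ℝ) := le_trans (by linarith) (Int.le_ceil L)
    exact_mod_cast this
  have hfin : (Set.Icc (-N) N ×ˢ Set.Icc (-N) N ×ˢ
      (Set.pi Set.univ fun _ : Fin 3 => Set.Icc (-N) N) ×ˢ
      (Set.pi Set.univ fun _ : Fin 3 => Set.Icc (-N) N)).Finite := by
    refine (Set.finite_Icc _ _).prod ((Set.finite_Icc _ _).prod (Set.Finite.prod ?_ ?_))
    · exact Set.Finite.pi fun _ => Set.finite_Icc _ _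
    · exact Set.Finite.pi fun _ => Set.finite_Icc _ _
  refine (hfin.image (fun p : ℤ × ℤ × (Fin 3 → ℤ) × (Fin 3 → ℤ) =>
    (((p.1 : ℝ) + p.2.1 * ph, WithLp.toLp 2 fun i => (p.2.2.1 i : ℝ) + p.2.2.2 i * ph) : M))).subset ?_
  rintro v ⟨⟨a₀, b₀, a, b, ⟨h0, h1⟩, hf⟩, ⟨hv0, hvB⟩, hR⟩
  have hRabs : v.1 ≤ |R| + 1 := by linarith [le_abs_self R]
  have hvK : |v.1| ≤ K := by
    rw [abs_of_pos hv0, hK]; nlinarith
  have hviK : ∀ i, |v.2 i| ≤ K := by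
    intro i
    have h2 : (v.2 i) ^ 2 ≤ ph * v.1 * v.1 := by
      unfold B at hvB
      have : v.2 i * v.2 i ≤ ∑ j, v.2 j * v.2 j :=
        Finset.single_le_sum (f := fun j => v.2 j * v.2 j) (fun j _ => mul_self_nonneg _)
          (Finset.mem_univ i)
      nlinarith
    have h3 : (v.2 i) ^ 2 ≤ ((ph + 1) * v.1) ^ 2 := by
      have : ((ph + 1) * v.1) ^ 2 = (ph ^ 2 + 2 * ph + 1) * (v.1 * v.1) := by ring
      rw [this]
      have : 0 < v.1 * v.1 := by positivity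
      nlinarith [sq_nonneg ph]
    have h4 : |v.2 i| ≤ (ph + 1) * v.1 := abs_le_of_sq_le_sq h3 (by positivity)
    refine h4.trans ?_
    rw [hK]
    exact mul_le_mul_of_nonneg_left hRabs (by positivity)
  -- conjugates
  unfold cform at hf
  have hsum0 : (0:ℝ) ≤ ∑ i, ((a i : ℝ) + b i * ps) ^ 2 := Finset.sum_nonneg fun i _ => sq_nonneg _
  have hps0 : 0.6 < -ps := by rw [hpse]; linarith
  have hκ := le_abs_self κ
  have hκ0 := abs_nonneg κ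
  have hLsq : 2 * |κ| ≤ L ^ 2 := by rw [hL]; nlinarith
  have hc0 : |(a₀ : ℝ) + b₀ * ps| ≤ L := by
    have h2 : ((a₀ : ℝ) + b₀ * ps) ^ 2 ≤ L ^ 2 := by
      have : -ps * ((a₀ : ℝ) + b₀ * ps) ^ 2 ≤ |κ| := by linarith
      nlinarith [sq_nonneg ((a₀ : ℝ) + b₀ * ps)]
    exact abs_le_of_sq_le_sq h2 (by linarith)
  have hci : ∀ i, |(a i : ℝ) + b i * ps| ≤ L := by
    intro i
    have : ((a i : ℝ) + b i * ps) ^ 2 ≤ ∑ j, ((a j : ℝ) + b j * ps) ^ 2 :=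
      Finset.single_le_sum (f := fun j => ((a j : ℝ) + b j * ps) ^ 2) (fun j _ => sq_nonneg _)
        (Finset.mem_univ i)
    have h3 : 0 ≤ -ps * ((a₀ : ℝ) + b₀ * ps) ^ 2 := by
      have := sq_nonneg ((a₀ : ℝ) + b₀ * ps)
      nlinarith
    have h2 : ((a i : ℝ) + b i * ps) ^ 2 ≤ L ^ 2 := by linarith
    exact abs_le_of_sq_le_sq h2 (by linarith)
  have hb0 := int_bound (K := K) (L := L) (by rw [← h0]; exact hvK) hc0
  have hbi := fun i => int_bound (K := K) (L := L) (by rw [← h1 i]; exact hviK i) (hci i)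
  refine ⟨(a₀, b₀, a, b), ⟨?_, ?_, ?_, ?_⟩, ?_⟩
  · have := abs_le.1 hb0.2
    exact ⟨by omega, by omega⟩
  · have := abs_le.1 hb0.1
    exact ⟨by show -N ≤ b₀; omega, by show b₀ ≤ N; omega⟩
  · intro i _
    have := abs_le.1 (hbi i).2
    exact ⟨by show -N ≤ a i; omega, by show a i ≤ N; omega⟩
  · intro i _
    have := abs_le.1 (hbi i).1
    exact ⟨by show -N ≤ b i; omega, by show b i ≤ N; omega⟩
  · ext i
    · exact h0.symm
    · exact (h1 i).symm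

end Pool.Agent.Q293.TO
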