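import Pool.Agent.Q293.TO.Fac
import Pool.Agent.Q293.RT.JPOL
import Pool.Agent.Q293.RT.JFNB
import Pool.Agent.Q293.RT.JTIL

/-! Flags of the tiling. -/

namespace Pool.Agent.Q293.TO
open Pool.Agent.Q293.RT
open Set Topology

/-- the face lattice -/
abbrev L2 : Type := FaceLat (d := 3) T2

theorem fnb : S_FNB := JFNB.main JPOL.main JFIT.main
theorem til : S_TIL := JTIL.main fnb

theorem tet_T2 : tet ∈ T2 := ⟨vs, vs_DD, tile_vs.symm⟩
theorem Q_T2 : tile DD u0 ∈ T2 := ⟨u0, u0_DD, rfl⟩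

/-- faces of the tetrahedron as faces of the tiling -/
def tfF (Z : Finset (Fin 4)) : L2 := ⟨tf Z, Or.inr (Or.inr ⟨tet, tet_T2, isFace_tf Z⟩)⟩

/-- the tile `Q` as a face of the tiling -/
def QF : L2 := ⟨tile DD u0, Or.inr (Or.inr ⟨tile DD u0, Q_T2, JTLG.convex_tile _ _,
  IsExtreme.refl _ _⟩)⟩

theorem tfF_le {Z Z' : Finset (Fin 4)} : tfF Z ≤ tfF Z' ↔ Z ⊆ Z' := tf_subset

theorem tfF_inj {Z Z' : Finset (Fin 4)} (h : tfF Z = tfF Z') : Z = Z' :=
  tf_inj (congrArg Subtype.val h)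

theorem below_tet {F : L2} (h : F.1 ⊆ tet) : ∃ Z, F = tfF Z := by
  obtain ⟨Z, hZ⟩ := face_tet ((JFIT.main T2 lfc tet tet_T2 F.1 F.2).1 h)
  exact ⟨Z, Subtype.ext hZ⟩

theorem above_tile {P : Set E} (hP : P ∈ T2) {F : L2} (h : P ⊆ F.1) : F.1 = P ∨ F.1 = univ :=
  (JFIT.main T2 lfc P hP F.1 F.2).2 h

theorem tile_ne_univ {P : Set E} (hP : P ∈ T2) : P ≠ univ := (fnb T2 lfc).2.2 P hP

/-- automorphisms -/
theorem augm {γ : M ≃ₗ[ℝ] M} (hγ : SymE γ) : ∃ (G : L2 ≃o L2) (g : E ≃ E),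
    (∀ F : L2, (G F).1 = g '' F.1) ∧ (∀ v ∈ DD, g '' tile DD v = tile DD (γ v)) ∧
    ∀ w, JACT.Sig DD w → g w.2 = (γ w).2 := by
  obtain ⟨G, g, h1, h2, h3⟩ := aug hγ
  refine ⟨G, g, h1, h2, ?_⟩
  intro w hw
  obtain ⟨u, hu, hB⟩ := hw.2
  have hmem : w.2 ∈ tile DD u := JACT.mem_of_sig pos_DD hu (t := w.1) (x := w.2) hw hB
  have hell : ell u w.2 = w.1 := (JACT.B_eq_iff (pos_DD u hu) w.1 w.2).1 hB
  rw [h3 u hu w.2 hmem, hell]

theorem sig_W (i : Fin 4) : JACT.Sig DD (W i) :=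
  ⟨vtx_le (pc_W i) (fut_W i), vs, vs_DD, B_Wvs i⟩

theorem sig_tet {x : E} (hx : x ∈ tet) : JACT.Sig DD (ph, x) := by
  rw [← tile_vs] at hx
  have := JACT.sig_of_mem pos_DD vs_DD hx
  rwa [Bas.ell_vs] at this

theorem sig_move {γ : M ≃ₗ[ℝ] M} (hγ : SymE γ) {w : M} (h : JACT.Sig DD w) :
    JACT.Sig DD (γ w) := JACT.sig_map hγ.1.form (DD_inv hγ) h

theorem lam_comb4 (j : Fin 4) (a : Fin 4 → ℝ) (h : a 0 + a 1 + a 2 + a 3 = 1) :
    lam j (a 0 • V 0 + a 1 • V 1 + a 2 • V 2 + a 3 • V 3) = a j := by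
  have hlin : lam j (a 0 • V 0 + a 1 • V 1 + a 2 • V 2 + a 3 • V 3) =
      a 0 * lam j (V 0) + a 1 * lam j (V 1) + a 2 * lam j (V 2) + a 3 * lam j (V 3) := by
    unfold lam
    simp only [PiLp.add_apply, PiLp.smul_apply, smul_eq_mul]
    linear_combination (-1/4) * h
  rw [hlin, lam_V, lam_V, lam_V, lam_V]
  fin_cases j <;> simp

theorem lam_act {γ : M ≃ₗ[ℝ] M} {σ : Equiv.Perm (Fin 4)} (hW : ∀ i, γ (W i) = W (σ i)) {g : E ≃ E}
    (hg : ∀ w, JACT.Sig DD w → g w.2 = (γ w).2) {x : E} (hx : x ∈ tet) (j : Fin 4) :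
    lam j (g x) = lam (σ.symm j) x := by
  have e : ((ph, x) : M) = lam 0 x • W 0 + lam 1 x • W 1 + lam 2 x • W 2 + lam 3 x • W 3 := by
    refine Prod.ext ?_ ?_
    · show ph = lam 0 x * ph + lam 1 x * ph + lam 2 x * ph + lam 3 x * ph
      linear_combination (-ph) * lam_sum x
    · exact recon x
  have h1 : g x = lam 0 x • V (σ 0) + lam 1 x • V (σ 1) + lam 2 x • V (σ 2) +
      lam 3 x • V (σ 3) := by
    have h2 := hg (ph, x) (sig_tet hx)
    have h3 : g x = (γ (ph, x)).2 := h2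
    rw [h3, e, map_add, map_add, map_add, map_smul, map_smul, map_smul, map_smul, hW, hW, hW, hW]
    rfl
  have h4 : lam 0 x • V (σ 0) + lam 1 x • V (σ 1) + lam 2 x • V (σ 2) + lam 3 x • V (σ 3) =
      ∑ i, lam (σ.symm i) x • V i := by
    rw [← Equiv.sum_comp σ]
    simp only [Equiv.symm_apply_apply]
    rw [Fin.sum_univ_four]
  rw [h1, h4, Fin.sum_univ_four]
  apply lam_comb4 j (fun i => lam (σ.symm i) x)
  have h5 : lam (σ.symm 0) x + lam (σ.symm 1) x + lam (σ.symm 2) x + lam (σ.symm 3) x =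
      ∑ i, lam (σ.symm i) x := by rw [Fin.sum_univ_four]
  show lam (σ.symm 0) x + lam (σ.symm 1) x + lam (σ.symm 2) x + lam (σ.symm 3) x = 1
  rw [h5, Equiv.sum_comp σ.symm (fun i => lam i x), Fin.sum_univ_four]
  exact lam_sum x

theorem img_tf {γ : M ≃ₗ[ℝ] M} {σ : Equiv.Perm (Fin 4)} (hvs : γ vs = vs)
    (hW : ∀ i, γ (W i) = W (σ i)) {g : E ≃ E} (ht : ∀ v ∈ DD, g '' tile DD v = tile DD (γ v))
    (hg : ∀ w, JACT.Sig DD w → g w.2 = (γ w).2) (Z : Finset (Fin 4)) :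
    g '' tf Z = tf (Z.map σ.toEmbedding) := by
  have htet : g '' tet = tet := by
    have := ht vs vs_DD
    rwa [hvs, tile_vs] at this
  have hmem : ∀ j, j ∉ Z.map σ.toEmbedding ↔ σ.symm j ∉ Z := by
    intro j
    rw [Finset.mem_map_equiv]
  apply Subset.antisymm
  · rintro _ ⟨x, hx, rfl⟩
    refine ⟨fun j => ?_, fun j hj => ?_⟩
    · rw [lam_act hW hg hx.1]; exact hx.1 _
    · rw [lam_act hW hg hx.1]; exact hx.2 _ ((hmem j).1 hj)
  · intro y hy
    have hyt : y ∈ g '' tet := by rw [htet]; exact hy.1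
    obtain ⟨x, hx, rfl⟩ := hyt
    refine ⟨x, ⟨hx, fun i hi => ?_⟩, rfl⟩
    have h1 := hy.2 (σ i) ((hmem _).2 (by rwa [σ.symm_apply_apply]))
    rwa [lam_act hW hg hx, σ.symm_apply_apply] at h1

/-- the first standard flag -/
def C1 : Set (Set E) := {S | S = univ ∨ ∃ Z ∈ K0, S = tf Z}

/-- the second standard flag -/
def C2 : Set (Set E) := {S | S = univ ∨ S = tile DD u0 ∨ ∃ Z ∈ K0, Z ≠ Finset.univ ∧ S = tf Z}

theorem univ_mem (Φ : Flag L2) {F : L2} (h : F.1 = univ) : F ∈ Φ := by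
  rw [Flag.mem_iff_forall_le_or_ge]
  intro F' _
  right
  show _ ⊆ F.1
  rw [h]; exact Set.subset_univ _

theorem empty_mem (Φ : Flag L2) {F : L2} (h : F.1 = ∅) : F ∈ Φ := by
  rw [Flag.mem_iff_forall_le_or_ge]
  intro F' _
  left
  show F.1 ⊆ _
  rw [h]; exact Set.empty_subset _

theorem img_univ {G : L2 ≃o L2} {g : E ≃ E} (h : ∀ F : L2, (G F).1 = g '' F.1) {F : L2} :
    (G F).1 = univ ↔ F.1 = univ := by
  rw [h]
  constructor
  · intro h'
    apply Set.eq_univ_of_forall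
    intro x
    have : g x ∈ g '' F.1 := by rw [h']; trivial
    obtain ⟨y, hy, hxy⟩ := this
    rwa [← g.injective hxy]
  · intro h'
    rw [h', Set.image_univ_of_surjective g.surjective]

theorem mov1 (Φ : Flag L2) (hT : tfF Finset.univ ∈ Φ) :
    ∃ G : L2 ≃o L2, ∀ F, F ∈ Φ ↔ (G F).1 ∈ C1 := by
  have hstr : ∀ F ∈ Φ, F.1 = univ ∨ ∃ Z, F = tfF Z := by
    intro F hF
    rcases Φ.le_or_le hF hT with h | h
    · right
      apply below_tet
      rw [← tf_univ]; exact h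
    · have h1 : tet ⊆ F.1 := by rw [← tf_univ]; exact h
      rcases above_tile tet_T2 h1 with h2 | h2
      · right; exact below_tet h2.subset
      · exact Or.inl h2
  obtain ⟨σ, hσ⟩ := chain4 {Z | tfF Z ∈ Φ}
    (by
      intro Z hZ Z' hZ'
      rcases Φ.le_or_le hZ hZ' with h | h
      · left; exact tfF_le.1 h
      · right; exact tfF_le.1 h)
    (by
      intro Z hZ
      show tfF Z ∈ Φ
      rw [Flag.mem_iff_forall_le_or_ge]
      intro F hF
      rcases hstr F hF with h | ⟨Z', rfl⟩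
      · left
        show _ ⊆ F.1
        rw [h]; exact Set.subset_univ _
      · rcases hZ Z' hF with h | h
        · left; exact tfF_le.2 h
        · right; exact tfF_le.2 h)
  obtain ⟨γ, hγ, hvs, hW⟩ := act4 σ
  obtain ⟨G, g, h1, h2, h3⟩ := augm hγ
  have himg := img_tf hvs hW h2 h3
  have htet : g '' tet = tet := by
    have := h2 vs vs_DD
    rwa [hvs, tile_vs] at this
  refine ⟨G, fun F => ⟨fun hF => ?_, fun hF => ?_⟩⟩
  · rcases hstr F hF with h | ⟨Z, rfl⟩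
    · left; exact (img_univ h1).2 h
    · right
      refine ⟨Z.map σ.toEmbedding, (hσ Z).1 hF, ?_⟩
      rw [h1]; exact himg Z
  · rcases hF with h | ⟨Z', hZ', h⟩
    · exact univ_mem Φ ((img_univ h1).1 h)
    · have hsub : F.1 ⊆ tet := by
        have h4 : g '' F.1 ⊆ g '' tet := by
          rw [← h1, h, htet]; exact fun x hx => hx.1
        exact (Set.image_subset_image_iff g.injective).1 h4
      obtain ⟨Z, rfl⟩ := below_tet hsub
      rw [h1] at h
      have h5 := tf_inj ((himg Z).symm.trans h)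
      exact (hσ Z).2 (by rw [h5]; exact hZ')

theorem V_Q {i : Fin 4} (hi : i ≠ 3) : V i ∈ tile DD u0 :=
  W_Q (γ := LinearEquiv.refl ℝ M) SymE.refl rfl hi

theorem V3_nQ : V 3 ∉ tile DD u0 := by
  intro h
  have hp := ph_lo
  have h1 : V 3 ∈ tile DD vs := by rw [tile_vs]; exact V_tet 3
  have h2 : ell u0 (V 3) = ell vs (V 3) := le_antisymm (h1 u0 u0_DD) (h vs vs_DD)
  have h3 := ell_u0 (V 3)
  rw [h2, Bas.ell_vs, V30, V31, V32] at h3
  have h4 : ph ^ 2 * ph = 2 * ph + 1 := by linear_combination (ph + 1) * phsq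
  linarith

theorem tf_sub_Q {Z : Finset (Fin 4)} : tf Z ⊆ tile DD u0 ↔ 3 ∉ Z := by
  constructor
  · intro h h3
    exact V3_nQ (h (V_mem_tf.2 h3))
  · intro h3 x hx
    have h0 : lam 3 x = 0 := hx.2 3 h3
    rw [recon x, h0]
    have hs := lam_sum x
    rw [h0] at hs
    have := comb4_mem (JTLG.convex_tile DD u0) (V_Q (i := 0) (by decide)) (V_Q (i := 1) (by decide))
      (V_Q (i := 2) (by decide)) (V_Q (i := 2) (by decide)) (hx.1 0) (hx.1 1) (hx.1 2) le_rfl hs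
    rw [zero_smul] at this ⊢
    exact this

theorem fin4_sub {Z : Finset (Fin 4)} (h : 3 ∉ Z) : Z ⊆ {0, 1, 2} := by
  intro i hi
  fin_cases i
  · simp
  · simp
  · simp
  · exact absurd hi h

theorem mov2' (Φ : Flag L2) (hQ : QF ∈ Φ) (hsub : ∀ F ∈ Φ, F < QF → F.1 ⊆ tet) :
    ∃ G : L2 ≃o L2, ∀ F, F ∈ Φ ↔ (G F).1 ∈ C2 := by
  have hstr : ∀ F ∈ Φ, F.1 = univ ∨ F = QF ∨ ∃ Z, F = tfF Z ∧ 3 ∉ Z := by
    intro F hF
    rcases Φ.le_or_le hF hQ with h | h
    · right
      rcases h.lt_or_eq with h | h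
      · right
        obtain ⟨Z, hZ⟩ := below_tet (hsub F hF h)
        refine ⟨Z, hZ, ?_⟩
        rw [← tf_sub_Q]
        have := h.le
        rw [hZ] at this
        exact this
      · left; exact h
    · rcases above_tile Q_T2 (show tile DD u0 ⊆ F.1 from h) with h2 | h2
      · right; left; exact Subtype.ext h2
      · exact Or.inl h2
  have hR : tfF {0, 1, 2} ∈ Φ := by
    rw [Flag.mem_iff_forall_le_or_ge]
    intro F hF
    rcases hstr F hF with h | rfl | ⟨Z', rfl, h3⟩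
    · left
      show _ ⊆ F.1
      rw [h]; exact Set.subset_univ _
    · left
      exact tf_sub_Q.2 (by decide)
    · right
      exact tfF_le.2 (fin4_sub h3)
  obtain ⟨σ, hσ⟩ := chain4 {Z | Z = Finset.univ ∨ tfF Z ∈ Φ}
    (by
      rintro Z (rfl | hZ) Z' (rfl | hZ')
      · left; exact Finset.Subset.refl _
      · right; exact Finset.subset_univ _
      · left; exact Finset.subset_univ _
      · rcases Φ.le_or_le hZ hZ' with h | h
        · left; exact tfF_le.1 h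
        · right; exact tfF_le.1 h)
    (by
      intro Z hZ
      by_cases hu : Z = Finset.univ
      · left; exact hu
      right
      show tfF Z ∈ Φ
      have h3 : 3 ∉ Z := by
        rcases hZ {0, 1, 2} (Or.inr hR) with h | h
        · intro h'
          have := h h'
          revert this; decide
        · intro h'
          apply hu
          ext i
          simp only [Finset.mem_univ, iff_true]
          fin_cases i
          · exact h (by decide)
          · exact h (by decide)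
          · exact h (by decide)
          · exact h'
      rw [Flag.mem_iff_forall_le_or_ge]
      intro F hF
      rcases hstr F hF with h | rfl | ⟨Z', rfl, h3'⟩
      · left
        show _ ⊆ F.1
        rw [h]; exact Set.subset_univ _
      · left; exact tf_sub_Q.2 h3
      · rcases hZ Z' (Or.inr hF) with h | h
        · left; exact tfF_le.2 h
        · right; exact tfF_le.2 h)
  have hσ3 : σ 3 = 3 := by
    have h1 := (hσ {0, 1, 2}).1 (Or.inr hR)
    have h2 : (({0, 1, 2} : Finset (Fin 4)).map σ.toEmbedding).card = 3 := by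
      rw [Finset.card_map]; rfl
    have h3 : ({0, 1, 2} : Finset (Fin 4)).map σ.toEmbedding = {0, 1, 2} := by
      rcases h1 with h | h | h | h | h <;> rw [h] at h2 ⊢ <;> exact absurd h2 (by decide)
    by_contra hcon
    have h4 : σ 3 ∈ ({0, 1, 2} : Finset (Fin 4)) := by
      revert hcon
      generalize σ 3 = k
      revert k
      decide
    rw [← h3, Finset.mem_map_equiv, σ.symm_apply_apply] at h4
    revert h4; decide
  obtain ⟨γ, hγ, hvs, hW⟩ := act4 σ
  have hw0 : γ w0 = w0 := by rw [act_w0 hvs hW, hσ3, ← w0_eq]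
  have hu0 : γ u0 = u0 := by unfold u0; rw [map_smul, hw0]
  obtain ⟨G, g, h1, h2, h3⟩ := augm hγ
  have himg := img_tf hvs hW h2 h3
  have htet : g '' tet = tet := by
    have := h2 vs vs_DD
    rwa [hvs, tile_vs] at this
  have hQQ : g '' tile DD u0 = tile DD u0 := by
    have := h2 u0 u0_DD
    rwa [hu0] at this
  have humap : ∀ Z : Finset (Fin 4), Z.map σ.toEmbedding = Finset.univ → Z = Finset.univ := by
    intro Z h
    apply Finset.eq_univ_of_card
    rw [← Finset.card_map σ.toEmbedding, h]; simp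
  refine ⟨G, fun F => ⟨fun hF => ?_, fun hF => ?_⟩⟩
  · rcases hstr F hF with h | rfl | ⟨Z, rfl, h3'⟩
    · left; exact (img_univ h1).2 h
    · right; left
      rw [h1]; exact hQQ
    · right; right
      refine ⟨Z.map σ.toEmbedding, (hσ Z).1 (Or.inr hF), ?_, ?_⟩
      · intro h
        apply h3'
        rw [humap Z h]; exact Finset.mem_univ _
      · rw [h1]; exact himg Z
  · rcases hF with h | h | ⟨Z', hZ', hZu, h⟩
    · exact univ_mem Φ ((img_univ h1).1 h)
    · have : F = QF := by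
        apply Subtype.ext
        show F.1 = tile DD u0
        rw [h1, ← hQQ] at h
        exact g.injective.image_injective h
      rw [this]; exact hQ
    · have hsub : F.1 ⊆ tet := by
        have h4 : g '' F.1 ⊆ g '' tet := by
          rw [← h1, h, htet]; exact fun x hx => hx.1
        exact (Set.image_subset_image_iff g.injective).1 h4
      obtain ⟨Z, rfl⟩ := below_tet hsub
      rw [h1] at h
      have h5 := tf_inj ((himg Z).symm.trans h)
      rcases (hσ Z).2 (by rw [h5]; exact hZ') with h6 | h6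
      · exfalso
        apply hZu
        rw [← h5, h6]; simp
      · exact h6

theorem mem_map {X Y : Type} [PartialOrder X] [PartialOrder Y] (e : X ≃o Y) (Ψ : Flag X) (x : X) :
      x ∈ Ψ ↔ e x ∈ Flag.map e Ψ := by
  constructor
  · intro hx; exact ⟨x, hx, rfl⟩
  · rintro ⟨x', hx', h'⟩
    rwa [← e.injective h']

theorem mov2 (Φ : Flag L2) (hQ : QF ∈ Φ) : ∃ G : L2 ≃o L2, ∀ F, F ∈ Φ ↔ (G F).1 ∈ C2 := by
  -- a neighbouring tetrahedron
  obtain ⟨v, hv, hvF⟩ : ∃ v ∈ Adj, ∀ F ∈ Φ, F < QF → F.1 ⊆ tile DD v := by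
    have hfin : {F : L2 | F ∈ Φ ∧ F < QF}.Finite :=
      ((fnb T2 lfc).1 QF (tile_ne_univ Q_T2)).subset fun F hF => hF.2.le
    have hbT : (∅ : Set E) ∈ Faces (d := 3) T2 := Or.inl rfl
    have hblt : (⟨∅, hbT⟩ : L2) < QF := by
      refine lt_of_le_of_ne (show (∅ : Set E) ⊆ _ from Set.empty_subset _) ?_
      intro h
      have : (∅ : Set E) = tile DD u0 := congrArg Subtype.val h
      have h2 := y0_Q
      rw [← this] at h2
      exact h2
    obtain ⟨F₁, ⟨hF₁, hF₁Q⟩, hmax⟩ := hfin.exists_maximal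
      ⟨⟨∅, hbT⟩, empty_mem Φ rfl, hblt⟩
    have hle : ∀ F ∈ Φ, F < QF → F ≤ F₁ := by
      intro F hF hlt
      rcases Φ.le_or_le hF hF₁ with h | h
      · exact h
      · exact hmax ⟨hF, hlt⟩ h
    by_cases hne : F₁.1 = ∅
    · refine ⟨vs, vs_Adj, fun F hF hlt => ?_⟩
      have : F.1 ⊆ F₁.1 := hle F hF hlt
      rw [hne] at this
      exact this.trans (Set.empty_subset _)
    · have hface := (JFIT.main T2 lfc _ Q_T2 F₁.1 F₁.2).1 hF₁Q.le
      obtain ⟨v, hv, h⟩ := face_Q hface (fun h => hF₁Q.ne (Subtype.ext h))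
        (Set.nonempty_iff_ne_empty.2 hne)
      exact ⟨v, hv, fun F hF hlt => (show F.1 ⊆ F₁.1 from hle F hF hlt).trans h⟩
  obtain ⟨γ, hγ, hw0, hγv⟩ := adj_char hv
  obtain ⟨G₁, g, h1, h2, -⟩ := augm hγ.symm
  have hw0' : γ.symm w0 = w0 := by
    rw [LinearEquiv.symm_apply_eq]; exact hw0.symm
  have hu0 : γ.symm u0 = u0 := by unfold u0; rw [map_smul, hw0']
  have hGQ : G₁ QF = QF := by
    apply Subtype.ext
    rw [h1]
    show g '' tile DD u0 = tile DD u0
    rw [h2 u0 u0_DD, hu0]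
  have hgv : g '' tile DD v = tet := by
    rw [h2 v (Adj_DD hv), ← hγv, γ.symm_apply_apply, tile_vs]
  obtain ⟨G₂, hG₂⟩ := mov2' (Flag.map G₁ Φ) (by rw [← hGQ]; exact (mem_map G₁ Φ QF).1 hQ)
    (by
      rintro F ⟨F', hF', rfl⟩ hlt
      have h3 : F' < QF := by
        rw [← hGQ] at hlt
        exact G₁.lt_iff_lt.1 hlt
      show (G₁ F').1 ⊆ tet
      rw [h1, ← hgv]
      exact Set.image_mono (hvF F' hF' h3))
  refine ⟨G₁.trans G₂, fun F => ?_⟩
  rw [mem_map G₁ Φ F, hG₂ (G₁ F)]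
  rfl

/-- every flag can be moved to one of the two standard flags -/
theorem mov (Φ : Flag L2) : (∃ G : L2 ≃o L2, ∀ F, F ∈ Φ ↔ (G F).1 ∈ C1) ∨
    ∃ G : L2 ≃o L2, ∀ F, F ∈ Φ ↔ (G F).1 ∈ C2 := by
  obtain ⟨F, hF, v, hv, hFv⟩ := til T2 lfc Φ
  rcases hv with ⟨γ, hγ, rfl⟩ | ⟨γ, hγ, rfl⟩
  · left
    obtain ⟨G₁, g, h1, h2, -⟩ := augm hγ.symm
    have hc : G₁ F = tfF Finset.univ := by
      apply Subtype.ext
      rw [h1, hFv, h2 _ ((DD_inv hγ _).1 vs_DD), γ.symm_apply_apply, tile_vs]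
      exact tf_univ.symm
    obtain ⟨G₂, hG₂⟩ := mov1 (Flag.map G₁ Φ) (by rw [← hc]; exact (mem_map G₁ Φ F).1 hF)
    refine ⟨G₁.trans G₂, fun F' => ?_⟩
    rw [mem_map G₁ Φ F', hG₂ (G₁ F')]
    rfl
  · right
    obtain ⟨G₁, g, h1, h2, -⟩ := augm hγ.symm
    have hc : G₁ F = QF := by
      apply Subtype.ext
      rw [h1, hFv, h2 _ ((DD_inv hγ _).1 u0_DD), γ.symm_apply_apply]
      rfl
    obtain ⟨G₂, hG₂⟩ := mov2 (Flag.map G₁ Φ) (by rw [← hc]; exact (mem_map G₁ Φ F).1 hF)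
    refine ⟨G₁.trans G₂, fun F' => ?_⟩
    rw [mem_map G₁ Φ F', hG₂ (G₁ F')]
    rfl

end Pool.Agent.Q293.TO
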