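import Pool.Agent.Q293.RT.JFVE

/-! The metric contradiction. -/

namespace Pool.Agent.Q293.TO
open Pool.Agent.Q293.RT
open Set Module

theorem nx (p a x : E) (r : ℝ) (h1 : dist p a = r) (h2 : dist p x = r) (h3 : dist a x = r) :
    inner ℝ (a - p) (x - (1/2 : ℝ) • (p + a)) = 0 ∧
    inner ℝ (x - (1/2 : ℝ) • (p + a)) (x - (1/2 : ℝ) • (p + a)) = 3 / 4 * r ^ 2 := by
  set u := a - p with hu
  set n := x - (1/2 : ℝ) • (p + a) with hn
  have e1 : x - p = n + (1/2 : ℝ) • u := by rw [hn, hu]; module
  have e2 : x - a = n - (1/2 : ℝ) • u := by rw [hn, hu]; module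
  have k1 : inner ℝ u u = r ^ 2 := by
    rw [real_inner_self_eq_norm_sq, hu, ← dist_eq_norm, dist_comm, h1]
  have k2 : inner ℝ (x - p) (x - p) = r ^ 2 := by
    rw [real_inner_self_eq_norm_sq, ← dist_eq_norm, dist_comm, h2]
  have k3 : inner ℝ (x - a) (x - a) = r ^ 2 := by
    rw [real_inner_self_eq_norm_sq, ← dist_eq_norm, dist_comm, h3]
  rw [e1] at k2
  rw [e2] at k3
  simp only [inner_add_left, inner_add_right, inner_sub_left, inner_sub_right,
    real_inner_smul_left, real_inner_smul_right] at k2 k3
  rw [real_inner_comm u n] at k2 k3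
  constructor <;> linarith

theorem dist_n (x y m : E) (d : ℝ) (h : dist x y = d) :
    inner ℝ (x - m) (x - m) + inner ℝ (y - m) (y - m) - 2 * inner ℝ (x - m) (y - m) = d ^ 2 := by
  have e : x - y = (x - m) - (y - m) := by abel
  have k : inner ℝ (x - y) (x - y) = d ^ 2 := by
    rw [real_inner_self_eq_norm_sq, ← dist_eq_norm, h]
  rw [e] at k
  simp only [inner_sub_left, inner_sub_right] at k ⊢
  linarith [real_inner_comm x y, real_inner_comm x m, real_inner_comm y m]

theorem geo1 (p a b c b' c' : E) (r κ : ℝ) (hr : 0 < r)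
    (pa : dist p a = r) (pb : dist p b = r) (pc : dist p c = r) (pb' : dist p b' = r)
    (pc' : dist p c' = r) (ab : dist a b = r) (ac : dist a c = r) (ab' : dist a b' = r)
    (ac' : dist a c' = r) (bc : dist b c = r) (bc'' : dist b' c' = r)
    (bb' : dist b b' = κ) (cc' : dist c c' = κ) (bc' : dist b c' = dist c b')
    (nbb : b ≠ b') (ncb : c ≠ b') : κ ^ 2 = 2 * r ^ 2 ∨ κ ^ 2 = 3 * r ^ 2 := by
  set m := (1/2 : ℝ) • (p + a) with hm
  set u := a - p with hu
  obtain ⟨ub, nb⟩ := nx p a b r pa pb ab
  obtain ⟨uc, nc⟩ := nx p a c r pa pc ac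
  obtain ⟨ub', nb'⟩ := nx p a b' r pa pb' ab'
  obtain ⟨uc', nc'⟩ := nx p a c' r pa pc' ac'
  have d1 := dist_n b c m r bc
  have d2 := dist_n b' c' m r bc''
  have d3 := dist_n b b' m κ bb'
  have d4 := dist_n c c' m κ cc'
  have d5 := dist_n b c' m _ bc'
  have d6 := dist_n c b' m _ rfl
  have hbne : b - m ≠ b' - m := fun h => nbb (sub_left_injective h)
  have hcne : c - m ≠ b' - m := fun h => ncb (sub_left_injective h)
  rw [← hm, ← hu] at ub uc ub' uc'
  rw [← hm] at nb nc nb' nc'
  have hu0 : u ≠ 0 := by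
    intro h
    rw [hu, sub_eq_zero] at h
    rw [h, dist_self] at pa
    exact hr.ne pa
  generalize b - m = B at *
  generalize c - m = C at *
  generalize b' - m = B' at *
  generalize c' - m = C' at *
  have cBC : inner ℝ C B = inner ℝ B C := real_inner_comm _ _
  have cBB' : inner ℝ B' B = inner ℝ B B' := real_inner_comm _ _
  have cBC' : inner ℝ C' B = inner ℝ B C' := real_inner_comm _ _
  have cCB' : inner ℝ B' C = inner ℝ C B' := real_inner_comm _ _
  have cCC' : inner ℝ C' C = inner ℝ C C' := real_inner_comm _ _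
  have cBC'' : inner ℝ C' B' = inner ℝ B' C' := real_inner_comm _ _
  have hBC : B ≠ C := by
    intro h
    rw [h, nc] at d1
    have : 0 < r ^ 2 := by positivity
    linarith
  -- the sum vanishes
  have hs : B + C + B' + C' = 0 := by
    by_contra hs0
    set s := B + C + B' + C' with hs
    have hus : inner ℝ u s = 0 := by
      rw [hs, inner_add_right, inner_add_right, inner_add_right, ub, uc, ub', uc']; ring
    have hss : 0 < inner ℝ s s := real_inner_self_pos.2 hs0
    -- products with s
    have sB : inner ℝ s B = 3 / 4 * r ^ 2 + inner ℝ B C + inner ℝ B B' + inner ℝ B C' := by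
      rw [hs, inner_add_left, inner_add_left, inner_add_left, nb]; linarith
    have sC : inner ℝ s C = inner ℝ s B := by
      rw [sB, hs, inner_add_left, inner_add_left, inner_add_left, nc]; linarith
    have sB' : inner ℝ s B' = inner ℝ s B := by
      rw [sB, hs, inner_add_left, inner_add_left, inner_add_left, nb']; linarith
    set τ := inner ℝ s B / inner ℝ s s with hτ
    have hτs : τ * inner ℝ s s = inner ℝ s B := div_mul_cancel₀ _ hss.ne'
    have perp : ∀ X, inner ℝ s X = inner ℝ s B → inner ℝ s (X - τ • s) = 0 := by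
      intro X hX
      rw [inner_sub_right, real_inner_smul_right, hX, hτs]; ring
    have perpu : ∀ X, inner ℝ u X = 0 → inner ℝ u (X - τ • s) = 0 := by
      intro X hX
      rw [inner_sub_right, real_inner_smul_right, hX, hus]; ring
    have nrm : ∀ X, inner ℝ s X = inner ℝ s B → inner ℝ X X = 3 / 4 * r ^ 2 →
        ‖X - τ • s‖ = ‖B - τ • s‖ := by
      intro X hX hXX
      have h1 : ‖X - τ • s‖ ^ 2 = ‖B - τ • s‖ ^ 2 := by
        rw [← real_inner_self_eq_norm_sq, ← real_inner_self_eq_norm_sq]
        simp only [inner_sub_left, inner_sub_right, real_inner_smul_left, real_inner_smul_right]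
        rw [real_inner_comm s X, real_inner_comm s B, hX, hXX, nb]
      exact (sq_eq_sq₀ (norm_nonneg _) (norm_nonneg _)).1 h1
    have e1 : C - τ • s = -(B - τ • s) := by
      rcases JFVE.pm hu0 hs0 hus (perpu B ub) (perpu C uc) (perp B rfl) (perp C sC)
        (nrm C sC nc).symm with h | h
      · exact absurd (sub_left_injective h).symm hBC
      · exact h
    have e2 : B' - τ • s = -(B - τ • s) := by
      rcases JFVE.pm hu0 hs0 hus (perpu B ub) (perpu B' ub') (perp B rfl) (perp B' sB')
        (nrm B' sB' nb').symm with h | h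
      · exact absurd (sub_left_injective h).symm hbne
      · exact h
    exact hcne (sub_left_injective (e1.trans e2.symm))
  by_cases hq : B + B' = 0
  · right
    have : B' = -B := by rw [eq_neg_iff_add_eq_zero, add_comm]; exact hq
    rw [this, inner_neg_right, inner_neg_left, nb] at d3
    rw [inner_neg_right, nb] at d3
    linarith
  · have hCC : C + C' = -(B + B') := by
      rw [eq_neg_iff_add_eq_zero]
      rw [← hs]; abel
    have q1 : inner ℝ (B + B') (B - B') = 0 := by
      rw [inner_add_left, inner_sub_right, inner_sub_right, nb, nb']; linarith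
    have q2 : inner ℝ (B + B') (C - C') = 0 := by
      have : inner ℝ (C + C') (C - C') = 0 := by
        rw [inner_add_left, inner_sub_right, inner_sub_right, nc, nc']; linarith
      rw [hCC, inner_neg_left] at this
      linarith
    have huq : inner ℝ u (B + B') = 0 := by rw [inner_add_right, ub, ub']; ring
    have u1 : inner ℝ u (B - B') = 0 := by rw [inner_sub_right, ub, ub']; ring
    have u2 : inner ℝ u (C - C') = 0 := by rw [inner_sub_right, uc, uc']; ring
    have hn : ‖B - B'‖ = ‖C - C'‖ := by
      have h1 : ‖B - B'‖ ^ 2 = ‖C - C'‖ ^ 2 := by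
        rw [← real_inner_self_eq_norm_sq, ← real_inner_self_eq_norm_sq]
        simp only [inner_sub_left, inner_sub_right]
        linarith
      exact (sq_eq_sq₀ (norm_nonneg _) (norm_nonneg _)).1 h1
    rcases JFVE.pm hu0 hq huq u1 u2 q1 q2 hn with h | h
    · left
      -- C = - B'
      have hC : B' = -C := by
        have h2 : (2:ℝ) • B' = -((2:ℝ) • C) := by
          have e1 : (2:ℝ) • C = (C + C') + (C - C') := by module
          rw [e1, hCC, h]; module
        have h3 : (2:ℝ) • B' = (2:ℝ) • (-C) := by rw [h2, smul_neg]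
        exact smul_right_injective E (two_ne_zero (α := ℝ)) h3
      rw [hC, inner_neg_right, inner_neg_left, inner_neg_right, nb, nc] at d3
      rw [nb, nc] at d1
      linarith
    · exfalso
      have hC : C = -B := by
        have h2 : (2:ℝ) • C = (2:ℝ) • (-B) := by
          have e1 : (2:ℝ) • C = (C + C') + (C - C') := by module
          rw [e1, hCC, h]; module
        exact smul_right_injective E (two_ne_zero (α := ℝ)) h2
      rw [hC, inner_neg_right, inner_neg_left, inner_neg_right, nb] at d1
      have : 0 < r ^ 2 := by positivity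
      linarith

theorem inner_of_dist (p x y : E) (r d : ℝ) (hx : dist p x = r) (hy : dist p y = r)
    (hxy : dist x y = d) : inner ℝ (x - p) (y - p) = r ^ 2 - d ^ 2 / 2 := by
  have h := dist_n x y p d hxy
  rw [real_inner_self_eq_norm_sq, real_inner_self_eq_norm_sq, ← dist_eq_norm, ← dist_eq_norm,
    dist_comm x p, dist_comm y p, hx, hy] at h
  linarith

theorem geo2 (p a b b' f : E) (r κ : ℝ) (hr : 0 < r)
    (pa : dist p a = r) (pb : dist p b = r) (pb' : dist p b' = r) (pf : dist p f = r)
    (ba : dist b a = r) (ab' : dist a b' = r) (b'f : dist b' f = r)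
    (bb' : dist b b' = κ) (af : dist a f = κ) (bf : dist b f = κ)
    (hκ : κ ^ 2 = 2 * r ^ 2 ∨ κ ^ 2 = 3 * r ^ 2) : False := by
  have hr2 : 0 < r ^ 2 := by positivity
  have i12 := inner_of_dist p b a r r pb pa ba
  have i13 := inner_of_dist p b b' r κ pb pb' bb'
  have i14 := inner_of_dist p b f r κ pb pf bf
  have i23 := inner_of_dist p a b' r r pa pb' ab'
  have i24 := inner_of_dist p a f r κ pa pf af
  have i34 := inner_of_dist p b' f r r pb' pf b'f
  have self : ∀ x, dist p x = r → inner ℝ (x - p) (x - p) = r ^ 2 := by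
    intro x hx
    rw [real_inner_self_eq_norm_sq, ← dist_eq_norm, dist_comm, hx]
  have i11 := self b pb
  have i22 := self a pa
  have i33 := self b' pb'
  have i44 := self f pf
  have hdep : ¬ LinearIndependent ℝ ![b - p, a - p, b' - p, f - p] := by
    intro h
    have := h.fintype_card_le_finrank
    simp at this
  rw [Fintype.not_linearIndependent_iff] at hdep
  obtain ⟨g, hg, i, hi⟩ := hdep
  have hsum : g 0 • (b - p) + g 1 • (a - p) + g 2 • (b' - p) + g 3 • (f - p) = 0 := by
    simpa [Fin.sum_univ_four] using hg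
  have eq : ∀ z : E, g 0 * inner ℝ z (b - p) + g 1 * inner ℝ z (a - p) + g 2 * inner ℝ z (b' - p) +
      g 3 * inner ℝ z (f - p) = 0 := by
    intro z
    have h1 : inner ℝ z (g 0 • (b - p) + g 1 • (a - p) + g 2 • (b' - p) + g 3 • (f - p)) = 0 := by
      rw [hsum, inner_zero_right]
    rw [inner_add_right, inner_add_right, inner_add_right, real_inner_smul_right,
      real_inner_smul_right, real_inner_smul_right, real_inner_smul_right] at h1
    exact h1
  have e1 := eq (b - p)
  have e2 := eq (a - p)
  have e3 := eq (b' - p)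
  have e4 := eq (f - p)
  rw [real_inner_comm (b - p) (a - p)] at e2
  rw [real_inner_comm (b - p) (b' - p), real_inner_comm (a - p) (b' - p)] at e3
  rw [real_inner_comm (b - p) (f - p), real_inner_comm (a - p) (f - p),
    real_inner_comm (b' - p) (f - p)] at e4
  rw [i11, i12, i13, i14] at e1
  rw [i12, i22, i23, i24] at e2
  rw [i13, i23, i33, i34] at e3
  rw [i14, i24, i34, i44] at e4
  have hz : g 0 = 0 ∧ g 1 = 0 ∧ g 2 = 0 ∧ g 3 = 0 := by
    rcases hκ with h | h
    · rw [h] at e1 e2 e3 e4
      have f1 : r ^ 2 * (g 0 + g 1 / 2) = 0 := by linear_combination e1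
      have f2 : r ^ 2 * (g 0 / 2 + g 1 + g 2 / 2) = 0 := by linear_combination e2
      have f3 : r ^ 2 * (g 1 / 2 + g 2 + g 3 / 2) = 0 := by linear_combination e3
      have f4 : r ^ 2 * (g 2 / 2 + g 3) = 0 := by linear_combination e4
      have g1 := (mul_eq_zero.1 f1).resolve_left hr2.ne'
      have g2 := (mul_eq_zero.1 f2).resolve_left hr2.ne'
      have g3 := (mul_eq_zero.1 f3).resolve_left hr2.ne'
      have g4 := (mul_eq_zero.1 f4).resolve_left hr2.ne'
      refine ⟨?_, ?_, ?_, ?_⟩ <;> linarith
    · rw [h] at e1 e2 e3 e4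
      have f1 : r ^ 2 * (g 0 + g 1 / 2 - g 2 / 2 - g 3 / 2) = 0 := by linear_combination e1
      have f2 : r ^ 2 * (g 0 / 2 + g 1 + g 2 / 2 - g 3 / 2) = 0 := by linear_combination e2
      have f3 : r ^ 2 * (-g 0 / 2 + g 1 / 2 + g 2 + g 3 / 2) = 0 := by linear_combination e3
      have f4 : r ^ 2 * (-g 0 / 2 - g 1 / 2 + g 2 / 2 + g 3) = 0 := by linear_combination e4
      have g1 := (mul_eq_zero.1 f1).resolve_left hr2.ne'
      have g2 := (mul_eq_zero.1 f2).resolve_left hr2.ne'
      have g3 := (mul_eq_zero.1 f3).resolve_left hr2.ne'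
      have g4 := (mul_eq_zero.1 f4).resolve_left hr2.ne'
      refine ⟨?_, ?_, ?_, ?_⟩ <;> linarith
  obtain ⟨z0, z1, z2, z3⟩ := hz
  fin_cases i
  · exact hi z0
  · exact hi z1
  · exact hi z2
  · exact hi z3

end Pool.Agent.Q293.TO
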