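import Pool.Agent.Q293.TO.Defs
import Pool.Agent.Q293.RT.Stm
import Pool.Agent.Q293.RT.JGS
import Pool.Agent.Q293.RT.JGP
import Pool.Agent.Q293.RT.JF1
import Pool.Agent.Q293.RT.JF3

/-! The group and the arithmetic of the alternated honeycomb. -/

namespace Pool.Agent.Q293.TO
open Pool.Agent.Q293.RT
open Set

/-- Arithmetic type of the vertices of class `c` (`c = 0` or `1`). -/
def PC (c : ℤ) (y : M) : Prop := ∃ (A B : ℤ) (X Y : Fin 3 → ℤ),
  Coord y (2 * A) (2 * B + 1) (fun i => 2 * X i + 1) (fun i => 2 * Y i) ∧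
  cform (2 * A) (2 * B + 1) (fun i => 2 * X i + 1) (fun i => 2 * Y i) = 2 - 2 * ps ∧
  Even (A + B + (X 0 + X 1 + X 2) + c) ∧ Even (A + (Y 0 + Y 1 + Y 2))

theorem PC.pw {c : ℤ} {y : M} (h : PC c y) : PW y := by
  obtain ⟨A, B', X, Y, h1, h2, -, -⟩ := h
  refine ⟨_, _, _, _, h1, h2, ⟨A, by ring⟩, ⟨B', by ring⟩, fun i => ⟨⟨X i, by ring⟩, ⟨Y i, by ring⟩⟩⟩

/-- Invariance properties. -/
structure PreE (γ : M ≃ₗ[ℝ] M) : Prop where
  form : ∀ y z : M, B (γ y) (γ z) = B y z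
  fut : ∀ y, Fut y → Fut (γ y)
  pv : ∀ y, PV y → PV (γ y)
  pc : ∀ c y, PC c y → PC c (γ y)

/-- The symmetries preserving the classes. -/
def SymE (γ : M ≃ₗ[ℝ] M) : Prop := PreE γ ∧ PreE γ.symm

theorem SymE.refl : SymE (LinearEquiv.refl ℝ M) :=
  ⟨⟨fun _ _ => rfl, fun _ h => h, fun _ h => h, fun _ _ h => h⟩,
    ⟨fun _ _ => rfl, fun _ h => h, fun _ h => h, fun _ _ h => h⟩⟩

theorem SymE.symm {γ : M ≃ₗ[ℝ] M} (h : SymE γ) : SymE γ.symm := ⟨h.2, h.1⟩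

theorem PreE.trans {γ δ : M ≃ₗ[ℝ] M} (h : PreE γ) (k : PreE δ) : PreE (γ.trans δ) :=
  ⟨fun y z => (k.form _ _).trans (h.form _ _), fun _ hy => k.fut _ (h.fut _ hy),
    fun _ hy => k.pv _ (h.pv _ hy), fun _ _ hy => k.pc _ _ (h.pc _ _ hy)⟩

theorem SymE.trans {γ δ : M ≃ₗ[ℝ] M} (h : SymE γ) (k : SymE δ) : SymE (γ.trans δ) :=
  ⟨h.1.trans k.1, k.2.trans h.2⟩

/-! ### the reflection -/

open JGS in
theorem pc_sl (c : ℤ) (y : M) (h : PC c y) : PC c (sl y) := by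
  obtain ⟨A, B', X, Y, h1, h2, h3, h4⟩ := h
  have k1 := coord_sl h1
  have k2 := cform_sl (2 * A) (2 * B' + 1) (fun i => 2 * X i + 1) (fun i => 2 * Y i)
  have e1 : (2 * B' + 1) - (2 * X 0 + 1) = 2 * (B' - X 0) := by ring
  have e2 : 2 * A + (2 * B' + 1) - 2 * Y 0 = 2 * (A + B' - Y 0) + 1 := by ring
  have e3 : (![2 * B' + 1 - 2 * Y 0, 2 * X 1 + 1, 2 * X 2 + 1] : Fin 3 → ℤ) =
      fun i => 2 * (![B' - Y 0, X 1, X 2] : Fin 3 → ℤ) i + 1 := by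
    funext i; fin_cases i
    · simp; ring
    · rfl
    · rfl
  have e4 : (![2 * A + (2 * B' + 1) - (2 * X 0 + 1) - 2 * Y 0, 2 * Y 1, 2 * Y 2] : Fin 3 → ℤ) =
      fun i => 2 * (![A + B' - X 0 - Y 0, Y 1, Y 2] : Fin 3 → ℤ) i := by
    funext i; fin_cases i
    · simp; ring
    · rfl
    · rfl
  rw [e1, e2, e3, e4] at k1 k2
  refine ⟨_, _, _, _, k1, k2.trans h2, ?_, ?_⟩
  · simp only [Matrix.cons_val_zero, Matrix.cons_val_one, Matrix.cons_val_two, Matrix.tail_cons,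
      Matrix.head_cons]
    have : B' - X 0 + (A + B' - Y 0) + (B' - Y 0 + X 1 + X 2) + c =
        (A + B' + (X 0 + X 1 + X 2) + c) + 2 * (B' - X 0 - Y 0) := by ring
    rw [this]
    exact h3.add (even_two_mul _)
  · simp only [Matrix.cons_val_zero, Matrix.cons_val_one, Matrix.cons_val_two, Matrix.tail_cons,
      Matrix.head_cons]
    have : B' - X 0 + (A + B' - X 0 - Y 0 + Y 1 + Y 2) =
        (A + (Y 0 + Y 1 + Y 2)) + 2 * (B' - X 0 - Y 0) := by ring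
    rw [this]
    exact h4.add (even_two_mul _)

theorem preE_sl {γ : M ≃ₗ[ℝ] M} (h : ∀ y, γ y = JGS.sl y) : PreE γ := by
  have hp := JGS.pre_sl h
  refine ⟨hp.form, hp.fut, hp.pv, ?_⟩
  intro c y hy
  rw [h]; exact pc_sl c y hy

theorem gs : ∃ γ : M ≃ₗ[ℝ] M, SymE γ ∧ ∀ y : M, (γ y).1 = ph * y.1 - y.2 0 ∧
    (γ y).2 0 = ph * y.1 - ph * y.2 0 ∧ (γ y).2 1 = y.2 1 ∧ (γ y).2 2 = y.2 2 := by
  let γ : M ≃ₗ[ℝ] M := LinearEquiv.ofInvolutive JGS.sl JGS.sl_inv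
  have h : ∀ y, γ y = JGS.sl y := fun _ => rfl
  have h' : ∀ y, γ.symm y = JGS.sl y := fun _ => rfl
  refine ⟨γ, ⟨preE_sl h, preE_sl h'⟩, ?_⟩
  intro y
  rw [h]
  exact JGS.sl_apply y

/-! ### signed permutations with an even number of signs -/

theorem sum_perm (σ : Equiv.Perm (Fin 3)) (f : Fin 3 → ℤ) :
    f (σ 0) + f (σ 1) + f (σ 2) = f 0 + f 1 + f 2 := by
  have := Equiv.sum_comp σ f
  rw [Fin.sum_univ_three, Fin.sum_univ_three] at this
  exact this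

/-- number of minus signs -/
def neg (s : SignType) : ℤ := if s = -1 then 1 else 0

theorem sign_cases {s : SignType} (h : s ≠ 0) : s = 1 ∨ s = -1 := by
  revert h; revert s; decide

theorem pc_pl (σ : Equiv.Perm (Fin 3)) (e : Fin 3 → SignType) (he : ∀ i, e i ≠ 0)
    (hprod : e 0 * e 1 * e 2 = 1) (c : ℤ) (y : M) (h : PC c y) : PC c (JGP.pl σ e y) := by
  obtain ⟨A, B', X, Y, h1, h2, h3, h4⟩ := h
  have k1 := JGP.coord_pl σ e h1
  have k2 := JGP.cform_pl σ e he (2 * A) (2 * B' + 1) (fun i => 2 * X i + 1) (fun i => 2 * Y i)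
  -- new X, Y
  have e3 : (fun i => (e i : ℤ) * (2 * X (σ i) + 1)) =
      fun i => 2 * ((e i : ℤ) * X (σ i) - neg (e i)) + 1 := by
    funext i
    rcases sign_cases (he i) with h | h <;> rw [h] <;> simp [neg] <;> ring
  have e4 : (fun i => (e i : ℤ) * (2 * Y (σ i))) = fun i => 2 * ((e i : ℤ) * Y (σ i)) := by
    funext i; ring
  rw [e3, e4] at k1 k2
  refine ⟨_, _, _, _, k1, k2.trans h2, ?_, ?_⟩
  · have key : ∀ i, Even (((e i : ℤ) * X (σ i) - neg (e i)) - (X (σ i) + neg (e i))) := by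
      intro i
      rcases sign_cases (he i) with h | h <;> rw [h] <;> simp [neg]
      exact ⟨-X (σ i) - 1, by ring⟩
    have hneg : Even (neg (e 0) + neg (e 1) + neg (e 2)) := by
      rcases sign_cases (he 0) with h0 | h0 <;> rcases sign_cases (he 1) with h1' | h1' <;>
        rcases sign_cases (he 2) with h2' | h2' <;> rw [h0, h1', h2'] at hprod ⊢ <;>
        first
        | exact absurd hprod (by decide)
        | (simp [neg]) 
    have hs := sum_perm σ X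
    obtain ⟨k, hk⟩ := h3
    obtain ⟨k0, hk0⟩ := key 0
    obtain ⟨k1', hk1⟩ := key 1
    obtain ⟨k2', hk2⟩ := key 2
    obtain ⟨k3, hk3⟩ := hneg
    refine ⟨k + k0 + k1' + k2' + k3, ?_⟩
    linarith
  · have key : ∀ i, Even (((e i : ℤ) * Y (σ i)) - Y (σ i)) := by
      intro i
      rcases sign_cases (he i) with h | h <;> rw [h] <;> simp
      exact ⟨-Y (σ i), by ring⟩
    have hs := sum_perm σ Y
    obtain ⟨k, hk⟩ := h4
    obtain ⟨k0, hk0⟩ := key 0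
    obtain ⟨k1', hk1⟩ := key 1
    obtain ⟨k2', hk2⟩ := key 2
    refine ⟨k + k0 + k1' + k2', ?_⟩
    linarith

theorem preE_pl (σ : Equiv.Perm (Fin 3)) (e : Fin 3 → SignType) (he : ∀ i, e i ≠ 0)
    (hprod : e 0 * e 1 * e 2 = 1) {γ : M ≃ₗ[ℝ] M} (h : ∀ y, γ y = JGP.pl σ e y) : PreE γ := by
  have hp := JGP.pre_pl σ e he h
  refine ⟨hp.form, hp.fut, hp.pv, ?_⟩
  intro c y hy
  rw [h]; exact pc_pl σ e he hprod c y hy

theorem gp (σ : Equiv.Perm (Fin 3)) (e : Fin 3 → SignType) (he : ∀ i, e i ≠ 0)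
    (hprod : e 0 * e 1 * e 2 = 1) :
    ∃ γ : M ≃ₗ[ℝ] M, SymE γ ∧ ∀ y : M, (γ y).1 = y.1 ∧ ∀ i, (γ y).2 i = (e i : ℝ) * y.2 (σ i) := by
  let γ : M ≃ₗ[ℝ] M := LinearEquiv.ofLinearMap (JGP.pl σ e)
    (JGP.pl σ.symm (fun i => e (σ.symm i)))
    (LinearMap.ext fun y => JGP.pl_comp σ e he y) (LinearMap.ext fun y => JGP.pl_comp' σ e he y)
  have h : ∀ y, γ y = JGP.pl σ e y := fun _ => rfl
  have h' : ∀ y, γ.symm y = JGP.pl σ.symm (fun i => e (σ.symm i)) y := fun _ => rfl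
  have hprod' : e (σ.symm 0) * e (σ.symm 1) * e (σ.symm 2) = 1 := by
    have := Equiv.prod_comp σ.symm e
    rw [Fin.prod_univ_three, Fin.prod_univ_three] at this
    rw [this]; exact hprod
  refine ⟨γ, ⟨preE_pl σ e he hprod h, preE_pl _ _ (fun i => he _) hprod' h'⟩, ?_⟩
  intro y
  rw [h]
  exact JGP.pl_apply σ e y

end Pool.Agent.Q293.TO
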