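import Pool.Agent.Q293.TO.Tet
import Pool.Agent.Q293.RT.JPLY
import Pool.Agent.Q293.RT.JAFL
import Pool.Agent.Q293.RT.JAUT

/-! The icosahedral tile. -/

namespace Pool.Agent.Q293.TO
open Pool.Agent.Q293.RT
open Set Topology

theorem B_add_smul (a b c d : ℝ) (x y z w u : M) :
    B (a • x + b • y + c • z + d • w) u = a * B x u + b * B y u + c * B z u + d * B w u := by
  unfold B
  simp only [Fin.sum_univ_three, Prod.fst_add, Prod.snd_add, Prod.smul_fst, Prod.smul_snd,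
    PiLp.add_apply, PiLp.smul_apply, smul_eq_mul]
  ring

theorem B_smul_left (c : ℝ) (y z : M) : B (c • y) z = c * B y z := by
  rw [B_symm, B_smul, B_symm]

/-- the centres adjacent to the removed vertex -/
def Adj : Set M := {v | v ∈ VE ∧ B w0 v = - ph ^ 2}

theorem pm_cases {w : M} (h1 : w.1 = ph) (h2 : ∀ i, w.2 i = 1 ∨ w.2 i = -1) :
    (∃ i, w = W i) ∨ ∃ i, w = (2 * ph) • vs - W i := by
  have hW : ∀ i, w.2 0 = V i 0 → w.2 1 = V i 1 → w.2 2 = V i 2 → w = W i := fun i a b c =>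
    JPAI.vec_ext h1 a b c
  have hW' : ∀ i, w.2 0 = - V i 0 → w.2 1 = - V i 1 → w.2 2 = - V i 2 →
      w = (2 * ph) • vs - W i := by
    intro i a b c
    refine JPAI.vec_ext ?_ ?_ ?_ ?_
    · show w.1 = 2 * ph * 1 - ph
      rw [h1]; ring
    · show w.2 0 = 2 * ph * 0 - V i 0
      rw [a]; ring
    · show w.2 1 = 2 * ph * 0 - V i 1
      rw [b]; ring
    · show w.2 2 = 2 * ph * 0 - V i 2
      rw [c]; ring
  rcases h2 0 with a | a <;> rcases h2 1 with b | b <;> rcases h2 2 with c | c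
  · right; exact ⟨3, hW' 3 (by rw [a, V30]; norm_num) (by rw [b, V31]; norm_num)
      (by rw [c, V32]; norm_num)⟩
  · left; exact ⟨2, hW 2 (by rw [a, V20]) (by rw [b, V21]) (by rw [c, V22])⟩
  · left; exact ⟨1, hW 1 (by rw [a, V10]) (by rw [b, V11]) (by rw [c, V12])⟩
  · right; exact ⟨0, hW' 0 (by rw [a, V00]; norm_num) (by rw [b, V01]) (by rw [c, V02])⟩
  · left; exact ⟨0, hW 0 (by rw [a, V00]) (by rw [b, V01]) (by rw [c, V02])⟩
  · right; exact ⟨1, hW' 1 (by rw [a, V10]) (by rw [b, V11]; norm_num) (by rw [c, V12])⟩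
  · right; exact ⟨2, hW' 2 (by rw [a, V20]) (by rw [b, V21]) (by rw [c, V22]; norm_num)⟩
  · left; exact ⟨3, hW 3 (by rw [a, V30]) (by rw [b, V31]) (by rw [c, V32])⟩

theorem adj_char {v : M} (hv : v ∈ Adj) : ∃ γ : M ≃ₗ[ℝ] M, SymE γ ∧ γ w0 = w0 ∧ γ vs = v := by
  have hp := ph_lo
  obtain ⟨⟨δ, hδ, rfl⟩, hB⟩ := hv
  set w := δ.symm w0 with hw
  have hδw : δ w = w0 := δ.apply_symm_apply _
  have hPC : PC 0 w := hδ.symm.1.pc _ _ pc_w0
  have hww : B w w = 2 - 2 * ph := by rw [← hδ.1.form, hδw, B_w0_w0]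
  have hF : Fut w := hδ.symm.1.fut _ fut_w0
  have ht : w.1 = ph := by
    have : B w vs = - ph ^ 2 := by rw [← hδ.1.form, hδw, hB]
    rw [JABV.B_vs] at this
    have h2 : ph * w.1 = ph * ph := by linarith
    exact mul_left_cancel₀ (by linarith) h2
  rcases pm_cases ht (eqcase hPC hww ht) with ⟨i, hi⟩ | ⟨i, hi⟩
  · exfalso
    have h1 : PC 1 w := by rw [hi]; exact pc_W i
    have := nb hPC h1 hF hF (by rw [hww]; linarith)
    rw [hww] at this
    linarith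
  · obtain ⟨γ, hγ, h1, h2⟩ := act4 (Equiv.swap 3 i)
    have h3 := act_w0 h1 h2
    rw [Equiv.swap_apply_left] at h3
    refine ⟨γ.trans δ, hγ.trans hδ, ?_, ?_⟩
    · show δ (γ w0) = w0
      rw [h3, ← hi, hδw]
    · show δ (γ vs) = δ vs
      rw [h1]

theorem vs_Adj : vs ∈ Adj := by
  refine ⟨vs_VE, ?_⟩
  rw [JABV.B_vs]
  show -(ph * ph) = _
  ring

theorem Adj_move {γ : M ≃ₗ[ℝ] M} (hγ : SymE γ) (h0 : γ w0 = w0) {v : M} (hv : v ∈ Adj) :
    γ v ∈ Adj := by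
  refine ⟨(VE_inv hγ v).1 hv.1, ?_⟩
  rw [← h0, hγ.1.form]; exact hv.2

theorem Adj_DD {v : M} (hv : v ∈ Adj) : v ∈ DD := Or.inl hv.1

theorem Adj_finite : Adj.Finite := by
  have hp := ph_lo
  have hq := ph_hi
  refine (fin_gen (-ps) 7).subset ?_
  rintro v ⟨hv, hB⟩
  have hF : Fut v := fut_DD v (Or.inl hv)
  obtain ⟨γ, hγ, h⟩ := hv
  refine ⟨?_, hF, ?_⟩
  · have := hγ.1.pv _ pv_vs
    rw [h] at this; exact this
  · rw [B_symm, B_w0] at hB
    obtain ⟨h0, h1⟩ := hF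
    unfold B at h1
    rw [Fin.sum_univ_three] at h1
    set a := v.2 0
    set b := v.2 1
    set c := v.2 2
    set t := v.1
    by_contra hcon
    push Not at hcon
    have e1 : a + b + c = ph ^ 2 * (t - 1) := by linarith
    have e2 : (a + b + c) ^ 2 ≤ 3 * (a * a + b * b + c * c) := by
      nlinarith [sq_nonneg (a - b), sq_nonneg (b - c), sq_nonneg (a - c)]
    have e3 : (ph ^ 2 * (t - 1)) ^ 2 ≤ 3 * (ph * t * t) := by
      rw [← e1]; linarith
    have e4 : (ph ^ 2 * (t - 1)) ^ 2 = ph * ((2 * ph + 1) * (t - 1) ^ 2) := by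
      have : ph ^ 4 = ph * (2 * ph + 1) := by
        linear_combination (ph ^ 2 + ph) * phsq
      calc (ph ^ 2 * (t - 1)) ^ 2 = ph ^ 4 * (t - 1) ^ 2 := by ring
        _ = _ := by rw [this]; ring
    rw [e4] at e3
    have e5 : (2 * ph + 1) * (t - 1) ^ 2 ≤ 3 * (t * t) := by
      have h6 : ph * ((2 * ph + 1) * (t - 1) ^ 2) ≤ ph * (3 * (t * t)) := by linarith
      exact le_of_mul_le_mul_left h6 (by linarith)
    have e6 : 4.2 * (t - 1) ^ 2 ≤ (2 * ph + 1) * (t - 1) ^ 2 :=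
      mul_le_mul_of_nonneg_right (by linarith) (sq_nonneg _)
    nlinarith

theorem adj_nb (j : Fin 3) : ∃ v ∈ Adj, ∀ y : M, B y v = -(ph ^ 2 * y.1) + ph * y.2 j := by
  obtain ⟨γ₁, h1, h1'⟩ := gp (Equiv.swap 0 j) (fun _ => 1) (fun _ => one_ne_zero) (by decide)
  obtain ⟨γ₂, h2, h2'⟩ := gs
  obtain ⟨k0, k1, k2, k3⟩ := h2' vs
  have w0' : (γ₂ vs).1 = ph := by rw [k0]; simp [vs]
  have w1 : (γ₂ vs).2 0 = ph := by rw [k1]; simp [vs]
  have w2 : (γ₂ vs).2 1 = 0 := by rw [k2]; simp [vs]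
  have w3 : (γ₂ vs).2 2 = 0 := by rw [k3]; simp [vs]
  have hy : ∀ y : M, B y (γ₁ (γ₂ vs)) = -(ph ^ 2 * y.1) + ph * y.2 j := by
    intro y
    unfold B
    rw [(h1' _).1, w0']
    have hsum : ∑ i, y.2 i * (γ₁ (γ₂ vs)).2 i = y.2 j * ph := by
      have : ∀ i, y.2 i * (γ₁ (γ₂ vs)).2 i = if i = j then y.2 j * ph else 0 := by
        intro i
        rw [(h1' _).2 i]
        by_cases hi : i = j
        · subst hi
          rw [if_pos rfl, Equiv.swap_apply_right, w1]; simp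
        · rw [if_neg hi]
          have h3 : Equiv.swap 0 j i ≠ 0 := by
            intro h
            apply hi
            have := congrArg (Equiv.swap 0 j) h
            rwa [Equiv.swap_apply_self, Equiv.swap_apply_left] at this
          have h4 : (γ₂ vs).2 (Equiv.swap 0 j i) = 0 := by
            generalize Equiv.swap 0 j i = k at h3
            fin_cases k
            · exact absurd rfl h3
            · exact w2
            · exact w3
          rw [h4]; simp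
      simp only [this]
      rw [Finset.sum_ite_eq' Finset.univ j]
      simp
    rw [hsum]; ring
  refine ⟨γ₁ (γ₂ vs), ⟨⟨_, h2.trans h1, rfl⟩, ?_⟩, hy⟩
  rw [hy]
  show -(ph ^ 2 * ph) + ph * P0 j = _
  rw [P0_apply]
  linear_combination (-ph) * phsq

/-- the apex of the icosahedral tile over the removed vertex -/
noncomputable def y0 : M := (ph ^ 2) • w0

theorem B_y0_le : ∀ u ∈ DD, B y0 u ≤ - ph ^ 2 := by
  have hp := ph_lo
  rintro u (⟨γ, hγ, rfl⟩ | ⟨γ, hγ, rfl⟩)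
  · have e : B w0 (γ vs) = B (γ.symm w0) vs := by
      rw [← hγ.1.form (γ.symm w0) vs, LinearEquiv.apply_symm_apply]
    have := JF1.main (γ.symm w0) (hγ.symm.1.fut _ fut_w0) (hγ.symm.1.pc _ _ pc_w0).pw
    unfold y0
    rw [B_smul_left, e, JABV.B_vs]
    have h2 : ph * (ph * 1) ≤ ph * (γ.symm w0).1 := by nlinarith
    nlinarith [phsq]
  · unfold y0 u0
    rw [B_smul_left, map_smul, B_smul]
    have h1 : B w0 (γ w0) ≤ -(2 * ph - 2) := by
      apply rcs (by linarith) fut_w0.1 (hγ.1.fut _ fut_w0).1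
      · rw [B_w0_w0]; ring
      · rw [hγ.1.form, B_w0_w0]; ring
    have h2 : ph ^ 2 * (ph / 2 * B w0 (γ w0)) ≤ ph ^ 2 * (ph / 2 * -(2 * ph - 2)) :=
      mul_le_mul_of_nonneg_left (mul_le_mul_of_nonneg_left h1 (by linarith)) (sq_nonneg _)
    refine h2.trans (le_of_eq ?_)
    linear_combination (-ph ^ 2) * phsq

/-- the simplex over a face: coordinates -/
theorem claimC {y : M} (h : B y w0 = -(2 * ph)) : y = ((y.1 - ph) / ph ^ 2) • y0 +
    ((y.1 / ph - y.2 0) / 2) • W 0 + ((y.1 / ph - y.2 1) / 2) • W 1 +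
    ((y.1 / ph - y.2 2) / 2) • W 2 := by
  have hp := ph_lo
  have hp0 : ph ≠ 0 := by linarith
  rw [B_w0] at h
  have hinv : 1 / ph = ph - 1 := by
    rw [div_eq_iff hp0]; linear_combination (-1 : ℝ) * phsq
  have e1 : ∀ a : ℝ, a / ph = a * (ph - 1) := fun a => by rw [div_eq_mul_one_div, hinv]
  have e2 : ∀ a b : ℝ, a / ph ^ 2 * (ph ^ 2 * b) = a * b := fun a b => by field_simp
  refine JPAI.vec_ext ?_ ?_ ?_ ?_
  · show y.1 = (y.1 - ph) / ph ^ 2 * (ph ^ 2 * ph) + (y.1 / ph - y.2 0) / 2 * ph +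
      (y.1 / ph - y.2 1) / 2 * ph + (y.1 / ph - y.2 2) / 2 * ph
    rw [e1, e2]
    linear_combination (ph / 2) * h + (y.1 / 2 * (ph - 2)) * phsq
  · show y.2 0 = (y.1 - ph) / ph ^ 2 * (ph ^ 2 * P0 0) + (y.1 / ph - y.2 0) / 2 * V 0 0 +
      (y.1 / ph - y.2 1) / 2 * V 1 0 + (y.1 / ph - y.2 2) / 2 * V 2 0
    rw [e1, e2, P0_apply, V00, V10, V20]
    linear_combination (1 / 2) * h + (y.1 / 2) * phsq
  · show y.2 1 = (y.1 - ph) / ph ^ 2 * (ph ^ 2 * P0 1) + (y.1 / ph - y.2 0) / 2 * V 0 1 +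
      (y.1 / ph - y.2 1) / 2 * V 1 1 + (y.1 / ph - y.2 2) / 2 * V 2 1
    rw [e1, e2, P0_apply, V01, V11, V21]
    linear_combination (1 / 2) * h + (y.1 / 2) * phsq
  · show y.2 2 = (y.1 - ph) / ph ^ 2 * (ph ^ 2 * P0 2) + (y.1 / ph - y.2 0) / 2 * V 0 2 +
      (y.1 / ph - y.2 1) / 2 * V 1 2 + (y.1 / ph - y.2 2) / 2 * V 2 2
    rw [e1, e2, P0_apply, V02, V12, V22]
    linear_combination (1 / 2) * h + (y.1 / 2) * phsq

theorem claimC_sum {y : M} (h : B y w0 = -(2 * ph)) : (y.1 - ph) / ph ^ 2 +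
    (y.1 / ph - y.2 0) / 2 + (y.1 / ph - y.2 1) / 2 + (y.1 / ph - y.2 2) / 2 = 1 := by
  have hp := ph_lo
  have hp0 : ph ≠ 0 := by linarith
  rw [B_w0] at h
  have hinv : 1 / ph = ph - 1 := by
    rw [div_eq_iff hp0]; linear_combination (-1 : ℝ) * phsq
  have hinv2 : 1 / ph ^ 2 = 2 - ph := by
    rw [div_eq_iff (by positivity)]
    linear_combination (ph - 1) * phsq
  have e1 : ∀ a : ℝ, a / ph = a * (ph - 1) := fun a => by rw [div_eq_mul_one_div, hinv]
  have e2 : ∀ a : ℝ, a / ph ^ 2 = a * (2 - ph) := fun a => by rw [div_eq_mul_one_div, hinv2]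
  rw [e1, e2]
  linear_combination (-1 / 2) * h + (1 - y.1 / 2) * phsq

end Pool.Agent.Q293.TO
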