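import Pool.Agent.Q293.TO.Ico

/-! The icosahedral tile, continued. -/

namespace Pool.Agent.Q293.TO
open Pool.Agent.Q293.RT
open Set Topology

theorem onQ {w : M} (h : ∀ u ∈ DD, B w u ≤ - ph ^ 2) (h0 : B w w0 = -(2 * ph)) :
    w.2 ∈ tile DD u0 := by
  have h1 : B w u0 = - ph ^ 2 := by rw [B_u0, h0]; ring
  exact JACT.mem_of_sig pos_DD u0_DD (t := w.1) (x := w.2) ⟨h, u0, u0_DD, h1⟩ h1

theorem B_ellQ (x : E) : B (ell u0 x, x) w0 = -(2 * ph) := by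
  have hp := ph_lo
  have h := JACT.B_ell (pos_DD u0 u0_DD) x
  rw [B_u0] at h
  have h2 : (ph / 2) * B (ell u0 x, x) w0 = (ph / 2) * (-(2 * ph)) := by rw [h]; ring
  exact mul_left_cancel₀ (by linarith) h2

theorem B_y0w0 : B y0 w0 = -(2 * ph) := by
  unfold y0
  rw [B_smul_left, B_w0_w0]
  linear_combination (-2 * ph) * phsq

theorem y0_Q : y0.2 ∈ tile DD u0 := onQ B_y0_le B_y0w0

theorem W_Q {γ : M ≃ₗ[ℝ] M} (hγ : SymE γ) (h0 : γ w0 = w0) {i : Fin 4} (hi : i ≠ 3) :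
    (γ (W i)).2 ∈ tile DD u0 := by
  apply onQ (vtx_le (hγ.1.pc _ _ (pc_W i)) (hγ.1.fut _ (fut_W i)))
  rw [← h0, hγ.1.form, B_Ww0 hi]

theorem decomp {x : E} (hx : ∀ v ∈ Adj, ell v x ≤ ell u0 x) :
    ∃ v ∈ Adj, ∀ γ : M ≃ₗ[ℝ] M, SymE γ → γ w0 = w0 → γ vs = v →
      ∃ c c0 c1 c2 : ℝ, 0 ≤ c ∧ 0 ≤ c0 ∧ 0 ≤ c1 ∧ 0 ≤ c2 ∧ c + c0 + c1 + c2 = 1 ∧
        x = c • y0.2 + c0 • (γ (W 0)).2 + c1 • (γ (W 1)).2 + c2 • (γ (W 2)).2 := by
  have hp := ph_lo
  set y : M := (ell u0 x, x) with hy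
  obtain ⟨v, hv, hmax⟩ := Set.exists_max_image Adj (fun v => B y v) Adj_finite ⟨vs, vs_Adj⟩
  refine ⟨v, hv, fun γ hγ h0 hvs => ?_⟩
  set y' : M := γ.symm y with hy'
  have hγy : γ y' = y := γ.apply_symm_apply y
  have hw : B y' w0 = -(2 * ph) := by
    rw [← hγ.1.form, hγy, h0, hy, B_ellQ]
  have hle : ∀ u ∈ Adj, B y' u ≤ B y' vs := by
    intro u hu
    rw [← hγ.1.form y' u, ← hγ.1.form y' vs, hγy, hvs]
    exact hmax _ (Adj_move hγ h0 hu)
  have hvle : B y' vs ≤ - ph ^ 2 := by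
    rw [← hγ.1.form y' vs, hγy, hvs, JACT.B_le_iff (pos_DD v (Adj_DD hv))]
    exact hx v hv
  rw [JABV.B_vs] at hvle
  have ht : ph ≤ y'.1 := by
    by_contra hcon
    push Not at hcon
    nlinarith
  have hi : ∀ j : Fin 3, 0 ≤ (y'.1 / ph - y'.2 j) / 2 := by
    intro j
    obtain ⟨u, hu, h⟩ := adj_nb j
    have := hle u hu
    rw [h, JABV.B_vs] at this
    have h1 : y'.2 j ≤ y'.1 / ph := by
      rw [le_div_iff₀ (by linarith)]
      have h2 : ph * (y'.2 j * ph) ≤ ph * y'.1 := by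
        have e : ph ^ 2 * y'.1 = ph * y'.1 + y'.1 := by linear_combination y'.1 * phsq
        have e2 : ph * y'.2 j ≤ y'.1 := by linarith
        nlinarith
      exact le_of_mul_le_mul_left h2 (by linarith)
    linarith
  have h1 := claimC hw
  have h2 := claimC_sum hw
  refine ⟨(y'.1 - ph) / ph ^ 2, (y'.1 / ph - y'.2 0) / 2, (y'.1 / ph - y'.2 1) / 2,
    (y'.1 / ph - y'.2 2) / 2, div_nonneg (by linarith) (sq_nonneg _), hi 0, hi 1, hi 2, h2, ?_⟩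
  have h3 : y = ((y'.1 - ph) / ph ^ 2) • y0 +
    ((y'.1 / ph - y'.2 0) / 2) • γ (W 0) + ((y'.1 / ph - y'.2 1) / 2) • γ (W 1) +
    ((y'.1 / ph - y'.2 2) / 2) • γ (W 2) := by
    rw [← hγy]
    have hy0 : γ y0 = y0 := by unfold y0; rw [map_smul, h0]
    conv_lhs => rw [h1]
    rw [map_add, map_add, map_add, map_smul, map_smul, map_smul, map_smul, hy0]
  exact congrArg Prod.snd h3

theorem comb4_mem {P : Set E} (hP : Convex ℝ P) {a b c d : E} (ha : a ∈ P) (hb : b ∈ P)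
    (hc : c ∈ P) (hd : d ∈ P) {r s t u : ℝ} (hr : 0 ≤ r) (hs : 0 ≤ s) (ht : 0 ≤ t) (hu : 0 ≤ u)
    (h : r + s + t + u = 1) : r • a + s • b + t • c + u • d ∈ P := by
  have := hP.sum_mem (t := (Finset.univ : Finset (Fin 4))) (w := ![r, s, t, u]) (z := ![a, b, c, d])
    (fun i _ => by fin_cases i <;> assumption) (by rw [Fin.sum_univ_four]; exact h)
    (fun i _ => by fin_cases i <;> assumption)
  rw [Fin.sum_univ_four] at this
  exact this

theorem mem_Q {x : E} : x ∈ tile DD u0 ↔ ∀ v ∈ Adj, ell v x ≤ ell u0 x := by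
  constructor
  · intro h v hv
    exact h v (Adj_DD hv)
  · intro h
    obtain ⟨v, hv, hγ⟩ := decomp h
    obtain ⟨γ, h1, h2, h3⟩ := adj_char hv
    obtain ⟨c, c0, c1, c2, q, q0, q1, q2, hs, he⟩ := hγ γ h1 h2 h3
    rw [he]
    exact comb4_mem (JTLG.convex_tile _ _) y0_Q (W_Q h1 h2 (by decide)) (W_Q h1 h2 (by decide))
      (W_Q h1 h2 (by decide)) q q0 q1 q2 hs

theorem Q_hull : ∃ s : Finset E, tile DD u0 = convexHull ℝ (s : Set E) := by
  classical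
  have hch : ∀ v : M, ∃ γ : M ≃ₗ[ℝ] M, v ∈ Adj → SymE γ ∧ γ w0 = w0 ∧ γ vs = v := by
    intro v
    by_cases hv : v ∈ Adj
    · obtain ⟨γ, h⟩ := adj_char hv
      exact ⟨γ, fun _ => h⟩
    · exact ⟨LinearEquiv.refl ℝ M, fun h => absurd h hv⟩
  choose f hf using hch
  have hfin : ({y0.2} ∪ ((fun v => (f v (W 0)).2) '' Adj ∪ ((fun v => (f v (W 1)).2) '' Adj ∪
      (fun v => (f v (W 2)).2) '' Adj)) : Set E).Finite :=
    (Set.finite_singleton _).union ((Adj_finite.image _).union ((Adj_finite.image _).union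
      (Adj_finite.image _)))
  refine ⟨hfin.toFinset, ?_⟩
  rw [Set.Finite.coe_toFinset]
  apply Subset.antisymm
  · intro x hx
    obtain ⟨v, hv, hγ⟩ := decomp (mem_Q.1 hx)
    obtain ⟨h1, h2, h3⟩ := hf v hv
    obtain ⟨c, c0, c1, c2, q, q0, q1, q2, hs, he⟩ := hγ (f v) h1 h2 h3
    rw [he]
    refine comb4_mem (convex_convexHull ℝ _) (subset_convexHull ℝ _ ?_)
      (subset_convexHull ℝ _ ?_) (subset_convexHull ℝ _ ?_) (subset_convexHull ℝ _ ?_) q q0 q1 q2 hs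
    · left; rfl
    · right; left; exact ⟨v, hv, rfl⟩
    · right; right; left; exact ⟨v, hv, rfl⟩
    · right; right; right; exact ⟨v, hv, rfl⟩
  · apply convexHull_min _ (JTLG.convex_tile _ _)
    rintro x (rfl | ⟨v, hv, rfl⟩ | ⟨v, hv, rfl⟩ | ⟨v, hv, rfl⟩)
    · exact y0_Q
    · exact W_Q (hf v hv).1 (hf v hv).2.1 (by decide)
    · exact W_Q (hf v hv).1 (hf v hv).2.1 (by decide)
    · exact W_Q (hf v hv).1 (hf v hv).2.1 (by decide)

theorem open_part {x : E} (h : ph ≤ ell u0 x) (h' : ∀ i, x i ≤ ell u0 x / ph) :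
    x ∈ tile DD u0 := by
  have h1 := claimC (B_ellQ x)
  have h2 := claimC_sum (B_ellQ x)
  have h3 : x = ((ell u0 x - ph) / ph ^ 2) • y0.2 + ((ell u0 x / ph - x 0) / 2) • (W 0).2 +
      ((ell u0 x / ph - x 1) / 2) • (W 1).2 + ((ell u0 x / ph - x 2) / 2) • (W 2).2 :=
    congrArg Prod.snd h1
  rw [h3]
  have hW : ∀ i : Fin 4, i ≠ 3 → (W i).2 ∈ tile DD u0 := fun i hi => by
    have := W_Q (γ := LinearEquiv.refl ℝ M) SymE.refl rfl hi
    exact this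
  refine comb4_mem (JTLG.convex_tile _ _) y0_Q (hW 0 (by decide)) (hW 1 (by decide))
    (hW 2 (by decide)) (div_nonneg (by linarith) (sq_nonneg _)) ?_ ?_ ?_ h2
  · have := h' 0; linarith
  · have := h' 1; linarith
  · have := h' 2; linarith

theorem ell_u0 (x : E) : ph ^ 2 * ell u0 x = (x 0 + x 1 + x 2) + 2 * ph := by
  have := B_ellQ x
  rw [B_w0] at this
  show ph ^ 2 * ell u0 x = _
  have h : -(ph ^ 2 * ell u0 x) + (x 0 + x 1 + x 2) = -(2 * ph) := this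
  linarith

theorem Q_interior : (interior (tile DD u0)).Nonempty := by
  have hp := ph_lo
  set x₀ : E := (ph / 4 + 1 / 2) • P0 with hx₀
  have hxi : ∀ i, x₀ i = ph / 4 + 1 / 2 := by
    intro i
    show (ph / 4 + 1 / 2) * P0 i = _
    rw [P0_apply]; ring
  have hell : ell u0 x₀ = ph + ph ^ 2 / 4 := by
    have h1 := ell_u0 x₀
    rw [hxi, hxi, hxi] at h1
    have h2 : ph ^ 2 * ell u0 x₀ = ph ^ 2 * (ph + ph ^ 2 / 4) := by
      rw [h1]
      linear_combination (-(ph ^ 2 + ph + 2) / 4 - (ph + 1)) * phsq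
    exact mul_left_cancel₀ (by positivity) h2
  refine ⟨x₀, ?_⟩
  rw [mem_interior_iff_mem_nhds]
  have hc := JLOC.cont_ell u0
  have e1 : ∀ᶠ x in 𝓝 x₀, ph < ell u0 x := by
    apply hc.continuousAt.eventually
    apply isOpen_Ioi.mem_nhds
    show ph < ell u0 x₀
    rw [hell]
    have : 0 < ph ^ 2 / 4 := by positivity
    linarith
  have e2 : ∀ᶠ x in 𝓝 x₀, ∀ i, x i < ell u0 x / ph := by
    rw [Filter.eventually_all]
    intro i
    have hcc : Continuous fun x : E => ell u0 x / ph - x i := by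
      have : Continuous fun x : E => x i := by fun_prop
      exact (hc.div_const _).sub this
    have h : ∀ᶠ x in 𝓝 x₀, 0 < ell u0 x / ph - x i := by
      apply hcc.continuousAt.eventually
      apply isOpen_Ioi.mem_nhds
      show 0 < ell u0 x₀ / ph - x₀ i
      rw [hell, hxi]
      have : (ph + ph ^ 2 / 4) / ph = 1 + ph / 4 := by field_simp
      rw [this]; linarith
    exact h.mono fun x hx => by linarith
  filter_upwards [e1, e2] with x h1 h2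
  exact open_part h1.le fun i => (h2 i).le

/-- the tiling -/
def T2 : Set (Set E) := {P | ∃ u ∈ DD, P = tile DD u}

theorem act {γ : M ≃ₗ[ℝ] M} (hγ : SymE γ) : ∃ g : E ≃ E, (∀ u ∈ DD, g '' tile DD u = tile DD (γ u)) ∧
    (∀ u ∈ DD, ∀ x ∈ tile DD u, g x = (γ (ell u x, x)).2) ∧
    (∀ u ∈ DD, ∀ x ∈ tile DD u, g.symm x = (γ.symm (ell u x, x)).2) :=
  JACT.main DD pos_DD (max' good_DD) γ hγ.1.form (DD_inv hγ)

theorem lfc : IsLFCTiling (d := 3) T2 := by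
  refine tlg' good_DD ?_
  have key : ∀ v ∈ DD, ((∃ s : Finset E, tile DD v = convexHull ℝ (s : Set E)) ∧
      (interior (tile DD v)).Nonempty) → ∀ γ : M ≃ₗ[ℝ] M, SymE γ →
      ((∃ s : Finset E, tile DD (γ v) = convexHull ℝ (s : Set E)) ∧
      (interior (tile DD (γ v))).Nonempty) := by
    intro v hv h γ hγ
    obtain ⟨g, h1, h2, -⟩ := act hγ
    obtain ⟨A, hA⟩ := JAFL.main γ v
    have haff : Aff g (tile DD v) := ⟨A, fun x hx => by rw [h2 v hv x hx, hA]⟩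
    have := JPLY.main g (tile DD v) haff
    rw [h1 v hv] at this
    exact ⟨this.1 h.1, this.2 h.2⟩
  rintro u (⟨γ, hγ, rfl⟩ | ⟨γ, hγ, rfl⟩)
  · apply key vs vs_DD _ γ hγ
    rw [tile_vs]
    exact ⟨⟨_, tet_hull⟩, tet_interior⟩
  · exact key u0 u0_DD ⟨Q_hull, Q_interior⟩ γ hγ

/-- automorphisms of the tiling -/
theorem aug {γ : M ≃ₗ[ℝ] M} (hγ : SymE γ) :
    ∃ (G : FaceLat (d := 3) T2 ≃o FaceLat (d := 3) T2) (g : E ≃ E),
    (∀ F, (G F : Set E) = g '' (F : Set E)) ∧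
    (∀ v ∈ DD, g '' tile DD v = tile DD (γ v)) ∧
    ∀ v ∈ DD, ∀ x ∈ tile DD v, g x = (γ (ell v x, x)).2 := by
  obtain ⟨g, h1, h2, h3⟩ := act hγ
  have hsymm : ∀ v ∈ DD, g.symm '' tile DD v = tile DD (γ.symm v) := by
    intro v hv
    have hv' : γ.symm v ∈ DD := (DD_inv hγ.symm v).1 hv
    have := h1 _ hv'
    rw [γ.apply_symm_apply] at this
    rw [← this, ← Set.image_comp]
    simp
  obtain ⟨G, hG⟩ := JAUT.main T2 g
    (by
      rintro P ⟨v, hv, rfl⟩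
      refine ⟨⟨γ v, (DD_inv hγ v).1 hv, h1 v hv⟩, ⟨γ.symm v, (DD_inv hγ.symm v).1 hv, hsymm v hv⟩⟩)
    (by
      rintro P ⟨v, hv, rfl⟩
      obtain ⟨A, hA⟩ := JAFL.main γ v
      obtain ⟨A', hA'⟩ := JAFL.main γ.symm v
      exact ⟨⟨A, fun x hx => by rw [h2 v hv x hx, hA]⟩, ⟨A', fun x hx => by rw [h3 v hv x hx, hA']⟩⟩)
  exact ⟨G, g, hG, h1, h2⟩

end Pool.Agent.Q293.TO
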