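import Pool.Agent.Q293.TO.Rig
import Pool.Agent.Q293.TO.Geo
import Pool.Agent.Q293.RT.JATM
import Pool.Agent.Q293.RT.JISO
import Pool.Agent.Q293.RT.JFIX

/-! Two-orbit tilings isomorphic to the given one do not exist. -/

namespace Pool.Agent.Q293.TO
open Pool.Agent.Q293.RT
open Set

theorem iso : S_ISO := JISO.main JAUT.main
theorem atm : S_ATM := JATM.main JPOL.main

theorem CombEquiv.symm {T : Set (Set E)} {Φ Ψ : Flag (FaceLat (d := 3) T)}
    (h : CombEquiv (d := 3) T Φ Ψ) : CombEquiv (d := 3) T Ψ Φ := by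
  obtain ⟨g, hg⟩ := h
  refine ⟨g.symm, fun F => ?_⟩
  rw [hg (g.symm F), g.apply_symm_apply]

theorem CombEquiv.trans {T : Set (Set E)} {Φ Ψ Ξ : Flag (FaceLat (d := 3) T)}
    (h : CombEquiv (d := 3) T Φ Ψ) (k : CombEquiv (d := 3) T Ψ Ξ) :
    CombEquiv (d := 3) T Φ Ξ := by
  obtain ⟨g, hg⟩ := h
  obtain ⟨g', hg'⟩ := k
  refine ⟨g.trans g', fun F => ?_⟩
  rw [hg F, hg' (g F)]; rfl

/-- metric equivalence with the induced automorphism -/
theorem metric_iff {T : Set (Set E)} {Φ Ψ : Flag (FaceLat (d := 3) T)} :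
    MetricEquiv (d := 3) T Φ Ψ ↔ ∃ (h : E ≃ᵢ E) (H : FaceLat (d := 3) T ≃o FaceLat (d := 3) T),
      (∀ P : Set E, P ∈ T ↔ h '' P ∈ T) ∧ (∀ F : FaceLat (d := 3) T, (H F).1 = h '' F.1) ∧
      ∀ F, F ∈ Φ ↔ H F ∈ Ψ := by
  constructor
  · rintro ⟨h, h1, h2⟩
    obtain ⟨H, hH⟩ := iso T h h1
    refine ⟨h, H, h1, hH, fun F => ?_⟩
    rw [h2]
    constructor
    · rintro ⟨G, hG, h'⟩
      have : G = H F := Subtype.ext (h'.trans (hH _).symm)
      rwa [← this]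
    · intro h'
      exact ⟨_, h', hH _⟩
  · rintro ⟨h, H, h1, hH, h2⟩
    refine ⟨h, h1, fun F => ?_⟩
    rw [h2]
    constructor
    · intro h'
      exact ⟨_, h', hH _⟩
    · rintro ⟨G, hG, h'⟩
      have : G = H F := Subtype.ext (h'.trans (hH _).symm)
      rwa [← this]

theorem MetricEquiv.symm {T : Set (Set E)} {Φ Ψ : Flag (FaceLat (d := 3) T)}
    (h : MetricEquiv (d := 3) T Φ Ψ) : MetricEquiv (d := 3) T Ψ Φ := by
  rw [metric_iff] at h ⊢
  obtain ⟨h, H, h1, h2, h3⟩ := h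
  have hc : ∀ S : Set E, h '' (h.symm '' S) = S := by
    intro S
    rw [← Set.image_comp]
    have : (h ∘ h.symm) = id := by funext x; exact h.apply_symm_apply x
    rw [this, Set.image_id]
  refine ⟨h.symm, H.symm, fun P => ?_, fun F => ?_, fun F => ?_⟩
  · rw [h1 (h.symm '' P), hc]
  · have := h2 (H.symm F)
    rw [H.apply_symm_apply] at this
    rw [this, ← Set.image_comp]
    have : (h.symm ∘ h) = id := by funext x; exact h.symm_apply_apply x
    rw [this, Set.image_id]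
  · rw [h3 (H.symm F), H.apply_symm_apply]

theorem MetricEquiv.trans {T : Set (Set E)} {Φ Ψ Ξ : Flag (FaceLat (d := 3) T)}
    (h : MetricEquiv (d := 3) T Φ Ψ) (k : MetricEquiv (d := 3) T Ψ Ξ) :
    MetricEquiv (d := 3) T Φ Ξ := by
  rw [metric_iff] at h k ⊢
  obtain ⟨h, H, h1, h2, h3⟩ := h
  obtain ⟨k, K, k1, k2, k3⟩ := k
  refine ⟨h.trans k, H.trans K, fun P => ?_, fun F => ?_, fun F => ?_⟩
  · rw [h1 P, k1 (h '' P), ← Set.image_comp]; rfl
  · show (K (H F)).1 = _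
    rw [k2, h2, ← Set.image_comp]; rfl
  · rw [h3 F, k3 (H F)]; rfl

theorem MetricEquiv.comb {T : Set (Set E)} {Φ Ψ : Flag (FaceLat (d := 3) T)}
    (h : MetricEquiv (d := 3) T Φ Ψ) : CombEquiv (d := 3) T Φ Ψ := by
  rw [metric_iff] at h
  obtain ⟨h, H, h1, h2, h3⟩ := h
  exact ⟨H, h3⟩

theorem comb_map {T T' : Set (Set E)} (Θ : FaceLat (d := 3) T ≃o FaceLat (d := 3) T')
    {Φ Ψ : Flag (FaceLat (d := 3) T)} (h : CombEquiv (d := 3) T Φ Ψ) :
    CombEquiv (d := 3) T' (Flag.map Θ Φ) (Flag.map Θ Ψ) := by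
  obtain ⟨g, hg⟩ := h
  refine ⟨(Θ.symm.trans g).trans Θ, fun F => ?_⟩
  have e1 : F ∈ Flag.map Θ Φ ↔ Θ.symm F ∈ Φ := by
    rw [mem_map Θ Φ (Θ.symm F), Θ.apply_symm_apply]
  rw [e1, hg]
  exact mem_map Θ Ψ _

theorem map_symm_map {T T' : Set (Set E)} (Θ : FaceLat (d := 3) T ≃o FaceLat (d := 3) T')
    (Φ : Flag (FaceLat (d := 3) T)) : Flag.map Θ.symm (Flag.map Θ Φ) = Φ := by
  apply SetLike.ext
  intro F
  have e := mem_map Θ.symm (Flag.map Θ Φ) (Θ F)
  rw [Θ.symm_apply_apply] at e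
  rw [← e, ← mem_map Θ Φ F]

/-- combinatorially equivalent flags are metrically equivalent in an isomorphic two-orbit tiling -/
theorem comb_metric {T' : Set (Set E)} (hm : MetricTwoOrbit (d := 3) T')
    (Θ : L2 ≃o FaceLat (d := 3) T') {Φ Ψ : Flag L2} (h : CombEquiv (d := 3) T2 Φ Ψ) :
    MetricEquiv (d := 3) T' (Flag.map Θ Φ) (Flag.map Θ Ψ) := by
  obtain ⟨Φ₁, Ψ₁, -, hall⟩ := hm
  have hn : ¬ CombEquiv (d := 3) T' Φ₁ Ψ₁ := by
    intro hc
    have hallc : ∀ Ξ, CombEquiv (d := 3) T' Φ₁ Ξ := by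
      intro Ξ
      rcases hall Ξ with h | h
      · exact h.comb
      · exact hc.trans h.comb
    obtain ⟨A, B', hAB, -⟩ := two
    apply hAB
    have h1 := (hallc (Flag.map Θ A)).symm.trans (hallc (Flag.map Θ B'))
    have h2 := comb_map Θ.symm h1
    rwa [map_symm_map, map_symm_map] at h2
  have hc := comb_map Θ h
  rcases hall (Flag.map Θ Φ) with h1 | h1 <;> rcases hall (Flag.map Θ Ψ) with h2 | h2
  · exact h1.symm.trans h2
  · exact absurd ((h1.comb.trans hc).trans h2.comb.symm) hn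
  · exact absurd ((h2.comb.trans hc.symm).trans h1.comb.symm) hn
  · exact h1.symm.trans h2

theorem vtx {T' : Set (Set E)} (hT' : IsLFCTiling (d := 3) T') (Θ : L2 ≃o FaceLat (d := 3) T') :
    ∃ θ : E → E, ∀ (F : L2) (w : E), F.1 = {w} → (Θ F).1 = {θ w} := by
  have hbT : (∅ : Set E) ∈ Faces (d := 3) T2 := Or.inl rfl
  have hbT' : (∅ : Set E) ∈ Faces (d := 3) T' := Or.inl rfl
  have hbot : Θ ⟨∅, hbT⟩ = ⟨∅, hbT'⟩ := by
    apply le_antisymm
    · have h1 : (⟨∅, hbT⟩ : L2) ≤ Θ.symm ⟨∅, hbT'⟩ :=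
        show (∅ : Set E) ⊆ _ from Set.empty_subset _
      have := Θ.monotone h1
      rwa [Θ.apply_symm_apply] at this
    · show (∅ : Set E) ⊆ _
      exact Set.empty_subset _
  have key : ∀ w : E, ∃ x : E, ∀ F : L2, F.1 = {w} → (Θ F).1 = {x} := by
    intro w
    by_cases hex : ∃ F : L2, F.1 = {w}
    · obtain ⟨F, hF⟩ := hex
      have hne : (Θ F).1.Nonempty := by
        rw [Set.nonempty_iff_ne_empty]
        intro h
        have h1 : Θ F = Θ ⟨∅, hbT⟩ := by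
          rw [hbot]; exact Subtype.ext h
        have h2 : F = ⟨∅, hbT⟩ := Θ.injective h1
        have h3 : ({w} : Set E) = ∅ := by rw [← hF, h2]
        exact Set.singleton_ne_empty w h3
      obtain ⟨x, hx⟩ := atm T' hT' (Θ F) hne (by
        intro G hG hle
        have h1 : Θ.symm G ≤ F := by
          have := Θ.symm.monotone hle
          rwa [Θ.symm_apply_apply] at this
        have h2 : (Θ.symm G).1 ⊆ {w} := by rw [← hF]; exact h1
        rcases Set.subset_singleton_iff_eq.1 h2 with h3 | h3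
        · exfalso
          have h4 : Θ.symm G = ⟨∅, hbT⟩ := Subtype.ext h3
          have h5 : G = Θ ⟨∅, hbT⟩ := by rw [← h4, Θ.apply_symm_apply]
          rw [hbot] at h5
          rw [h5] at hG
          exact Set.not_nonempty_empty hG
        · have h4 : Θ.symm G = F := Subtype.ext (h3.trans hF.symm)
          rw [← h4, Θ.apply_symm_apply])
      refine ⟨x, fun F' hF' => ?_⟩
      have : F' = F := Subtype.ext (hF'.trans hF.symm)
      rw [this]; exact hx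
    · exact ⟨0, fun F hF => absurd ⟨F, hF⟩ hex⟩
  choose θ hθ using key
  exact ⟨θ, fun F w h => hθ w F h⟩

/-- the six vertices -/
def S6 (w : M) : Prop := (∃ i, w = W i) ∨ w = X3 ∨ w = Y3

theorem trk {T' : Set (Set E)} (hm : MetricTwoOrbit (d := 3) T')
    (Θ : L2 ≃o FaceLat (d := 3) T') (θ : E → E)
    (hθ : ∀ (F : L2) (w : E), F.1 = {w} → (Θ F).1 = {θ w}) (G : L2 ≃o L2) :
    ∃ h : E ≃ᵢ E, ∀ w, S6 w → ∀ F : L2, F.1 = {w.2} → ∀ y : E, (G F).1 = {y} →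
      h (θ w.2) = θ y := by
  -- the chain
  let c : Set L2 := {tfF {2}, tfF {1, 2}, tfF {0, 1, 2}, tfF Finset.univ}
  have l1 : tfF {2} ≤ tfF {1, 2} := tfF_le.2 (by decide)
  have l2 : tfF {1, 2} ≤ tfF {0, 1, 2} := tfF_le.2 (by decide)
  have l3 : tfF {0, 1, 2} ≤ tfF Finset.univ := tfF_le.2 (by decide)
  have hc : IsChain (· ≤ ·) c := by
    intro x hx y hy _
    simp only [c, Set.mem_insert_iff, Set.mem_singleton_iff] at hx hy
    rcases hx with rfl | rfl | rfl | rfl <;> rcases hy with rfl | rfl | rfl | rfl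
    · left; exact le_rfl
    · left; exact l1
    · left; exact l1.trans l2
    · left; exact (l1.trans l2).trans l3
    · right; exact l1
    · left; exact le_rfl
    · left; exact l2
    · left; exact l2.trans l3
    · right; exact l1.trans l2
    · right; exact l2
    · left; exact le_rfl
    · left; exact l3
    · right; exact (l1.trans l2).trans l3
    · right; exact l2.trans l3
    · right; exact l3
    · left; exact le_rfl
  obtain ⟨m, hmx, hcm⟩ := hc.exists_maxChain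
  let Φ : Flag L2 := Flag.ofIsMaxChain m hmx
  have hcΦ : ∀ x ∈ c, x ∈ Φ := fun x hx => hcm hx
  have hGΦ : CombEquiv (d := 3) T2 Φ (Flag.map G Φ) := ⟨G, fun F => mem_map G Φ F⟩
  obtain ⟨h, H, hh1, hH, hh2⟩ := metric_iff.1 (comb_metric hm Θ hGΦ)
  set α : L2 ≃o L2 := ((Θ.trans H).trans Θ.symm).trans G.symm with hα
  have hα1 : ∀ F, α F = G.symm (Θ.symm (H (Θ F))) := fun _ => rfl
  have hαΦ : ∀ F, F ∈ (Φ : Set L2) ↔ α F ∈ (Φ : Set L2) := by
    intro F
    have e1 : F ∈ Φ ↔ Θ F ∈ Flag.map Θ Φ := mem_map Θ Φ F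
    have e2 : Θ F ∈ Flag.map Θ Φ ↔ H (Θ F) ∈ Flag.map Θ (Flag.map G Φ) := hh2 _
    have e3 : H (Θ F) ∈ Flag.map Θ (Flag.map G Φ) ↔ Θ.symm (H (Θ F)) ∈ Flag.map G Φ := by
      rw [mem_map Θ (Flag.map G Φ) (Θ.symm (H (Θ F))), Θ.apply_symm_apply]
    have e4 : Θ.symm (H (Θ F)) ∈ Flag.map G Φ ↔ α F ∈ Φ := by
      rw [mem_map G Φ (α F), hα1, G.apply_symm_apply]
    exact e1.trans (e2.trans (e3.trans e4))
  have hne : ∀ Z, (tfF Z).1 ≠ univ := by
    intro Z hs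
    apply tile_ne_univ tet_T2
    apply Set.eq_univ_of_univ_subset
    rw [← hs]; exact fun x hx => hx.1
  have hfix : ∀ Z, tfF Z ∈ Φ → α (tfF Z) = tfF Z := by
    intro Z hs
    exact JFIX.main _ (Φ : Set L2) Φ.chain_le α hαΦ (tfF Z) hs ((fnb T2 lfc).1 (tfF Z) (hne Z))
  have hrig := rig (hfix _ (hcΦ (tfF {2}) (by simp [c]))) (hfix _ (hcΦ (tfF {1, 2}) (by simp [c])))
    (hfix _ (hcΦ (tfF {0, 1, 2}) (by simp [c]))) (hfix _ (hcΦ (tfF Finset.univ) (by simp [c])))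
  refine ⟨h, ?_⟩
  intro w hw F hF y hy
  have hαF : α F = F := by
    rcases hw with ⟨i, rfl⟩ | rfl | rfl
    · have : F = tfF {i} := Subtype.ext (hF.trans (tfF_pt i).symm)
      rw [this]; exact hrig.1 i
    · exact hrig.2.1 F hF
    · exact hrig.2.2 F hF
  have h1 : H (Θ F) = Θ (G F) := by
    have : Θ.symm (H (Θ F)) = G F := by
      rw [← hαF, hα1]
      rw [G.apply_symm_apply]
      rw [← hα1, hαF]
    rw [← this, Θ.apply_symm_apply]
  have h2 : (H (Θ F)).1 = {h (θ w.2)} := by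
    rw [hH, hθ F w.2 hF, Set.image_singleton]
  have h3 : (Θ (G F)).1 = {θ y} := hθ (G F) y hy
  rw [h1, h3] at h2
  exact (Set.singleton_injective h2).symm

theorem pt_face {w : M} (hw : S6 w) : JACT.Sig DD w ∧ ∃ F : L2, F.1 = {w.2} := by
  rcases hw with ⟨i, rfl⟩ | rfl | rfl
  · exact ⟨sig_W i, tfF {i}, tfF_pt i⟩
  · refine ⟨sig_X3, ?_⟩
    obtain ⟨s, hs, s0, s1, s2, s3, s4, s5, s6, s7, s8⟩ := refl_s
    obtain ⟨G, hG, -⟩ := augp hs
    exact ⟨G (tfF {0}), by rw [hG (W 0) (sig_W 0) _ (tfF_pt 0), s3]⟩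
  · refine ⟨sig_Y3, ?_⟩
    obtain ⟨s, hs, s0, s1, s2, s3, s4, s5, s6, s7, s8⟩ := refl_s
    obtain ⟨G, hG, -⟩ := augp hs
    exact ⟨G (tfF {3}), by rw [hG (W 3) (sig_W 3) _ (tfF_pt 3), s5]⟩

theorem dst {T' : Set (Set E)} (hm : MetricTwoOrbit (d := 3) T')
    (Θ : L2 ≃o FaceLat (d := 3) T') (θ : E → E)
    (hθ : ∀ (F : L2) (w : E), F.1 = {w} → (Θ F).1 = {θ w}) {γ : M ≃ₗ[ℝ] M} (hγ : SymE γ)
    {w w' : M} (hw : S6 w) (hw' : S6 w') :
    dist (θ (γ w).2) (θ (γ w').2) = dist (θ w.2) (θ w'.2) := by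
  obtain ⟨G, hG, -⟩ := augp hγ
  obtain ⟨h, hh⟩ := trk hm Θ θ hθ G
  obtain ⟨s1, F, hF⟩ := pt_face hw
  obtain ⟨s2, F', hF'⟩ := pt_face hw'
  rw [← hh w hw F hF _ (hG w s1 F hF), ← hh w' hw' F' hF' _ (hG w' s2 F' hF')]
  exact h.isometry.dist_eq _ _

theorem nis (T' : Set (Set E)) (hT' : IsLFCTiling (d := 3) T')
    (hm : MetricTwoOrbit (d := 3) T') : IsEmpty (FaceLat (d := 3) T2 ≃o FaceLat (d := 3) T') := by
  refine ⟨fun Θ => ?_⟩
  obtain ⟨θ, hθ⟩ := vtx hT' Θ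
  have D := fun {γ : M ≃ₗ[ℝ] M} (hγ : SymE γ) {w w' : M} (hw : S6 w) (hw' : S6 w') =>
    dst hm Θ θ hθ hγ hw hw'
  have hW : ∀ i, S6 (W i) := fun i => Or.inl ⟨i, rfl⟩
  have hX : S6 X3 := Or.inr (Or.inl rfl)
  have hY : S6 Y3 := Or.inr (Or.inr rfl)
  -- injectivity
  have hinj : ∀ w w' : M, S6 w → S6 w' → w.2 ≠ w'.2 → θ w.2 ≠ θ w'.2 := by
    intro w w' hw hw' hne he
    obtain ⟨-, F, hF⟩ := pt_face hw
    obtain ⟨-, F', hF'⟩ := pt_face hw'
    have h1 := hθ F _ hF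
    have h2 := hθ F' _ hF'
    rw [he, ← h2] at h1
    have h3 : F = F' := Θ.injective (Subtype.ext h1)
    rw [h3, hF'] at hF
    exact hne (Set.singleton_injective hF).symm
  have hp := ph_lo
  have hph3 : (1:ℝ) < ph ^ 3 := by rw [ph3]; linarith
  set r := dist (θ (W 2).2) (θ (W 1).2) with hr
  have hr0 : 0 < r := by
    rw [hr, dist_pos]
    apply hinj _ _ (hW 2) (hW 1)
    intro h
    have : V 2 1 = V 1 1 := congrArg (fun x : E => x 1) h
    rw [V21, V11] at this; norm_num at this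
  have edge : ∀ σ : Equiv.Perm (Fin 4), dist (θ (W (σ 2)).2) (θ (W (σ 1)).2) = r := by
    intro σ
    obtain ⟨γ, hγ, -, h⟩ := act4 σ
    have := D hγ (hW 2) (hW 1)
    rwa [h, h] at this
  have edge' : ∀ (σ : Equiv.Perm (Fin 4)) (i j : Fin 4), σ 2 = i → σ 1 = j →
      dist (θ (W i).2) (θ (W j).2) = r := by
    intro σ i j h1 h2
    rw [← h1, ← h2]; exact edge σ
  have e20 : dist (θ (W 2).2) (θ (W 0).2) = r := edge' (Equiv.swap 0 1) 2 0 (by decide) (by decide)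
  have e23 : dist (θ (W 2).2) (θ (W 3).2) = r := edge' (Equiv.swap 1 3) 2 3 (by decide) (by decide)
  have e01 : dist (θ (W 0).2) (θ (W 1).2) = r := edge' (Equiv.swap 0 2) 0 1 (by decide) (by decide)
  have e31 : dist (θ (W 3).2) (θ (W 1).2) = r := edge' (Equiv.swap 2 3) 3 1 (by decide) (by decide)
  have e03 : dist (θ (W 0).2) (θ (W 3).2) = r :=
    edge' (Equiv.swap 0 2 * Equiv.swap 1 3) 0 3 (by decide) (by decide)
  obtain ⟨s, hs, s0, s1, s2, s3, s4, s5, s6, s7, s8⟩ := refl_s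
  obtain ⟨q, hq, q1, q2, q3, q4, q5, q6⟩ := swap_bc
  obtain ⟨π, hπ, p0, p1, p2, p3, p4, p5⟩ := rot_pi
  have x2 : dist (θ (W 2).2) (θ X3.2) = r := by
    have := D hs (hW 2) (hW 0)
    rw [s2, s3] at this
    rw [this, e20]
  have x1 : dist (θ (W 1).2) (θ X3.2) = r := by
    have := D hs (hW 1) (hW 0)
    rw [s1, s3] at this
    rw [this, dist_comm, e01]
  have y2 : dist (θ (W 2).2) (θ Y3.2) = r := by
    have := D hs (hW 2) (hW 3)
    rw [s2, s5] at this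
    rw [this, e23]
  have y1 : dist (θ (W 1).2) (θ Y3.2) = r := by
    have := D hs (hW 1) (hW 3)
    rw [s1, s5] at this
    rw [this, dist_comm, e31]
  have xy : dist (θ X3.2) (θ Y3.2) = r := by
    have := D hs (hW 0) (hW 3)
    rw [s3, s5] at this
    rw [this, e03]
  set κ := dist (θ (W 0).2) (θ X3.2) with hκ
  have k1 : dist (θ (W 3).2) (θ Y3.2) = κ := by
    have := D hq (hW 0) hX
    rwa [q3, q5] at this
  have k2 : dist (θ (W 0).2) (θ Y3.2) = dist (θ (W 3).2) (θ X3.2) := by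
    have := D hq (hW 0) hY
    rw [q3, q6] at this
    exact this.symm
  have f1 : dist (θ (W 1).2) (θ X4.2) = κ := by
    have := D hπ (hW 0) hX
    rwa [p2, p4] at this
  have f2 : dist (θ (W 2).2) (θ X4.2) = r := by
    have := D hπ (hW 2) hX
    rw [p1, p4] at this
    rw [this, x2]
  have f3 : dist (θ X3.2) (θ X4.2) = r := by
    have := D hπ (hW 1) hX
    rw [p3, p4] at this
    rw [this, x1]
  have f0 : dist (θ (W 0).2) (θ X4.2) = κ := by
    have := D (hπ.trans (hπ.trans hπ)) (hW 0) hX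
    have e1 : (π.trans (π.trans π)) (W 0) = X4 := by
      show π (π (π (W 0))) = X4
      rw [p2, p3, p4]
    have e2 : (π.trans (π.trans π)) X3 = W 0 := by
      show π (π (π X3)) = W 0
      rw [p4, p5]
    rw [e1, e2] at this
    rw [dist_comm, this]
  have n1 : θ (W 0).2 ≠ θ X3.2 := by
    apply hinj _ _ (hW 0) hX
    intro h
    have : V 0 0 = C3 0 := congrArg (fun x : E => x 0) h
    rw [V00, C30] at this; linarith
  have n2 : θ (W 3).2 ≠ θ X3.2 := by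
    apply hinj _ _ (hW 3) hX
    intro h
    have : V 3 0 = C3 0 := congrArg (fun x : E => x 0) h
    rw [V30, C30] at this; linarith
  have hκr := geo1 (θ (W 2).2) (θ (W 1).2) (θ (W 0).2) (θ (W 3).2) (θ X3.2) (θ Y3.2) r κ hr0
    hr.symm e20 e23 x2 y2 (by rw [dist_comm]; exact e01) (by rw [dist_comm]; exact e31) x1 y1 e03 xy
    rfl k1 k2 n1 n2
  exact geo2 (θ (W 2).2) (θ (W 1).2) (θ (W 0).2) (θ X3.2) (θ X4.2) r κ hr0
    hr.symm e20 x2 f2 e01 x1 f3 rfl f1 f0 hκr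

/-- Main statement. -/
theorem main : ∃ T : Set (Set (Eu 3)), IsLFCTiling T ∧ CombTwoOrbit T ∧
    ∀ T' : Set (Set (Eu 3)), IsLFCTiling T' → MetricTwoOrbit T' →
      IsEmpty (FaceLat T ≃o FaceLat T') := ⟨T2, lfc, two, nis⟩

end Pool.Agent.Q293.TO
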