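import Pool.Agent.Q293.TO.Aut

/-! Rigidity. -/

namespace Pool.Agent.Q293.TO
open Pool.Agent.Q293.RT
open Set Topology

theorem B_VE {v : M} (h : v ∈ VE) : B v v = -ph := by
  obtain ⟨γ, hγ, rfl⟩ := h
  rw [hγ.1.form, JABV.B_vs]
  show -(ph * 1) = -ph
  ring

theorem B_mem {x : M} (hx : JACT.Sig DD x) {u : M} (hu : u ∈ DD) (h : x.2 ∈ tile DD u) :
    B x u = - ph ^ 2 := by
  obtain ⟨u', hu', hB⟩ := hx.2
  have hmem : x.2 ∈ tile DD u' := JACT.mem_of_sig pos_DD hu' (t := x.1) (x := x.2) hx hB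
  have h1 : ell u' x.2 = x.1 := (JACT.B_eq_iff (pos_DD u' hu') x.1 x.2).1 hB
  have h2 : ell u x.2 = ell u' x.2 := le_antisymm (hmem u hu) (h u' hu')
  exact (JACT.B_eq_iff (pos_DD u hu) x.1 x.2).2 (h2.trans h1)

theorem B_W (i : Fin 4) (u : M) : B (W i) u = -(ph ^ 2 * u.1) + (V i 0 * u.2 0 + V i 1 * u.2 1 +
    V i 2 * u.2 2) := by
  unfold B W
  rw [Fin.sum_univ_three]
  ring

theorem B_self (u : M) : B u u = -(ph * u.1 ^ 2) + (u.2 0 ^ 2 + u.2 1 ^ 2 + u.2 2 ^ 2) := by
  unfold B
  rw [Fin.sum_univ_three]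
  ring

/-- the three centres through the triangle -/
theorem solve3 {u : M} (hu : u ∈ DD) (h0 : B (W 0) u = - ph ^ 2) (h1 : B (W 1) u = - ph ^ 2)
    (h2 : B (W 2) u = - ph ^ 2) : u = vs ∨ u = u0 := by
  have hp := ph_lo
  have hq := ph_hi
  have k := phsq
  rw [B_W, V00, V01, V02] at h0
  rw [B_W, V10, V11, V12] at h1
  rw [B_W, V20, V21, V22] at h2
  have a1 : u.2 1 = u.2 0 := by linarith
  have a2 : u.2 2 = u.2 0 := by linarith
  have a0 : u.2 0 = ph ^ 2 * (u.1 - 1) := by rw [a1, a2] at h0; linarith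
  have hself := B_self u
  rw [a1, a2, a0] at hself
  set t := u.1 with ht
  have hself' : B u u = ph * (-(t ^ 2) + 3 * (2 * ph + 1) * (t - 1) ^ 2) := by
    rw [hself]
    linear_combination (3 * (t - 1) ^ 2 * (ph ^ 2 + ph)) * k
  have hu' := hu
  rcases hu with hv | ⟨γ, hγ, hγu⟩
  · left
    have h3 := B_VE hv
    rw [hself'] at h3
    have h4 : -(t ^ 2) + 3 * (2 * ph + 1) * (t - 1) ^ 2 = -1 := by
      have : ph * (-(t ^ 2) + 3 * (2 * ph + 1) * (t - 1) ^ 2) = ph * (-1) := by linarith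
      exact mul_left_cancel₀ (by linarith) this
    have hF := fut_DD u hu'
    obtain ⟨γ, hγ, h⟩ := hv
    have hP : PV u := by
      have := hγ.1.pv _ pv_vs
      rwa [h] at this
    have ht1 : t = 1 := by
      rcases f1v hP hF with h5 | h5
      · exact h5
      · exfalso
        have h6 : 3 * (2 * ph + 1) * (t - 1) ^ 2 ≥ 12 * (t - 1) ^ 2 :=
          mul_le_mul_of_nonneg_right (by linarith) (sq_nonneg _)
        have h7 : 1.618 ≤ t := by linarith
        nlinarith
    refine JPAI.vec_ext ht1 ?_ ?_ ?_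
    · rw [a0, ht1]; simp [vs]
    · rw [a1, a0, ht1]; simp [vs]
    · rw [a2, a0, ht1]; simp [vs]
  · right
    have e : u = (ph / 2) • γ w0 := by rw [← hγu]; unfold u0; rw [map_smul]
    have hlow := JF1.main (γ w0) (hγ.1.fut _ fut_w0) (hγ.1.pc _ _ pc_w0).pw
    have ht0 : t = (ph / 2) * (γ w0).1 := by rw [ht, e]; rfl
    have htlow : ph ^ 2 / 2 ≤ t := by rw [ht0]; nlinarith
    have h3 : B u u = - (ph / 2) := by
      rw [← hγu, hγ.1.form, B_u0, B_symm, B_u0, B_w0_w0]
      linear_combination (-ph / 2) * k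
    rw [hself'] at h3
    have h4 : -(t ^ 2) + 3 * (2 * ph + 1) * (t - 1) ^ 2 = -(1 / 2) := by
      have : ph * (-(t ^ 2) + 3 * (2 * ph + 1) * (t - 1) ^ 2) = ph * (-(1 / 2)) := by linarith
      exact mul_left_cancel₀ (by linarith) this
    have ht1 : t = ph ^ 2 / 2 := by
      -- (t - ph^2/2) * (c (t - a)) = 0
      have h5 : (t - ph ^ 2 / 2) * ((6 * ph + 2) * (t + ph ^ 2 / 2) - 12 * ph - 6) = 0 := by
        linear_combination h4 + (7 / 2 + 5 / 2 * ph - 2 * ph ^ 2 - 3 / 2 * ph ^ 3) * k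
      rcases mul_eq_zero.1 h5 with h6 | h6
      · linarith
      · exfalso
        nlinarith
    have hph : ph * (ph / 2) = ph ^ 2 / 2 := by ring
    refine JPAI.vec_ext ?_ ?_ ?_ ?_
    · show t = ph / 2 * ph
      rw [ht1]; ring
    · show u.2 0 = ph / 2 * P0 0
      rw [a0, ht1, P0_apply]; linear_combination (ph ^ 2 / 2 + ph / 2) * k
    · show u.2 1 = ph / 2 * P0 1
      rw [a1, a0, ht1, P0_apply]; linear_combination (ph ^ 2 / 2 + ph / 2) * k
    · show u.2 2 = ph / 2 * P0 2
      rw [a2, a0, ht1, P0_apply]; linear_combination (ph ^ 2 / 2 + ph / 2) * k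

/-- the two tetrahedra through the edge next to the removed vertex -/
theorem solve2 {v : M} (hv : v ∈ Adj) (h1 : B (W 1) v = - ph ^ 2) (h2 : B (W 2) v = - ph ^ 2) :
    v = vs ∨ v = vx := by
  have hp := ph_lo
  have hq := ph_hi
  have k := phsq
  have h0 := hv.2
  rw [B_symm, B_w0] at h0
  rw [B_W, V10, V11, V12] at h1
  rw [B_W, V20, V21, V22] at h2
  have a1 : v.2 1 = 0 := by linarith
  have a2 : v.2 2 = 0 := by linarith
  have a0 : v.2 0 = ph ^ 2 * (v.1 - 1) := by rw [a1, a2] at h0; linarith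
  have hself := B_self v
  rw [B_VE hv.1, a1, a2, a0] at hself
  set t := v.1 with ht
  have h3 : ph * ((t - 1) * (2 * (ph + 1) - 2 * ph * t)) = 0 := by
    linear_combination hself + ((t - 1) ^ 2 * (ph ^ 2 + ph)) * k
  have h4 : (t - 1) * (2 * (ph + 1) - 2 * ph * t) = 0 := by
    rcases mul_eq_zero.1 h3 with h | h
    · exfalso; linarith
    · exact h
  rcases mul_eq_zero.1 h4 with h | h
  · left
    have ht1 : t = 1 := by linarith
    refine JPAI.vec_ext ht1 ?_ ?_ ?_
    · rw [a0, ht1]; simp [vs]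
    · rw [a1]; simp [vs]
    · rw [a2]; simp [vs]
  · right
    have ht1 : t = ph := by
      have : ph * t = ph * ph := by linarith
      exact mul_left_cancel₀ (by linarith) this
    refine JPAI.vec_ext ht1 ?_ ?_ ?_
    · have e : vx.2 0 = ph := by simp [vx]
      rw [a0, ht1, e]; linear_combination (ph) * k
    · rw [a1]; simp [vx]
    · rw [a2]; simp [vx]

theorem B_of_mem {i : Fin 4} {F : Set E} (hi : V i ∈ F) {u : M} (hu : u ∈ DD)
    (h : F ⊆ tile DD u) : B (W i) u = - ph ^ 2 := B_mem (sig_W i) hu (h hi)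

theorem QF_ne : QF ≠ tfF Finset.univ := by
  intro h
  have : tile DD u0 = tf Finset.univ := congrArg Subtype.val h
  apply V3_nQ
  rw [this]; exact V_mem_tf.2 (Finset.mem_univ _)

theorem R_lt_univ : tfF {0, 1, 2} < tfF Finset.univ := by
  refine lt_of_le_of_ne (tfF_le.2 (Finset.subset_univ _)) fun h => ?_
  have := tfF_inj h
  revert this; decide

theorem R_lt_QF : tfF {0, 1, 2} < QF := by
  refine lt_of_le_of_ne (tf_sub_Q.2 (by decide)) fun h => ?_
  have h1 : tf {0, 1, 2} = tile DD u0 := congrArg Subtype.val h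
  have h2 : C3 ∈ tile DD u0 := by
    obtain ⟨s, hs, s0, s1, s2, s3, -⟩ := refl_s
    have := W_Q hs s0 (i := 0) (by decide)
    rw [s3] at this
    exact this
  rw [← h1] at h2
  have := h2.1 0
  rw [lam0, C30, C31, C32, ph3] at this
  have := ph_lo
  linarith

theorem above_R {F : L2} (h : tfF {0, 1, 2} < F) (hu : F.1 ≠ univ) :
    F = tfF Finset.univ ∨ F = QF := by
  have hsub : tf {0, 1, 2} ⊆ F.1 := h.le
  have hV : ∀ i : Fin 4, i ≠ 3 → V i ∈ F.1 := by
    intro i hi
    apply hsub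
    apply V_mem_tf.2
    revert hi; revert i; decide
  have key : F.1 ⊆ tet → F = tfF Finset.univ := by
    intro h'
    obtain ⟨Z, rfl⟩ := below_tet h'
    have h1 : ({0, 1, 2} : Finset (Fin 4)) ⊂ Z := by
      refine Finset.ssubset_iff_subset_ne.2 ⟨tfF_le.1 h.le, fun e => h.ne (by rw [e])⟩
    have h2 := Finset.card_lt_card h1
    have h3 : Z = Finset.univ := by
      apply Finset.eq_univ_of_card
      have := Finset.card_le_univ Z
      have h4 : ({0, 1, 2} : Finset (Fin 4)).card = 3 := by decide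
      rw [h4] at h2
      simp at this ⊢
      omega
    rw [h3]
  rcases F.2 with h1 | h1 | ⟨P, ⟨u, hu', rfl⟩, hF⟩
  · exfalso
    have := hV 0 (by decide)
    rw [h1] at this
    exact this
  · exact absurd h1 hu
  · have hFu : F.1 ⊆ tile DD u := hF.2.1
    rcases solve3 hu' (B_of_mem (hV 0 (by decide)) hu' hFu) (B_of_mem (hV 1 (by decide)) hu' hFu)
      (B_of_mem (hV 2 (by decide)) hu' hFu) with rfl | rfl
    · left
      apply key
      rw [← tile_vs]; exact hFu
    · by_cases hQ : F.1 = tile DD u0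
      · right; exact Subtype.ext hQ
      · exfalso
        obtain ⟨v, hv, hFv⟩ := face_Q hF hQ ⟨_, hV 0 (by decide)⟩
        rcases solve3 (Adj_DD hv) (B_of_mem (hV 0 (by decide)) (Adj_DD hv) hFv)
          (B_of_mem (hV 1 (by decide)) (Adj_DD hv) hFv)
          (B_of_mem (hV 2 (by decide)) (Adj_DD hv) hFv) with rfl | rfl
        · have h3 := key (by rw [← tile_vs]; exact hFv)
          apply V3_nQ
          apply hFu
          rw [h3]; exact V_mem_tf.2 (Finset.mem_univ _)
        · have h3 := hv.2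
          rw [B_u0, B_w0_w0] at h3
          have h4 := phsq
          have h5 := ph_lo
          nlinarith

theorem refl_G : ∃ G : L2 ≃o L2, G QF = QF ∧ G (tfF {1, 2}) = tfF {1, 2} ∧
    G (tfF {2}) = tfF {2} ∧ (∀ F : L2, F.1 ⊆ tile DD vx → (G F).1 ⊆ tet) ∧
    (∀ F : L2, F.1 = {C3} → G F = tfF {0}) ∧ (∀ F : L2, F.1 = {D3} → G F = tfF {3}) := by
  obtain ⟨s, hs, s0, s1, s2, s3, s4, s5, s6, s7, s8⟩ := refl_s
  obtain ⟨G, g, h1, h2, h3⟩ := augm hs
  have hfix : ∀ Z : Finset (Fin 4), 0 ∉ Z → 3 ∉ Z → G (tfF Z) = tfF Z := by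
    intro Z hZ0 hZ3
    apply Subtype.ext
    rw [h1]
    have : ∀ x ∈ tf Z, g x = x := by
      intro x hx
      have e : ((ph, x) : M) = lam 1 x • W 1 + lam 2 x • W 2 := by
        have hs := lam_sum x
        have hr := recon x
        rw [hx.2 0 hZ0, hx.2 3 hZ3] at hs hr
        refine Prod.ext ?_ ?_
        · show ph = lam 1 x * ph + lam 2 x * ph
          linear_combination (-ph) * hs
        · show x = lam 1 x • V 1 + lam 2 x • V 2
          rw [zero_smul, zero_smul, zero_add, add_zero] at hr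
          exact hr
      have h4 : g x = (s (ph, x)).2 := h3 (ph, x) (sig_tet hx.1)
      rw [h4, e, map_add, map_smul, map_smul, s1, s2, ← e]
    show g '' tf Z = tf Z
    rw [Set.image_congr this, Set.image_id']
  have hvx : vx ∈ DD := by rw [← s7]; exact (DD_inv hs _).1 vs_DD
  refine ⟨G, ?_, hfix _ (by decide) (by decide), hfix _ (by decide) (by decide), ?_, ?_, ?_⟩
  · apply Subtype.ext
    rw [h1]
    show g '' tile DD u0 = tile DD u0
    rw [h2 u0 u0_DD]
    have : s u0 = u0 := by unfold u0; rw [map_smul, s0]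
    rw [this]
  · intro F hF
    rw [h1, ← tile_vs, ← s8, ← h2 vx hvx]
    exact Set.image_mono hF
  · intro F hF
    apply Subtype.ext
    rw [h1, hF, Set.image_singleton, tfF_pt]
    have : g C3 = (s X3).2 := h3 X3 sig_X3
    rw [this, s4]
  · intro F hF
    apply Subtype.ext
    rw [h1, hF, Set.image_singleton, tfF_pt]
    have : g D3 = (s Y3).2 := h3 Y3 sig_Y3
    rw [this, s6]

theorem below_eQ {F : L2} (h1 : tfF {1, 2} < F) (h2 : F < QF) {G : L2 ≃o L2}
    (hGQ : G QF = QF) (hGe : G (tfF {1, 2}) = tfF {1, 2})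
    (hGx : ∀ F : L2, F.1 ⊆ tile DD vx → (G F).1 ⊆ tet) :
    F = tfF {0, 1, 2} ∨ G F = tfF {0, 1, 2} := by
  have key : ∀ F : L2, tfF {1, 2} < F → F < QF → F.1 ⊆ tet → F = tfF {0, 1, 2} := by
    intro F h1 h2 h3
    obtain ⟨Z, rfl⟩ := below_tet h3
    have a : 3 ∉ Z := tf_sub_Q.1 h2.le
    have b : ({1, 2} : Finset (Fin 4)) ⊂ Z :=
      Finset.ssubset_iff_subset_ne.2 ⟨tfF_le.1 h1.le, fun e => h1.ne (by rw [e])⟩
    have c := Finset.card_lt_card b
    have d : Z = {0, 1, 2} := by
      apply Finset.eq_of_subset_of_card_le (fin4_sub a)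
      have h4 : ({1, 2} : Finset (Fin 4)).card = 2 := by decide
      have h5 : ({0, 1, 2} : Finset (Fin 4)).card = 3 := by decide
      omega
    rw [d]
  have hsub : tf {1, 2} ⊆ F.1 := h1.le
  have hV1 : V 1 ∈ F.1 := hsub (V_mem_tf.2 (by decide))
  have hV2 : V 2 ∈ F.1 := hsub (V_mem_tf.2 (by decide))
  have hface := (JFIT.main T2 lfc _ Q_T2 F.1 F.2).1 h2.le
  obtain ⟨v, hv, hFv⟩ := face_Q hface (fun h => h2.ne (Subtype.ext h)) ⟨_, hV1⟩
  rcases solve2 hv (B_of_mem hV1 (Adj_DD hv) hFv) (B_of_mem hV2 (Adj_DD hv) hFv) with rfl | rfl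
  · left
    exact key F h1 h2 (by rw [← tile_vs]; exact hFv)
  · right
    apply key (G F)
    · rw [← hGe]; exact G.lt_iff_lt.2 h1
    · rw [← hGQ]; exact G.lt_iff_lt.2 h2
    · exact hGx F hFv

theorem pt_step {α : L2 ≃o L2} {Z : Finset (Fin 4)} (h : α (tfF Z) = tfF Z) {i : Fin 4}
    (hi : i ∈ Z) : ∃ j ∈ Z, α (tfF {i}) = tfF {j} := by
  have h1 : α (tfF {i}) ≤ tfF Z := by
    rw [← h]; exact α.monotone (tfF_le.2 (by simpa using hi))
  obtain ⟨Z', hZ'⟩ := below_tet (F := α (tfF {i})) (fun x hx => (h1 hx).1)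
  have hne : Z'.Nonempty := by
    rw [Finset.nonempty_iff_ne_empty]
    rintro rfl
    have h2 : (α (tfF {i})).1 = ∅ := by rw [hZ']; exact tf_empty
    have h3 := (bot_iff α _).1 h2
    rw [tfF_pt] at h3
    exact Set.singleton_ne_empty _ h3
  obtain ⟨j, hj⟩ := hne
  have h4 : tfF {j} ≤ α (tfF {i}) := by rw [hZ']; exact tfF_le.2 (by simpa using hj)
  have h5 : α.symm (tfF {j}) ≤ tfF {i} := by
    have := α.symm.monotone h4
    rwa [α.symm_apply_apply] at this
  have h6 : (α.symm (tfF {j})).1 ⊆ {(W i).2} := by rw [← tfF_pt]; exact h5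
  have h7 : α.symm (tfF {j}) = tfF {i} := by
    rcases Set.subset_singleton_iff_eq.1 h6 with h7 | h7
    · exfalso
      have := (bot_iff α.symm _).1 h7
      rw [tfF_pt] at this
      exact Set.singleton_ne_empty _ this
    · exact Subtype.ext (h7.trans (tfF_pt i).symm)
  refine ⟨j, ?_, ?_⟩
  · have : tfF {j} ≤ tfF Z := h4.trans h1
    have := tfF_le.1 this
    simpa using this
  · rw [← h7, α.apply_symm_apply]

theorem rig4 {α : L2 ≃o L2} (h1 : α (tfF {2}) = tfF {2}) (h2 : α (tfF {1, 2}) = tfF {1, 2})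
    (h3 : α (tfF {0, 1, 2}) = tfF {0, 1, 2}) (h4 : α (tfF Finset.univ) = tfF Finset.univ) :
    ∀ i, α (tfF {i}) = tfF {i} := by
  have e1 : α (tfF {1}) = tfF {1} := by
    obtain ⟨j, hj, h⟩ := pt_step h2 (i := 1) (by decide)
    have : j ≠ 2 := by
      rintro rfl
      have := tfF_inj (α.injective (h.trans h1.symm))
      revert this; decide
    have : j = 1 := by
      simp only [Finset.mem_insert, Finset.mem_singleton] at hj
      rcases hj with h | h
      · exact h
      · exact absurd h this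
    rw [h, this]
  have e0 : α (tfF {0}) = tfF {0} := by
    obtain ⟨j, hj, h⟩ := pt_step h3 (i := 0) (by decide)
    have n2 : j ≠ 2 := by
      rintro rfl
      have := tfF_inj (α.injective (h.trans h1.symm))
      revert this; decide
    have n1 : j ≠ 1 := by
      rintro rfl
      have := tfF_inj (α.injective (h.trans e1.symm))
      revert this; decide
    have : j = 0 := by
      simp only [Finset.mem_insert, Finset.mem_singleton] at hj
      rcases hj with h | h | h
      · exact h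
      · exact absurd h n1
      · exact absurd h n2
    rw [h, this]
  have e3 : α (tfF {3}) = tfF {3} := by
    obtain ⟨j, hj, h⟩ := pt_step h4 (i := 3) (by decide)
    have n2 : j ≠ 2 := by
      rintro rfl
      have := tfF_inj (α.injective (h.trans h1.symm))
      revert this; decide
    have n1 : j ≠ 1 := by
      rintro rfl
      have := tfF_inj (α.injective (h.trans e1.symm))
      revert this; decide
    have n0 : j ≠ 0 := by
      rintro rfl
      have := tfF_inj (α.injective (h.trans e0.symm))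
      revert this; decide
    have : j = 3 := by omega
    rw [h, this]
  intro i
  fin_cases i
  · exact e0
  · exact e1
  · exact h1
  · exact e3

/-- an automorphism fixing a flag at a tetrahedron fixes the vertices of the tetrahedron and
of the reflected one -/
theorem rig {α : L2 ≃o L2} (h1 : α (tfF {2}) = tfF {2}) (h2 : α (tfF {1, 2}) = tfF {1, 2})
    (h3 : α (tfF {0, 1, 2}) = tfF {0, 1, 2}) (h4 : α (tfF Finset.univ) = tfF Finset.univ) :
    (∀ i, α (tfF {i}) = tfF {i}) ∧ (∀ F : L2, F.1 = {C3} → α F = F) ∧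
      ∀ F : L2, F.1 = {D3} → α F = F := by
  obtain ⟨G, hGQ, hGe, hGp, hGx, hG3, hGd⟩ := refl_G
  have hQu : QF.1 ≠ univ := tile_ne_univ Q_T2
  have hTu : (tfF Finset.univ).1 ≠ univ := by
    show tf Finset.univ ≠ univ
    rw [tf_univ]; exact tile_ne_univ tet_T2
  have hαQ : α QF = QF := by
    have a : tfF {0, 1, 2} < α QF := by rw [← h3]; exact α.lt_iff_lt.2 R_lt_QF
    rcases above_R a (fun h => hQu ((univ_iff α _).1 h)) with h | h
    · exfalso
      exact QF_ne (α.injective (h.trans h4.symm))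
    · exact h
  have symm_of : ∀ {F F' : L2}, G F = F' → G.symm F' = F := by
    intro F F' h
    rw [← h, G.symm_apply_apply]
  set R' : L2 := G.symm (tfF {0, 1, 2}) with hR'
  have hGR' : G R' = tfF {0, 1, 2} := G.apply_symm_apply _
  have heR : tfF {1, 2} < tfF {0, 1, 2} := by
    refine lt_of_le_of_ne (tfF_le.2 (by decide)) fun h => ?_
    have := tfF_inj h
    revert this; decide
  have e1 : tfF {1, 2} < R' := by
    rw [← G.lt_iff_lt, hGR', hGe]; exact heR
  have e2 : R' < QF := by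
    rw [← G.lt_iff_lt, hGR', hGQ]; exact R_lt_QF
  have hαR' : α R' = R' := by
    have a1 : tfF {1, 2} < α R' := by rw [← h2]; exact α.lt_iff_lt.2 e1
    have a2 : α R' < QF := by rw [← hαQ]; exact α.lt_iff_lt.2 e2
    rcases below_eQ a1 a2 hGQ hGe hGx with h | h
    · have : R' = tfF {0, 1, 2} := α.injective (h.trans h3.symm)
      rw [this]; exact h3
    · exact (symm_of h).symm
  set T' : L2 := G.symm (tfF Finset.univ) with hT'
  have hGT' : G T' = tfF Finset.univ := G.apply_symm_apply _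
  have e3 : R' < T' := by
    rw [← G.lt_iff_lt, hGR', hGT']; exact R_lt_univ
  have hαT' : α T' = T' := by
    have a1 : tfF {0, 1, 2} < G (α T') := by
      rw [← hGR', G.lt_iff_lt, ← hαR']
      exact α.lt_iff_lt.2 e3
    have a2 : (G (α T')).1 ≠ univ := by
      intro h
      have b1 := (univ_iff α _).1 ((univ_iff G _).1 h)
      have b2 := (univ_iff G T').2 b1
      rw [hGT'] at b2
      exact hTu b2
    rcases above_R a1 a2 with h | h
    · exact (symm_of h).symm
    · have b1 : α T' = QF := G.injective (h.trans hGQ.symm)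
      have b2 : T' = QF := α.injective (b1.trans hαQ.symm)
      rw [b2]; exact hαQ
  set β : L2 ≃o L2 := (G.symm.trans α).trans G with hβ
  have hβ1 : ∀ F, β F = G (α (G.symm F)) := fun _ => rfl
  have hβfix := rig4 (α := β)
    (by rw [hβ1, symm_of hGp, h1, hGp])
    (by rw [hβ1, symm_of hGe, h2, hGe])
    (by rw [hβ1, ← hR', hαR', hGR'])
    (by rw [hβ1, ← hT', hαT', hGT'])
  refine ⟨rig4 h1 h2 h3 h4, fun F hF => ?_, fun F hF => ?_⟩
  · have a := hG3 F hF
    have b := hβfix 0
    rw [hβ1, symm_of a, ← a] at b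
    exact G.injective b
  · have a := hGd F hF
    have b := hβfix 3
    rw [hβ1, symm_of a, ← a] at b
    exact G.injective b

end Pool.Agent.Q293.TO
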