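import Pool.Agent.Q293.TO.Env
import Pool.Agent.Q293.RT.JPAI

/-! The symmetric group acting on the tetrahedron. -/

namespace Pool.Agent.Q293.TO
open Pool.Agent.Q293.RT
open Set

noncomputable def N0 : E := !₂[-1, -1, -1]

/-- the vertices of the tetrahedron -/
noncomputable def V : Fin 4 → E := ![B0, A0, Q0, N0]

/-- the lift of a vertex -/
noncomputable def W (i : Fin 4) : M := (ph, V i)

theorem V00 : V 0 0 = -1 := by simp [V, B0]
theorem V01 : V 0 1 = 1 := by simp [V, B0]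
theorem V02 : V 0 2 = 1 := by simp [V, B0]
theorem V10 : V 1 0 = 1 := by simp [V, A0]
theorem V11 : V 1 1 = -1 := by simp [V, A0]
theorem V12 : V 1 2 = 1 := by simp [V, A0]
theorem V20 : V 2 0 = 1 := by simp [V, Q0]
theorem V21 : V 2 1 = 1 := by simp [V, Q0]
theorem V22 : V 2 2 = -1 := by simp [V, Q0]
theorem V30 : V 3 0 = -1 := by simp [V, N0]
theorem V31 : V 3 1 = -1 := by simp [V, N0]
theorem V32 : V 3 2 = -1 := by simp [V, N0]

/-- the action -/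
def Act4 (σ : Equiv.Perm (Fin 4)) : Prop :=
  ∃ γ : M ≃ₗ[ℝ] M, SymE γ ∧ γ vs = vs ∧ ∀ i, γ (W i) = W (σ i)

theorem gpvs {γ : M ≃ₗ[ℝ] M} {σ : Equiv.Perm (Fin 3)} {e : Fin 3 → SignType}
    (h : ∀ y : M, (γ y).1 = y.1 ∧ ∀ i, (γ y).2 i = (e i : ℝ) * y.2 (σ i)) : γ vs = vs := by
  ext i
  · rw [(h vs).1]
  · rw [(h vs).2 i]; simp [vs]

theorem act01 : Act4 (Equiv.swap 0 1) := by
  obtain ⟨γ, hγ, h⟩ := gp (Equiv.swap 0 1) (fun _ => 1) (fun _ => one_ne_zero) (by decide)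
  refine ⟨γ, hγ, gpvs h, fun i => ?_⟩
  have e0 : Equiv.swap (0 : Fin 3) 1 0 = 1 := by decide
  have e1 : Equiv.swap (0 : Fin 3) 1 1 = 0 := by decide
  have e2 : Equiv.swap (0 : Fin 3) 1 2 = 2 := by decide
  have f0 : Equiv.swap (0 : Fin 4) 1 0 = 1 := by decide
  have f1 : Equiv.swap (0 : Fin 4) 1 1 = 0 := by decide
  have f2 : Equiv.swap (0 : Fin 4) 1 2 = 2 := by decide
  have f3 : Equiv.swap (0 : Fin 4) 1 3 = 3 := by decide
  refine JPAI.vec_ext ?_ ?_ ?_ ?_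
  · rw [(h _).1]; rfl
  · rw [(h _).2, e0]
    show ((1 : SignType) : ℝ) * V i 1 = V _ 0
    fin_cases i
    · show ((1 : SignType) : ℝ) * V 0 1 = V (Equiv.swap (0 : Fin 4) 1 0) 0
      rw [f0, V01, V10]; simp
    · show ((1 : SignType) : ℝ) * V 1 1 = V (Equiv.swap (0 : Fin 4) 1 1) 0
      rw [f1, V11, V00]; simp
    · show ((1 : SignType) : ℝ) * V 2 1 = V (Equiv.swap (0 : Fin 4) 1 2) 0
      rw [f2, V21, V20]; simp
    · show ((1 : SignType) : ℝ) * V 3 1 = V (Equiv.swap (0 : Fin 4) 1 3) 0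
      rw [f3, V31, V30]; simp
  · rw [(h _).2, e1]
    show ((1 : SignType) : ℝ) * V i 0 = V _ 1
    fin_cases i
    · show ((1 : SignType) : ℝ) * V 0 0 = V (Equiv.swap (0 : Fin 4) 1 0) 1
      rw [f0, V00, V11]; simp
    · show ((1 : SignType) : ℝ) * V 1 0 = V (Equiv.swap (0 : Fin 4) 1 1) 1
      rw [f1, V10, V01]; simp
    · show ((1 : SignType) : ℝ) * V 2 0 = V (Equiv.swap (0 : Fin 4) 1 2) 1
      rw [f2, V20, V21]; simp
    · show ((1 : SignType) : ℝ) * V 3 0 = V (Equiv.swap (0 : Fin 4) 1 3) 1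
      rw [f3, V30, V31]; simp
  · rw [(h _).2, e2]
    show ((1 : SignType) : ℝ) * V i 2 = V _ 2
    fin_cases i
    · show ((1 : SignType) : ℝ) * V 0 2 = V (Equiv.swap (0 : Fin 4) 1 0) 2
      rw [f0, V02, V12]; simp
    · show ((1 : SignType) : ℝ) * V 1 2 = V (Equiv.swap (0 : Fin 4) 1 1) 2
      rw [f1, V12, V02]; simp
    · show ((1 : SignType) : ℝ) * V 2 2 = V (Equiv.swap (0 : Fin 4) 1 2) 2
      rw [f2, V22]; simp
    · show ((1 : SignType) : ℝ) * V 3 2 = V (Equiv.swap (0 : Fin 4) 1 3) 2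
      rw [f3, V32]; simp

theorem act12 : Act4 (Equiv.swap 1 2) := by
  obtain ⟨γ, hγ, h⟩ := gp (Equiv.swap 1 2) (fun _ => 1) (fun _ => one_ne_zero) (by decide)
  refine ⟨γ, hγ, gpvs h, fun i => ?_⟩
  have e0 : Equiv.swap (1 : Fin 3) 2 0 = 0 := by decide
  have e1 : Equiv.swap (1 : Fin 3) 2 1 = 2 := by decide
  have e2 : Equiv.swap (1 : Fin 3) 2 2 = 1 := by decide
  have f0 : Equiv.swap (1 : Fin 4) 2 0 = 0 := by decide
  have f1 : Equiv.swap (1 : Fin 4) 2 1 = 2 := by decide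
  have f2 : Equiv.swap (1 : Fin 4) 2 2 = 1 := by decide
  have f3 : Equiv.swap (1 : Fin 4) 2 3 = 3 := by decide
  refine JPAI.vec_ext ?_ ?_ ?_ ?_
  · rw [(h _).1]; rfl
  · rw [(h _).2, e0]
    show ((1 : SignType) : ℝ) * V i 0 = V _ 0
    fin_cases i
    · show ((1 : SignType) : ℝ) * V 0 0 = V (Equiv.swap (1 : Fin 4) 2 0) 0
      rw [f0, V00]; simp
    · show ((1 : SignType) : ℝ) * V 1 0 = V (Equiv.swap (1 : Fin 4) 2 1) 0
      rw [f1, V10, V20]; simp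
    · show ((1 : SignType) : ℝ) * V 2 0 = V (Equiv.swap (1 : Fin 4) 2 2) 0
      rw [f2, V20, V10]; simp
    · show ((1 : SignType) : ℝ) * V 3 0 = V (Equiv.swap (1 : Fin 4) 2 3) 0
      rw [f3, V30]; simp
  · rw [(h _).2, e1]
    show ((1 : SignType) : ℝ) * V i 2 = V _ 1
    fin_cases i
    · show ((1 : SignType) : ℝ) * V 0 2 = V (Equiv.swap (1 : Fin 4) 2 0) 1
      rw [f0, V02, V01]; simp
    · show ((1 : SignType) : ℝ) * V 1 2 = V (Equiv.swap (1 : Fin 4) 2 1) 1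
      rw [f1, V12, V21]; simp
    · show ((1 : SignType) : ℝ) * V 2 2 = V (Equiv.swap (1 : Fin 4) 2 2) 1
      rw [f2, V22, V11]; simp
    · show ((1 : SignType) : ℝ) * V 3 2 = V (Equiv.swap (1 : Fin 4) 2 3) 1
      rw [f3, V32, V31]; simp
  · rw [(h _).2, e2]
    show ((1 : SignType) : ℝ) * V i 1 = V _ 2
    fin_cases i
    · show ((1 : SignType) : ℝ) * V 0 1 = V (Equiv.swap (1 : Fin 4) 2 0) 2
      rw [f0, V01, V02]; simp
    · show ((1 : SignType) : ℝ) * V 1 1 = V (Equiv.swap (1 : Fin 4) 2 1) 2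
      rw [f1, V11, V22]; simp
    · show ((1 : SignType) : ℝ) * V 2 1 = V (Equiv.swap (1 : Fin 4) 2 2) 2
      rw [f2, V21, V12]; simp
    · show ((1 : SignType) : ℝ) * V 3 1 = V (Equiv.swap (1 : Fin 4) 2 3) 2
      rw [f3, V31, V32]; simp

theorem act23 : Act4 (Equiv.swap 2 3) := by
  obtain ⟨γ, hγ, h⟩ := gp (Equiv.swap 0 1) ![-1, -1, 1]
    (fun i => by fin_cases i <;> decide) (by decide)
  refine ⟨γ, hγ, gpvs h, fun i => ?_⟩
  have e0 : Equiv.swap (0 : Fin 3) 1 0 = 1 := by decide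
  have e1 : Equiv.swap (0 : Fin 3) 1 1 = 0 := by decide
  have e2 : Equiv.swap (0 : Fin 3) 1 2 = 2 := by decide
  have f0 : Equiv.swap (2 : Fin 4) 3 0 = 0 := by decide
  have f1 : Equiv.swap (2 : Fin 4) 3 1 = 1 := by decide
  have f2 : Equiv.swap (2 : Fin 4) 3 2 = 3 := by decide
  have f3 : Equiv.swap (2 : Fin 4) 3 3 = 2 := by decide
  refine JPAI.vec_ext ?_ ?_ ?_ ?_
  · rw [(h _).1]; rfl
  · rw [(h _).2, e0]
    show ((-1 : SignType) : ℝ) * V i 1 = V _ 0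
    fin_cases i
    · show ((-1 : SignType) : ℝ) * V 0 1 = V (Equiv.swap (2 : Fin 4) 3 0) 0
      rw [f0, V01, V00]; simp
    · show ((-1 : SignType) : ℝ) * V 1 1 = V (Equiv.swap (2 : Fin 4) 3 1) 0
      rw [f1, V11, V10]; simp
    · show ((-1 : SignType) : ℝ) * V 2 1 = V (Equiv.swap (2 : Fin 4) 3 2) 0
      rw [f2, V21, V30]; simp
    · show ((-1 : SignType) : ℝ) * V 3 1 = V (Equiv.swap (2 : Fin 4) 3 3) 0
      rw [f3, V31, V20]; simp
  · rw [(h _).2, e1]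
    show ((-1 : SignType) : ℝ) * V i 0 = V _ 1
    fin_cases i
    · show ((-1 : SignType) : ℝ) * V 0 0 = V (Equiv.swap (2 : Fin 4) 3 0) 1
      rw [f0, V00, V01]; simp
    · show ((-1 : SignType) : ℝ) * V 1 0 = V (Equiv.swap (2 : Fin 4) 3 1) 1
      rw [f1, V10, V11]; simp
    · show ((-1 : SignType) : ℝ) * V 2 0 = V (Equiv.swap (2 : Fin 4) 3 2) 1
      rw [f2, V20, V31]; simp
    · show ((-1 : SignType) : ℝ) * V 3 0 = V (Equiv.swap (2 : Fin 4) 3 3) 1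
      rw [f3, V30, V21]; simp
  · rw [(h _).2, e2]
    show ((1 : SignType) : ℝ) * V i 2 = V _ 2
    fin_cases i
    · show ((1 : SignType) : ℝ) * V 0 2 = V (Equiv.swap (2 : Fin 4) 3 0) 2
      rw [f0, V02]; simp
    · show ((1 : SignType) : ℝ) * V 1 2 = V (Equiv.swap (2 : Fin 4) 3 1) 2
      rw [f1, V12]; simp
    · show ((1 : SignType) : ℝ) * V 2 2 = V (Equiv.swap (2 : Fin 4) 3 2) 2
      rw [f2, V22, V32]; simp
    · show ((1 : SignType) : ℝ) * V 3 2 = V (Equiv.swap (2 : Fin 4) 3 3) 2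
      rw [f3, V32, V22]; simp

theorem act4 (σ : Equiv.Perm (Fin 4)) : Act4 σ := by
  have h : σ ∈ Submonoid.closure (Set.range fun i : Fin 3 => Equiv.swap i.castSucc i.succ) := by
    rw [Equiv.Perm.mclosure_swap_castSucc_succ]; trivial
  induction h using Submonoid.closure_induction with
  | mem x hx =>
    obtain ⟨i, rfl⟩ := hx
    fin_cases i
    · exact act01
    · exact act12
    · exact act23
  | one => exact ⟨LinearEquiv.refl ℝ M, SymE.refl, rfl, fun i => rfl⟩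
  | mul x y _ _ hx hy =>
    obtain ⟨γ, h1, h2, h3⟩ := hx
    obtain ⟨δ, k1, k2, k3⟩ := hy
    refine ⟨δ.trans γ, k1.trans h1, ?_, fun i => ?_⟩
    · show γ (δ vs) = vs
      rw [k2, h2]
    · show γ (δ (W i)) = _
      rw [k3, h3]; rfl

theorem w0_eq : w0 = (2 * ph) • vs - W 3 := by
  refine JPAI.vec_ext ?_ ?_ ?_ ?_
  · show ph = 2 * ph * 1 - ph; ring
  · show P0 0 = 2 * ph * 0 - V 3 0
    rw [P0_apply, V30]; ring
  · show P0 1 = 2 * ph * 0 - V 3 1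
    rw [P0_apply, V31]; ring
  · show P0 2 = 2 * ph * 0 - V 3 2
    rw [P0_apply, V32]; ring

/-- the action on the removed vertex -/
theorem act_w0 {γ : M ≃ₗ[ℝ] M} {σ : Equiv.Perm (Fin 4)} (h1 : γ vs = vs)
    (h2 : ∀ i, γ (W i) = W (σ i)) : γ w0 = (2 * ph) • vs - W (σ 3) := by
  rw [w0_eq, map_sub, map_smul, h1, h2]

end Pool.Agent.Q293.TO
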