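import Pool.Agent.Q293.TO.S4
import Pool.Agent.Q293.RT.JACT

/-! The tetrahedral tile. -/

namespace Pool.Agent.Q293.TO
open Pool.Agent.Q293.RT
open Set Topology

/-- barycentric coordinates -/
noncomputable def lam (i : Fin 4) (x : E) : ℝ := (1 + (V i 0 * x 0 + V i 1 * x 1 + V i 2 * x 2)) / 4

theorem lam0 (x : E) : lam 0 x = (1 - x 0 + x 1 + x 2) / 4 := by
  unfold lam; rw [V00, V01, V02]; ring
theorem lam1 (x : E) : lam 1 x = (1 + x 0 - x 1 + x 2) / 4 := by
  unfold lam; rw [V10, V11, V12]; ring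
theorem lam2 (x : E) : lam 2 x = (1 + x 0 + x 1 - x 2) / 4 := by
  unfold lam; rw [V20, V21, V22]; ring
theorem lam3 (x : E) : lam 3 x = (1 - x 0 - x 1 - x 2) / 4 := by
  unfold lam; rw [V30, V31, V32]; ring

theorem lam_sum (x : E) : lam 0 x + lam 1 x + lam 2 x + lam 3 x = 1 := by
  rw [lam0, lam1, lam2, lam3]; ring

theorem lam_V (i j : Fin 4) : lam i (V j) = if i = j then 1 else 0 := by
  fin_cases i <;> fin_cases j <;>
    simp only [Fin.zero_eta, Fin.mk_one, Fin.reduceFinMk, lam0, lam1, lam2, lam3, V00, V01, V02,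
      V10, V11, V12, V20, V21, V22, V30, V31, V32] <;> norm_num <;> decide

theorem lam_comb (i : Fin 4) (x y : E) {a b : ℝ} (h : a + b = 1) :
    lam i (a • x + b • y) = a * lam i x + b * lam i y := by
  unfold lam
  simp only [PiLp.add_apply, PiLp.smul_apply, smul_eq_mul]
  linear_combination (-1/4) * h

theorem lam_cont (i : Fin 4) : Continuous (lam i) := by
  unfold lam
  fun_prop

theorem recon (x : E) : x = lam 0 x • V 0 + lam 1 x • V 1 + lam 2 x • V 2 + lam 3 x • V 3 := by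
  ext j
  simp only [PiLp.add_apply, PiLp.smul_apply, smul_eq_mul, lam0, lam1, lam2, lam3]
  fin_cases j
  · show x 0 = (1 - x 0 + x 1 + x 2) / 4 * V 0 0 + (1 + x 0 - x 1 + x 2) / 4 * V 1 0 +
      (1 + x 0 + x 1 - x 2) / 4 * V 2 0 + (1 - x 0 - x 1 - x 2) / 4 * V 3 0
    rw [V00, V10, V20, V30]; ring
  · show x 1 = (1 - x 0 + x 1 + x 2) / 4 * V 0 1 + (1 + x 0 - x 1 + x 2) / 4 * V 1 1 +
      (1 + x 0 + x 1 - x 2) / 4 * V 2 1 + (1 - x 0 - x 1 - x 2) / 4 * V 3 1
    rw [V01, V11, V21, V31]; ring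
  · show x 2 = (1 - x 0 + x 1 + x 2) / 4 * V 0 2 + (1 + x 0 - x 1 + x 2) / 4 * V 1 2 +
      (1 + x 0 + x 1 - x 2) / 4 * V 2 2 + (1 - x 0 - x 1 - x 2) / 4 * V 3 2
    rw [V02, V12, V22, V32]; ring

/-- the faces of the tetrahedron -/
def tf (Z : Finset (Fin 4)) : Set E := {x | (∀ i, 0 ≤ lam i x) ∧ ∀ i, i ∉ Z → lam i x = 0}

/-- the tetrahedron -/
def tet : Set E := {x | ∀ i, 0 ≤ lam i x}

theorem tf_univ : tf Finset.univ = tet := by
  ext x
  exact ⟨fun h => h.1, fun h => ⟨h, fun i hi => absurd (Finset.mem_univ i) hi⟩⟩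

theorem V_mem_tf {i : Fin 4} {Z : Finset (Fin 4)} : V i ∈ tf Z ↔ i ∈ Z := by
  constructor
  · intro h
    by_contra hi
    have := h.2 i hi
    rw [lam_V, if_pos rfl] at this
    exact one_ne_zero this
  · intro h
    refine ⟨fun j => ?_, fun j hj => ?_⟩
    · rw [lam_V]; split_ifs <;> norm_num
    · rw [lam_V, if_neg]
      rintro rfl
      exact hj h

theorem tf_subset {Z Z' : Finset (Fin 4)} : tf Z ⊆ tf Z' ↔ Z ⊆ Z' := by
  constructor
  · intro h i hi
    exact V_mem_tf.1 (h (V_mem_tf.2 hi))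
  · intro h x hx
    exact ⟨hx.1, fun i hi => hx.2 i fun h' => hi (h h')⟩

theorem tf_inj {Z Z' : Finset (Fin 4)} (h : tf Z = tf Z') : Z = Z' :=
  Finset.Subset.antisymm (tf_subset.1 h.subset) (tf_subset.1 h.symm.subset)

theorem tf_empty : tf ∅ = ∅ := by
  ext x
  constructor
  · intro h
    have := lam_sum x
    rw [h.2 0 (by simp), h.2 1 (by simp), h.2 2 (by simp), h.2 3 (by simp)] at this
    norm_num at this
  · intro h; exact h.elim

theorem tf_single (i : Fin 4) : tf {i} = {V i} := by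
  apply Subset.antisymm
  · intro x hx
    have h1 := lam_sum x
    have h2 : ∀ j, j ≠ i → lam j x = 0 := fun j hj => hx.2 j (by simpa using hj)
    have h3 := recon x
    show x = V i
    fin_cases i
    · have a1 := h2 1 (by decide)
      have a2 := h2 2 (by decide)
      have a3 := h2 3 (by decide)
      have a0 : lam 0 x = 1 := by linarith
      rw [a0, a1, a2, a3] at h3
      simpa using h3
    · have a1 := h2 0 (by decide)
      have a2 := h2 2 (by decide)
      have a3 := h2 3 (by decide)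
      have a0 : lam 1 x = 1 := by linarith
      rw [a0, a1, a2, a3] at h3
      simpa using h3
    · have a1 := h2 0 (by decide)
      have a2 := h2 1 (by decide)
      have a3 := h2 3 (by decide)
      have a0 : lam 2 x = 1 := by linarith
      rw [a0, a1, a2, a3] at h3
      simpa using h3
    · have a1 := h2 0 (by decide)
      have a2 := h2 1 (by decide)
      have a3 := h2 2 (by decide)
      have a0 : lam 3 x = 1 := by linarith
      rw [a0, a1, a2, a3] at h3
      simpa using h3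
  · rintro _ rfl
    exact V_mem_tf.2 (by simp)

theorem V_tet (i : Fin 4) : V i ∈ tet := by
  rw [← tf_univ]; exact V_mem_tf.2 (Finset.mem_univ _)

theorem convex_tet : Convex ℝ tet := by
  intro x hx y hy a b ha hb hab i
  rw [lam_comb i x y hab]
  exact add_nonneg (mul_nonneg ha (hx i)) (mul_nonneg hb (hy i))

theorem tet_hull : tet = convexHull ℝ ((Finset.univ.image V : Finset E) : Set E) := by
  apply Subset.antisymm
  · intro x hx
    rw [recon x]
    have hV : ∀ i, V i ∈ convexHull ℝ ((Finset.univ.image V : Finset E) : Set E) := by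
      intro i
      apply subset_convexHull
      simp
    have h := (convex_convexHull ℝ ((Finset.univ.image V : Finset E) : Set E)).sum_mem
      (t := (Finset.univ : Finset (Fin 4))) (w := fun i => lam i x) (z := V)
      (fun i _ => hx i) (by rw [Fin.sum_univ_four]; exact lam_sum x) (fun i _ => hV i)
    rw [Fin.sum_univ_four] at h
    exact h
  · apply convexHull_min _ convex_tet
    intro x hx
    simp only [Finset.coe_image, Finset.coe_univ, Set.image_univ, Set.mem_range] at hx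
    obtain ⟨i, rfl⟩ := hx
    exact V_tet i

theorem tet_interior : (interior tet).Nonempty := by
  refine ⟨0, ?_⟩
  rw [mem_interior_iff_mem_nhds]
  have : ∀ᶠ x in 𝓝 (0 : E), ∀ i, 0 ≤ lam i x := by
    rw [Filter.eventually_all]
    intro i
    have h : ∀ᶠ x in 𝓝 (0 : E), 0 < lam i x := by
      apply (lam_cont i).continuousAt.eventually
      apply isOpen_Ioi.mem_nhds
      show 0 < lam i 0
      unfold lam
      simp
    exact h.mono fun x hx => hx.le
  exact this

/-! ### vertices -/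

theorem B_Wvs (i : Fin 4) : B (W i) vs = - ph ^ 2 := by
  rw [JABV.B_vs]
  show -(ph * ph) = _
  ring

theorem B_Ww0 {i : Fin 4} (h : i ≠ 3) : B (W i) w0 = -(2 * ph) := by
  rw [B_w0]
  unfold W
  have := phsq
  fin_cases i
  · show -(ph ^ 2 * ph) + (V 0 0 + V 0 1 + V 0 2) = _
    rw [V00, V01, V02]; linear_combination (-(ph + 1)) * this
  · show -(ph ^ 2 * ph) + (V 1 0 + V 1 1 + V 1 2) = _
    rw [V10, V11, V12]; linear_combination (-(ph + 1)) * this
  · show -(ph ^ 2 * ph) + (V 2 0 + V 2 1 + V 2 2) = _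
    rw [V20, V21, V22]; linear_combination (-(ph + 1)) * this
  · exact absurd rfl h

theorem B_WW (i : Fin 4) : B (W i) (W i) = 2 - 2 * ph := by
  unfold B W
  rw [Fin.sum_univ_three]
  have := phsq
  fin_cases i
  · show -(ph * ph * ph) + (V 0 0 * V 0 0 + V 0 1 * V 0 1 + V 0 2 * V 0 2) = _
    rw [V00, V01, V02]; linear_combination (-(ph + 1)) * this
  · show -(ph * ph * ph) + (V 1 0 * V 1 0 + V 1 1 * V 1 1 + V 1 2 * V 1 2) = _
    rw [V10, V11, V12]; linear_combination (-(ph + 1)) * this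
  · show -(ph * ph * ph) + (V 2 0 * V 2 0 + V 2 1 * V 2 1 + V 2 2 * V 2 2) = _
    rw [V20, V21, V22]; linear_combination (-(ph + 1)) * this
  · show -(ph * ph * ph) + (V 3 0 * V 3 0 + V 3 1 * V 3 1 + V 3 2 * V 3 2) = _
    rw [V30, V31, V32]; linear_combination (-(ph + 1)) * this

theorem fut_W (i : Fin 4) : Fut (W i) := by
  have := ph_lo
  refine ⟨by show 0 < ph; linarith, ?_⟩
  rw [B_WW]; linarith

theorem pc_W0 : PC 1 (W 0) := by
  refine ⟨0, 0, ![-1, 0, 0], 0, ⟨?_, ?_⟩, ?_, ?_, ?_⟩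
  · simp [W]
  · intro i
    fin_cases i
    · show V 0 0 = _
      rw [V00]; simp
    · show V 0 1 = _
      rw [V01]; simp
    · show V 0 2 = _
      rw [V02]; simp
  · unfold cform
    have := pssq
    rw [Fin.sum_univ_three]
    simp only [Pi.zero_apply, mul_zero, Int.cast_zero, zero_add, zero_mul, add_zero, Int.cast_one,
      Matrix.cons_val_zero, Matrix.cons_val_one, Matrix.cons_val]
    push_cast
    linear_combination (-(ps + 1)) * this
  · simp
  · simp

theorem pc_W (i : Fin 4) : PC 1 (W i) := by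
  obtain ⟨γ, hγ, -, h⟩ := act4 (Equiv.swap 0 i)
  have := h 0
  rw [Equiv.swap_apply_left] at this
  rw [← this]
  exact hγ.1.pc _ _ pc_W0

/-- JOB vertex inequality -/
theorem vtx_le {w : M} (hP : PC 1 w) (hF : Fut w) : ∀ u ∈ DD, B w u ≤ - ph ^ 2 := by
  have hp := ph_lo
  rintro u (⟨γ, hγ, rfl⟩ | ⟨γ, hγ, rfl⟩)
  · have e : B w (γ vs) = B (γ.symm w) vs := by
      rw [← hγ.1.form (γ.symm w) vs, LinearEquiv.apply_symm_apply]
    rw [e, JABV.B_vs]
    have := JF1.main (γ.symm w) (hγ.symm.1.fut _ hF) (hγ.symm.1.pc _ _ hP).pw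
    nlinarith
  · have e : B w (γ u0) = B (γ.symm w) u0 := by
      rw [← hγ.1.form (γ.symm w) u0, LinearEquiv.apply_symm_apply]
    rw [e, B_u0, B_symm]
    have := nb pc_w0 (hγ.symm.1.pc _ _ hP) fut_w0 (hγ.symm.1.fut _ hF) (by
      rw [B_w0_w0]; linarith)
    nlinarith

/-- reverse Cauchy-Schwarz for vectors of the same norm -/
theorem rcs {y z : M} {m : ℝ} (hm : 0 < m) (hy : 0 < y.1) (hz : 0 < z.1) (hyy : B y y = -m)
    (hzz : B z z = -m) : B y z ≤ -m := by
  have hp : (0:ℝ) < ph := Real.goldenRatio_pos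
  unfold B at *
  have hcs : (∑ i, y.2 i * z.2 i) ^ 2 ≤ (∑ i, (y.2 i) ^ 2) * ∑ i, (z.2 i) ^ 2 :=
    Finset.sum_mul_sq_le_sq_mul_sq _ _ _
  have e1 : ∑ i, (y.2 i) ^ 2 = ∑ i, y.2 i * y.2 i := Finset.sum_congr rfl fun i _ => sq _
  have e2 : ∑ i, (z.2 i) ^ 2 = ∑ i, z.2 i * z.2 i := Finset.sum_congr rfl fun i _ => sq _
  rw [e1, e2] at hcs
  have h2 : 2 * (∑ i, y.2 i * z.2 i) ≤ ∑ i, y.2 i * y.2 i + ∑ i, z.2 i * z.2 i := by
    simp only [Fin.sum_univ_three]
    nlinarith [sq_nonneg (y.2 0 - z.2 0), sq_nonneg (y.2 1 - z.2 1), sq_nonneg (y.2 2 - z.2 2)]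
  set Y := ∑ i, y.2 i * y.2 i
  set Z := ∑ i, z.2 i * z.2 i
  set S := ∑ i, y.2 i * z.2 i
  have hY : ph * y.1 * y.1 = m + Y := by linarith
  have hZ : ph * z.1 * z.1 = m + Z := by linarith
  have hle : (m + S) ^ 2 ≤ (ph * y.1 * z.1) ^ 2 := by
    have : (ph * y.1 * z.1) ^ 2 = (ph * y.1 * y.1) * (ph * z.1 * z.1) := by ring
    rw [this, hY, hZ]
    nlinarith
  have := abs_le_of_sq_le_sq hle (by positivity)
  have := le_abs_self (m + S)
  linarith

/-- facets of the tetrahedron -/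
theorem cut_mem (i : Fin 4) : ∃ u ∈ DD, ∀ t x, B (t, x) u = (ph / 2) * (-(ph ^ 2 * t) -
    (V i 0 * x 0 + V i 1 * x 1 + V i 2 * x 2)) := by
  obtain ⟨γ, hγ, h1, h2⟩ := act4 (Equiv.swap 3 i)
  have h3 := act_w0 h1 h2
  rw [Equiv.swap_apply_left] at h3
  refine ⟨γ u0, (DD_inv hγ _).1 u0_DD, fun t x => ?_⟩
  have : γ u0 = (ph / 2) • ((2 * ph) • vs - W i) := by unfold u0; rw [map_smul, h3]
  rw [this, B_smul]
  congr 1
  unfold B
  rw [Fin.sum_univ_three]
  show -(ph * t * (2 * ph * 1 - ph)) + (x 0 * (2 * ph * 0 - V i 0) + x 1 * (2 * ph * 0 - V i 1) +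
    x 2 * (2 * ph * 0 - V i 2)) = _
  ring

theorem tile_vs : tile DD vs = tet := by
  have hp := ph_lo
  apply Subset.antisymm
  · intro x hx i
    have hs := JACT.sig_of_mem pos_DD vs_DD hx
    obtain ⟨u, hu, h⟩ := cut_mem i
    have h1 := hs.1 u hu
    rw [h, Bas.ell_vs] at h1
    unfold lam
    have h2 := phsq
    have h3 : -(ph ^ 2 * ph) - (V i 0 * x 0 + V i 1 * x 1 + V i 2 * x 2) ≤ -(2 * ph) := by
      by_contra hcon
      push Not at hcon
      have : (ph / 2) * (-(2 * ph)) < (ph / 2) * (-(ph ^ 2 * ph) -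
        (V i 0 * x 0 + V i 1 * x 1 + V i 2 * x 2)) := mul_lt_mul_of_pos_left hcon (by linarith)
      nlinarith
    have h4 : ph ^ 2 * ph = 2 * ph + 1 := by linear_combination (ph + 1) * h2
    linarith
  · intro x hx u hu
    rw [Bas.ell_vs, ← JACT.B_le_iff (pos_DD u hu)]
    have e : ((ph, x) : M) = lam 0 x • W 0 + lam 1 x • W 1 + lam 2 x • W 2 + lam 3 x • W 3 := by
      refine Prod.ext ?_ ?_
      · show ph = lam 0 x * ph + lam 1 x * ph + lam 2 x * ph + lam 3 x * ph
        linear_combination (-ph) * lam_sum x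
      · exact recon x
    have hlin : B (lam 0 x • W 0 + lam 1 x • W 1 + lam 2 x • W 2 + lam 3 x • W 3) u =
        lam 0 x * B (W 0) u + lam 1 x * B (W 1) u + lam 2 x * B (W 2) u + lam 3 x * B (W 3) u := by
      unfold B
      simp only [Fin.sum_univ_three, Prod.fst_add, Prod.snd_add, Prod.smul_fst, Prod.smul_snd,
        PiLp.add_apply, PiLp.smul_apply, smul_eq_mul]
      ring
    rw [e, hlin]
    have q : ∀ i, lam i x * B (W i) u ≤ lam i x * (- ph ^ 2) := fun i =>
      mul_le_mul_of_nonneg_left (vtx_le (pc_W i) (fut_W i) u hu) (hx i)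
    calc _ ≤ lam 0 x * (- ph ^ 2) + lam 1 x * (- ph ^ 2) + lam 2 x * (- ph ^ 2) +
        lam 3 x * (- ph ^ 2) := add_le_add (add_le_add (add_le_add (q 0) (q 1)) (q 2)) (q 3)
      _ = - ph ^ 2 := by linear_combination (- ph ^ 2) * lam_sum x

end Pool.Agent.Q293.TO
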